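import Pool.Agent.H487.NB.Heat

/-!
# Zeros of the heat flow
-/

set_option autoImplicit false

open MeasureTheory Set Filter Topology
open scoped ComplexConjugate

namespace Pool.Agent.H487.NB

lemma SlowGrowth.deriv {F : ℂ → ℂ} (hd : Differentiable ℂ F) (h : SlowGrowth F) : SlowGrowth (deriv F) := by
  obtain ⟨E, hE, hEt, hb⟩ := h
  refine ⟨fun ρ => E (ρ + 1), fun a b hab => hE (by linarith), ?_, fun s => ?_⟩
  · have h1 : Tendsto (fun ρ : ℝ => ρ + 1) atTop atTop := tendsto_atTop_add_const_right _ _ tendsto_id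
    have h2 := hEt.comp h1
    have h3 : Tendsto (fun ρ : ℝ => (1 + 1 / ρ) ^ 2) atTop (𝓝 ((1 + 0) ^ 2)) :=
      (tendsto_const_nhds.add (tendsto_const_nhds.div_atTop tendsto_id)).pow 2
    have h4 := h2.mul h3
    rw [zero_mul] at h4
    refine h4.congr' ?_
    filter_upwards [eventually_gt_atTop 0] with ρ h5
    simp only [Function.comp]
    have h7 : ρ + 1 ≠ 0 := by linarith
    field_simp
  · have h1 := Complex.norm_deriv_le_of_forall_mem_sphere_norm_le (c := s) (R := 1)
      (C := Real.exp (E (‖s‖ + 1))) (f := F) one_pos hd.diffContOnCl (fun z hz => ?_)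
    · simpa using h1
    · refine (hb z).trans (Real.exp_le_exp.mpr (hE ?_))
      rw [Metric.mem_sphere, dist_eq_norm] at hz
      have := norm_add_le (z - s) s
      rw [sub_add_cancel] at this
      linarith

theorem heat_hasDerivAt {F : ℂ → ℂ} (hd : Differentiable ℂ F) (h : SlowGrowth F) {t : ℝ} (ht : 0 < t)
    (s : ℂ) : HasDerivAt (heat t F) (heat t (deriv F) s) s := by
  have hc : Continuous F := hd.continuous
  have hd' : Differentiable ℂ (deriv F) := hd.deriv
  have hs' := SlowGrowth.deriv hd h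
  obtain ⟨K, hK, hb⟩ := hs'.bound (c := 1 / (8 * t)) (by positivity) (‖s‖ + 1)
  have hexpc : Continuous fun x : ℝ => ((Real.exp (-(x ^ 2 / (4 * t))) : ℝ) : ℂ) :=
    Complex.continuous_ofReal.comp (Real.continuous_exp.comp (by fun_prop))
  have key := hasDerivAt_integral_of_dominated_loc_of_deriv_le (𝕜 := ℂ) (μ := (volume : Measure ℝ))
    (F := fun z x => F (z + x) * ((Real.exp (-(x ^ 2 / (4 * t))) : ℝ) : ℂ))
    (F' := fun z x => deriv F (z + x) * ((Real.exp (-(x ^ 2 / (4 * t))) : ℝ) : ℂ))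
    (x₀ := s) (s := Metric.ball s 1) (bound := fun x => K * Real.exp (-(1 / (8 * t) * x ^ 2)))
    (Metric.ball_mem_nhds s one_pos) ?_ ?_ ?_ ?_ ?_ ?_
  · exact key.2.const_mul _
  · refine Eventually.of_forall fun z => Continuous.aestronglyMeasurable ?_
    exact (hc.comp (by fun_prop)).mul hexpc
  · have := heat_integrable hc h ht s 0
    simpa using this
  · refine Continuous.aestronglyMeasurable ?_
    exact (hd'.continuous.comp (by fun_prop)).mul hexpc
  · refine Eventually.of_forall fun x z hz => ?_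
    rw [norm_mul, Complex.norm_real, Real.norm_of_nonneg (Real.exp_pos _).le]
    have h2 := hb (z + x) |x| (abs_nonneg x) (by
      refine (norm_add_le _ _).trans ?_
      rw [Complex.norm_real, Real.norm_eq_abs]
      rw [Metric.mem_ball, dist_eq_norm] at hz
      have := norm_add_le (z - s) s
      rw [sub_add_cancel] at this
      linarith)
    have e : Real.exp (1 / (8 * t) * |x| ^ 2) * Real.exp (-(x ^ 2 / (4 * t))) = Real.exp (-(1 / (8 * t) * x ^ 2)) := by
      rw [← Real.exp_add, sq_abs]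
      congr 1
      field_simp
      ring
    calc ‖deriv F (z + x)‖ * Real.exp (-(x ^ 2 / (4 * t)))
        ≤ (K * Real.exp (1 / (8 * t) * |x| ^ 2)) * Real.exp (-(x ^ 2 / (4 * t))) := by gcongr
      _ = K * Real.exp (-(1 / (8 * t) * x ^ 2)) := by rw [mul_assoc, e]
  · have := (integrable_exp_neg_mul_sq (show 0 < 1 / (8 * t) by positivity)).const_mul K
    refine this.congr (Eventually.of_forall fun x => ?_)
    simp only []
    rw [neg_mul]
  · refine Eventually.of_forall fun x z _ => ?_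
    have h1 : HasDerivAt (fun z : ℂ => F (z + x)) (deriv F (z + x)) z :=
      HasDerivAt.comp_add_const z (x : ℂ) (hd (z + x)).hasDerivAt
    exact h1.mul_const _

lemma heat_differentiable {F : ℂ → ℂ} (hd : Differentiable ℂ F) (h : SlowGrowth F) {t : ℝ} (ht : 0 < t) :
    Differentiable ℂ (heat t F) := fun s => (heat_hasDerivAt hd h ht s).differentiableAt

variable {P P' b t : ℝ} {F : ℂ → ℂ} {g : ℝ → ℂ}

/-- **the zeros of the heat flow at height `y`.** -/
theorem heat_zero (hd : Differentiable ℂ F) (hs : SlowGrowth F) {ε : ℂ} (hε : ‖ε‖ = 1)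
    (hfe : ∀ s, F s = ε * conj (F (1 - conj s))) (ht : 0 < t) {y : ℝ}
    (S : Slow P P' b (fun u => F (1 / 2 + y * Complex.I + u)) g) (hb : 0 < b) (hP : 0 < P) (hP' : 0 ≤ P')
    (h1 : 256 * P ^ 2 * t ≤ 1) (h2 : 8 * P' * t ≤ 1)
    (hA : ∫ u, (‖hh t (fun u => F (1 / 2 + y * Complex.I + u)) u‖ -
      H1 (hh t fun u => F (1 / 2 + y * Complex.I + u)) b u) ≤
      (∫ u, H1 (hh t fun u => F (1 / 2 + y * Complex.I + u)) b u) / 16)
    (hA1 : 0 < ∫ u, H1 (hh t fun u => F (1 / 2 + y * Complex.I + u)) b u) (X : ℝ)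
    (hX : heat t F (1 / 2 + y * Complex.I + X) = 0) :
    X = 0 ∧ deriv (heat t F) (1 / 2 + y * Complex.I) ≠ 0 := by
  set c : ℂ := 1 / 2 + y * Complex.I with hc
  set h : ℝ → ℂ := hh t fun u => F (c + u) with hh'
  set A : ℝ := ∫ u, H1 h b u with hAdef
  have hsupp : ∀ u, u < 0 → h u = 0 := fun u hu => hh_neg hu
  have hint : ∀ a : ℝ, Integrable fun u => h u * ((Real.exp (a * u) : ℝ) : ℂ) := fun a =>
    hh_integrable hd.continuous hs ht c a
  have main : ∀ a : ℝ, 0 ≤ a → a * b * A ^ 2 ≤ ‖KK h a‖ ^ 2 - ‖KK h (-a)‖ ^ 2 := fun a ha =>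
    main_pos hb.le hsupp hint (fun p hp => cor_lower S hb.le ht hP hP' h1 h2 hp) hA ha
  set κ : ℝ := 1 / Real.sqrt (4 * Real.pi * t) with hκ
  have hκ0 : 0 < κ := by
    rw [hκ]
    have := Real.pi_pos
    positivity
  have low : ∀ X : ℝ, 0 ≤ X → κ * Real.exp (-(X ^ 2 / (4 * t))) * (‖KK h (X / (2 * t))‖ - ‖KK h (-(X / (2 * t)))‖) ≤
      ‖heat t F (c + X)‖ := by
    intro X _
    rw [heat_split hd.continuous hs hfe ht y X, norm_mul, Complex.norm_real,
      Real.norm_of_nonneg (by positivity)]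
    refine mul_le_mul_of_nonneg_left ?_ (by positivity)
    have h3 := norm_sub_norm_le (KK h (X / (2 * t))) (-(ε * conj (KK h (-(X / (2 * t))))))
    rw [sub_neg_eq_add, norm_neg, norm_mul, hε, one_mul, RCLike.norm_conj] at h3
    exact h3
  have low' : ∀ X : ℝ, 0 ≤ X → κ * Real.exp (-(X ^ 2 / (4 * t))) * (‖KK h (X / (2 * t))‖ - ‖KK h (-(X / (2 * t)))‖) ≤
      ‖heat t F (c - X)‖ := by
    intro X _
    have e : c - X = c + ((-X : ℝ) : ℂ) := by push_cast; ring
    have e2 : -(-X / (2 * t)) = X / (2 * t) := by ring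
    have e3 : (-X / (2 * t)) = -(X / (2 * t)) := by ring
    rw [e, heat_split hd.continuous hs hfe ht y (-X), norm_mul, Complex.norm_real,
      Real.norm_of_nonneg (by positivity), e2, e3, neg_sq]
    refine mul_le_mul_of_nonneg_left ?_ (by positivity)
    have h3 := norm_sub_norm_le (ε * conj (KK h (X / (2 * t)))) (-KK h (-(X / (2 * t))))
    rw [sub_neg_eq_add, norm_neg, norm_mul, hε, one_mul, RCLike.norm_conj] at h3
    rw [add_comm]
    exact h3
  have pos : ∀ X : ℝ, 0 < X → 0 < ‖KK h (X / (2 * t))‖ - ‖KK h (-(X / (2 * t)))‖ := by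
    intro X hX
    have ha : 0 < X / (2 * t) := by positivity
    have h3 := main _ ha.le
    have h4 : 0 < X / (2 * t) * b * A ^ 2 := by positivity
    have h5 : ‖KK h (-(X / (2 * t)))‖ ^ 2 < ‖KK h (X / (2 * t))‖ ^ 2 := by linarith
    have h6 := lt_of_pow_lt_pow_left₀ 2 (norm_nonneg _) h5
    linarith
  have hX0 : X = 0 := by
    by_contra hne
    rcases lt_or_gt_of_ne hne with hlt | hgt
    · have h3 := low' (-X) (by linarith)
      have h4 := pos (-X) (by linarith)
      have e : c - ((-X : ℝ) : ℂ) = c + X := by push_cast; ring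
      rw [e, hX, norm_zero] at h3
      have : 0 < κ * Real.exp (-((-X) ^ 2 / (4 * t))) * (‖KK h (-X / (2 * t))‖ - ‖KK h (-(-X / (2 * t)))‖) := by
        positivity
      linarith
    · have h3 := low X hgt.le
      have h4 := pos X hgt
      rw [hX, norm_zero] at h3
      have : 0 < κ * Real.exp (-(X ^ 2 / (4 * t))) * (‖KK h (X / (2 * t))‖ - ‖KK h (-(X / (2 * t)))‖) := by
        positivity
      linarith
  refine ⟨hX0, fun hder => ?_⟩
  rw [hX0, Complex.ofReal_zero, add_zero] at hX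
  -- bound for `K`
  have hn : Integrable fun u => ‖h u‖ * Real.exp (1 * u) := H_int hint 1
  set B : ℝ := ∫ u, ‖h u‖ * Real.exp (1 * u) with hB
  have hB0 : 0 ≤ B := integral_nonneg fun u => by positivity
  have kb : ∀ a : ℝ, |a| ≤ 1 → ‖KK h a‖ ≤ B := by
    intro a ha
    unfold KK
    refine (norm_integral_le_integral_norm _).trans ?_
    refine integral_mono (hint a).norm hn fun u => ?_
    simp only []
    rw [norm_mul, RCLike.ofReal_eq_complex_ofReal, Complex.norm_real, Real.norm_of_nonneg (Real.exp_pos _).le]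
    rcases lt_or_ge u 0 with hu | hu
    · rw [hsupp u hu]; simp
    · refine mul_le_mul_of_nonneg_left (Real.exp_le_exp.mpr ?_) (norm_nonneg _)
      have := (abs_le.mp ha).2
      nlinarith
  have hdr : HasDerivAt (fun X : ℝ => heat t F (c + X)) 0 0 := by
    have h3 : HasDerivAt (heat t F) 0 (c + ((0 : ℝ) : ℂ)) := by
      rw [Complex.ofReal_zero, add_zero, ← hder]
      exact (heat_differentiable hd hs ht c).hasDerivAt
    have h4 : HasDerivAt (fun X : ℝ => c + (X : ℂ)) 1 0 := by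
      have := (Complex.ofRealCLM.hasDerivAt (x := (0 : ℝ))).const_add c
      simpa using this
    have h5 : HasDerivAt (fun X : ℝ => heat t F (c + X)) ((1 : ℂ) • (0 : ℂ)) 0 :=
      h3.scomp_of_eq (0 : ℝ) h4 rfl
    rw [smul_zero] at h5
    exact h5
  set η : ℝ := κ * Real.exp (-(1 / (4 * t))) * (b * A ^ 2 / (2 * t) / (2 * B + 1)) with hη
  have hη0 : 0 < η := by positivity
  have hlo := (hasDerivAt_iff_isLittleO.mp hdr).def (half_pos hη0)
  simp only [sub_zero, Complex.ofReal_zero, add_zero, hX, smul_zero] at hlo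
  obtain ⟨δ, hδ, hball⟩ := Metric.eventually_nhds_iff.mp hlo
  set X1 : ℝ := min (δ / 2) (min 1 (2 * t)) with hX1
  have hX10 : 0 < X1 := by positivity
  have hX1δ : X1 < δ := lt_of_le_of_lt (min_le_left _ _) (by linarith)
  have hX11 : X1 ≤ 1 := (min_le_right _ _).trans (min_le_left _ _)
  have hX1t : X1 ≤ 2 * t := (min_le_right _ _).trans (min_le_right _ _)
  have h3 := hball (y := X1) (by rw [dist_zero_right, Real.norm_of_nonneg hX10.le]; exact hX1δ)
  rw [Real.norm_of_nonneg hX10.le] at h3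
  have h4 := low X1 hX10.le
  have ha1 : X1 / (2 * t) ≤ 1 := by rw [div_le_one (by positivity)]; exact hX1t
  have ha0 : 0 < X1 / (2 * t) := by positivity
  have k1 := kb (X1 / (2 * t)) (by rw [abs_of_pos ha0]; exact ha1)
  have k2 := kb (-(X1 / (2 * t))) (by rw [abs_neg, abs_of_pos ha0]; exact ha1)
  have h5 := main _ ha0.le
  have h6 : X1 * (b * A ^ 2 / (2 * t) / (2 * B + 1)) ≤ ‖KK h (X1 / (2 * t))‖ - ‖KK h (-(X1 / (2 * t)))‖ := by
    have e : X1 * (b * A ^ 2 / (2 * t) / (2 * B + 1)) = (X1 / (2 * t) * b * A ^ 2) / (2 * B + 1) := by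
      field_simp
    rw [e, div_le_iff₀ (by positivity)]
    refine h5.trans ?_
    have e2 : ‖KK h (X1 / (2 * t))‖ ^ 2 - ‖KK h (-(X1 / (2 * t)))‖ ^ 2 =
      (‖KK h (X1 / (2 * t))‖ - ‖KK h (-(X1 / (2 * t)))‖) * (‖KK h (X1 / (2 * t))‖ + ‖KK h (-(X1 / (2 * t)))‖) := by ring
    rw [e2]
    exact mul_le_mul_of_nonneg_left (by linarith) (pos X1 hX10).le
  have h7 : Real.exp (-(1 / (4 * t))) ≤ Real.exp (-(X1 ^ 2 / (4 * t))) := by
    apply Real.exp_le_exp.mpr
    have : X1 ^ 2 / (4 * t) ≤ 1 / (4 * t) := by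
      rw [div_le_div_iff_of_pos_right (by positivity)]
      nlinarith
    linarith
  have h8 : η * X1 ≤ ‖heat t F (c + X1)‖ := by
    refine le_trans ?_ h4
    have e : η * X1 = κ * Real.exp (-(1 / (4 * t))) * (X1 * (b * A ^ 2 / (2 * t) / (2 * B + 1))) := by
      rw [hη]; ring
    rw [e]
    refine mul_le_mul (mul_le_mul_of_nonneg_left h7 hκ0.le) h6 (by positivity) (by positivity)
  nlinarith

end Pool.Agent.H487.NB
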