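import Pool.Agent.H487.NB.HeatFlow
import Pool.Graph.R_seed8.H353R7.G5

/-!
# The zeros of `e^{t D²} f`, `t ≥ 0`, stay in the strip (de Bruijn), and a theorem of Hurwitz
-/

set_option autoImplicit false

open MeasureTheory Set Filter Topology
open scoped ComplexConjugate

namespace Pool.Agent.H487.NB

open H353.E

/-! ### exponential polynomials -/

/-- `(D - α) g` -/
noncomputable def lop (α : ℂ) (g : ℂ → ℂ) : ℂ → ℂ := fun s => deriv g s - α * g s

/-- `f` is not annihilated by a product of operators `D - α` (it is not an exponential polynomial) -/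
def NonExp (f : ℂ → ℂ) : Prop := ∀ l : List ℂ, l.foldr lop f ≠ 0

/-- at most exponential growth on the positive real axis -/
def ExpReal (g : ℂ → ℂ) : Prop := ∃ A B : ℝ, ∀ x : ℝ, 0 ≤ x → ‖g x‖ ≤ A * Real.exp (B * x)

lemma lop_diff {g : ℂ → ℂ} (hg : Differentiable ℂ g) (α : ℂ) : Differentiable ℂ (lop α g) :=
  hg.deriv.sub (hg.const_mul α)

lemma lop_smul {g : ℂ → ℂ} (hg : Differentiable ℂ g) (a x : ℂ) :
    lop x (fun s => a * g s) = fun s => a * lop x g s := by
  ext s
  unfold lop
  rw [deriv_const_mul _ (hg s)]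
  ring

lemma fold_diff {f : ℂ → ℂ} (hf : Differentiable ℂ f) (l : List ℂ) : Differentiable ℂ (l.foldr lop f) := by
  induction l with
  | nil => simpa using hf
  | cons a l ih => exact lop_diff ih a

lemma expReal_of_lop {g : ℂ → ℂ} (hg : Differentiable ℂ g) {α : ℂ} (h : ExpReal (lop α g)) : ExpReal g := by
  obtain ⟨A, B, hAB⟩ := h
  refine ⟨‖g 0‖ + |A|, |B| + ‖α‖ + ‖α‖ + 1, fun x hx => ?_⟩
  -- `φ(y) = g(y) e^{-α y}`
  have hd : ∀ y : ℝ, HasDerivAt (fun y : ℝ => g y * Complex.exp (-(α * y))) (lop α g y * Complex.exp (-(α * y))) y := by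
    intro y
    have h1 : HasDerivAt (fun y : ℝ => g y) (deriv g y) y := (hg (y : ℂ)).hasDerivAt.comp_ofReal
    have h2 : HasDerivAt (fun y : ℝ => -(α * (y : ℂ))) (-(α * 1)) y :=
      ((Complex.ofRealCLM.hasDerivAt (x := y)).const_mul α).neg
    have h3 := h1.mul h2.cexp
    refine h3.congr_deriv ?_
    unfold lop
    ring
  have hb : ∀ y ∈ Icc 0 x, ‖lop α g y * Complex.exp (-(α * y))‖ ≤ |A| * Real.exp ((|B| + ‖α‖) * x) := by
    intro y hy
    rw [norm_mul, Complex.norm_exp]
    have h1 := hAB y hy.1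
    have h2 : A * Real.exp (B * y) ≤ |A| * Real.exp (|B| * x) := by
      refine mul_le_mul (le_abs_self A) (Real.exp_le_exp.mpr ?_) (Real.exp_pos _).le (abs_nonneg A)
      calc B * y ≤ |B| * y := mul_le_mul_of_nonneg_right (le_abs_self B) hy.1
        _ ≤ |B| * x := mul_le_mul_of_nonneg_left hy.2 (abs_nonneg B)
    have h3 : Real.exp (-(α * (y : ℂ))).re ≤ Real.exp (‖α‖ * x) := by
      apply Real.exp_le_exp.mpr
      calc (-(α * (y : ℂ))).re ≤ ‖-(α * (y : ℂ))‖ := Complex.re_le_norm _
        _ = ‖α‖ * y := by rw [norm_neg, norm_mul, Complex.norm_real, Real.norm_of_nonneg hy.1]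
        _ ≤ ‖α‖ * x := mul_le_mul_of_nonneg_left hy.2 (norm_nonneg _)
    calc ‖lop α g y‖ * Real.exp (-(α * (y : ℂ))).re
        ≤ (|A| * Real.exp (|B| * x)) * Real.exp (‖α‖ * x) :=
          mul_le_mul (h1.trans h2) h3 (Real.exp_pos _).le (by positivity)
      _ = |A| * Real.exp ((|B| + ‖α‖) * x) := by rw [mul_assoc, ← Real.exp_add]; congr 2; ring
  have hmv := (convex_Icc 0 x).norm_image_sub_le_of_norm_hasDerivWithin_le
    (fun y hy => (hd y).hasDerivWithinAt) hb (x := 0) (y := x) ⟨le_rfl, hx⟩ ⟨hx, le_rfl⟩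
  simp only [Complex.ofReal_zero, mul_zero, neg_zero, Complex.exp_zero, mul_one, sub_zero] at hmv
  rw [Real.norm_of_nonneg hx] at hmv
  have h4 : ‖g x * Complex.exp (-(α * x))‖ ≤ ‖g 0‖ + |A| * Real.exp ((|B| + ‖α‖) * x) * x := by
    have := norm_add_le (g x * Complex.exp (-(α * x)) - g 0) (g 0)
    rw [sub_add_cancel] at this
    linarith
  rw [norm_mul, Complex.norm_exp] at h4
  have h5 : Real.exp (-(‖α‖ * x)) ≤ Real.exp (-(α * (x : ℂ))).re := by
    apply Real.exp_le_exp.mpr
    have h6 := Complex.re_le_norm (α * (x : ℂ))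
    rw [norm_mul, Complex.norm_real, Real.norm_of_nonneg hx] at h6
    rw [Complex.neg_re]
    linarith
  have h6 : ‖g x‖ * Real.exp (-(‖α‖ * x)) ≤ ‖g 0‖ + |A| * Real.exp ((|B| + ‖α‖) * x) * x :=
    (mul_le_mul_of_nonneg_left h5 (norm_nonneg _)).trans h4
  rw [Real.exp_neg, ← div_eq_mul_inv, div_le_iff₀ (Real.exp_pos _)] at h6
  refine h6.trans ?_
  have h7 : x ≤ Real.exp x := by linarith [Real.add_one_le_exp x]
  have h8 : 1 ≤ Real.exp ((|B| + ‖α‖ + 1) * x) := Real.one_le_exp (by positivity)
  have h9 : Real.exp ((|B| + ‖α‖) * x) * x ≤ Real.exp ((|B| + ‖α‖ + 1) * x) := by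
    calc Real.exp ((|B| + ‖α‖) * x) * x ≤ Real.exp ((|B| + ‖α‖) * x) * Real.exp x := by gcongr
      _ = _ := by rw [← Real.exp_add]; congr 1; ring
  have e : Real.exp ((|B| + ‖α‖ + ‖α‖ + 1) * x) = Real.exp ((|B| + ‖α‖ + 1) * x) * Real.exp (‖α‖ * x) := by
    rw [← Real.exp_add]; congr 1; ring
  rw [e, ← mul_assoc]
  refine mul_le_mul_of_nonneg_right ?_ (Real.exp_pos _).le
  nlinarith [norm_nonneg (g 0), abs_nonneg A]

lemma nonExp_of {f : ℂ → ℂ} (hf : Differentiable ℂ f) (h : ¬ ExpReal f) : NonExp f := by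
  intro l hl
  have h1 : ∀ l : List ℂ, ExpReal (l.foldr lop f) → ExpReal f := by
    intro l
    induction l with
    | nil => intro h; simpa using h
    | cons a l ih => intro h; exact ih (expReal_of_lop (fold_diff hf l) h)
  refine h (h1 l ?_)
  rw [hl]
  exact ⟨0, 0, fun x _ => by simp⟩

/-! ### the class -/

/-- the class of functions with zeros in the strip `|Re s - 1/2| ≤ b` -/
structure Cl (b : ℝ) (f : ℂ → ℂ) : Prop where
  diff : Differentiable ℂ f
  type0 : Type0 f
  fe : ∃ ε : ℂ, ∀ s, f s = ε * conj (f (1 - conj s))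
  zer : ∀ s, f s = 0 → s.re ≤ 1 / 2 + b
  nonexp : NonExp f

lemma Cl.ne {b : ℝ} {f : ℂ → ℂ} (h : Cl b f) : ∃ z, f z ≠ 0 := by
  by_contra hcon
  push Not at hcon
  exact h.nonexp [] (funext hcon)

lemma type0_add {f g : ℂ → ℂ} (hf : Type0 f) (hg : Type0 g) (a : ℂ) : Type0 (fun s => f s + a * g s) := fun c hc => by
  obtain ⟨K, hK, h1⟩ := hf c hc
  obtain ⟨L, hL, h2⟩ := hg c hc
  refine ⟨K + ‖a‖ * L, by positivity, fun s => ?_⟩
  refine (norm_add_le _ _).trans ?_
  rw [norm_mul, add_mul, mul_assoc]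
  exact add_le_add (h1 s) (mul_le_mul_of_nonneg_left (h2 s) (norm_nonneg a))

theorem Cl.step {b : ℝ} {f : ℂ → ℂ} (h : Cl b f) {r : ℝ} (hr : r ≠ 0) :
    Cl b (fun s => f s + (r * Complex.I) * deriv f s) := by
  obtain ⟨ε, hfe⟩ := h.fe
  have hrI : ((r : ℂ) * Complex.I) ≠ 0 := mul_ne_zero (by exact_mod_cast hr) Complex.I_ne_zero
  set α : ℂ := -(1 / ((r : ℂ) * Complex.I)) with hα
  have hrα : ((r : ℂ) * Complex.I) * α = -1 := by rw [hα, mul_neg, mul_one_div_cancel hrI]
  have hfac : (fun s => f s + (r * Complex.I) * deriv f s) = fun s => ((r : ℂ) * Complex.I) * lop α f s := by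
    ext s
    unfold lop
    linear_combination (f s) * hrα
  have hfed := fe_deriv h.diff hfe
  refine ⟨h.diff.add (h.diff.deriv.const_mul _), type0_add h.type0 (h.type0.deriv h.diff) _, ⟨ε, fun s => ?_⟩, ?_, ?_⟩
  · have h1 := hfe s
    have h2 := hfed s
    rw [map_add, map_mul, map_mul, Complex.conj_ofReal, Complex.conj_I]
    linear_combination h1 + (r * Complex.I) * h2
  · intro s hs
    by_contra hcon
    push Not at hcon
    obtain ⟨y, hy⟩ := exists_ne_line h.diff h.ne
    obtain ⟨E, hE, hEt, hb⟩ := h.type0.slow h.diff.continuous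
    set c : ℂ := 1 / 2 + y * Complex.I with hc
    have hcc : c + conj c = 1 := by
      apply Complex.ext
      · simp [hc]; norm_num
      · simp [hc]
    set F : ℂ → ℂ := fun w => f (c + w) with hF
    have hFd : Differentiable ℂ F := h.diff.comp (by fun_prop)
    have hdF : ∀ w, deriv F w = deriv f (c + w) := fun w => by
      simp only [hF]
      exact deriv_comp_const_add f c w
    have hcre : c.re = 1 / 2 := by simp [hc]
    have hpos : ∀ z : ℂ, 1 / 2 + b < z.re → 0 ≤ (deriv f z / f z).re := fun z hz => by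
      have h1 := re_logderiv_nonneg (F := F) hFd (by simpa [hF] using hy) (ε := ε) (fun w => ?_)
        (E := fun ρ => E (ρ + ‖c‖)) (fun a b hab => hE (by linarith)) (tend_shift hEt ‖c‖)
        (fun w => (hb (c + w)).trans (Real.exp_le_exp.mpr (hE (by linarith [norm_add_le c w]))))
        (b := b) (fun u hu => ?_) (w := z - c) ?_
      · rw [hdF] at h1
        simp only [hF] at h1
        rwa [add_sub_cancel] at h1
      · simp only [hF]
        rw [hfe (c + w)]
        congr 3
        rw [map_add]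
        linear_combination -hcc
      · have h1 := h.zer (c + u) hu
        rw [Complex.add_re, hcre] at h1
        linarith
      · rw [Complex.sub_re, hcre]
        linarith
    set U : Set ℂ := {z | 1 / 2 + b < z.re} with hU
    have hUo : IsOpen U := isOpen_lt continuous_const Complex.continuous_re
    have hUc : IsPreconnected U := (convex_halfSpace_re_gt (1 / 2 + b)).isPreconnected
    have hfU : ∀ z ∈ U, f z ≠ 0 := fun z hzU h0 => by
      have h1 := h.zer z h0
      have h2 : 1 / 2 + b < z.re := hzU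
      linarith
    have hg : AnalyticOnNhd ℂ (fun z => deriv f z / f z) U := by
      apply DifferentiableOn.analyticOnNhd _ hUo
      exact h.diff.deriv.differentiableOn.div h.diff.differentiableOn hfU
    have hsU : s ∈ U := hcon
    have hval : deriv f s / f s = α := by
      have h1 := hfU s hsU
      rw [div_eq_iff h1]
      apply mul_left_cancel₀ hrI
      linear_combination hs - f s * hrα
    have hαre : α.re = 0 := by
      rw [hα]
      simp
    rcases hg.is_constant_or_isOpen hUc with ⟨q, hq⟩ | ho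
    · have hqα : q = α := by rw [← hq s hsU, hval]
      have h1 : ∀ z ∈ U, lop α f z = 0 := fun z hzU => by
        have h2 := hq z hzU
        rw [hqα, div_eq_iff (hfU z hzU)] at h2
        unfold lop
        rw [h2, sub_self]
      have hdA : AnalyticOnNhd ℂ (lop α f) univ := fun x _ => (lop_diff h.diff α).analyticAt x
      have h2 : lop α f =ᶠ[𝓝 s] fun _ => 0 := by
        filter_upwards [hUo.mem_nhds hsU] with z hzU
        exact h1 z hzU
      have h3 : lop α f = 0 := by
        ext z
        exact hdA.eqOn_zero_of_preconnected_of_eventuallyEq_zero isPreconnected_univ (mem_univ s) h2 (mem_univ z)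
      exact h.nonexp [α] (by simpa using h3)
    · have h1 := ho U subset_rfl hUo
      have h2 : α ∈ (fun z => deriv f z / f z) '' U := ⟨s, hsU, hval⟩
      obtain ⟨δ, hδ, hball⟩ := Metric.isOpen_iff.mp h1 α h2
      have h3 : α - ((δ / 2 : ℝ) : ℂ) ∈ Metric.ball α δ := by
        rw [Metric.mem_ball, dist_eq_norm, sub_sub_cancel_left, norm_neg, Complex.norm_real,
          Real.norm_of_nonneg (by positivity)]
        linarith
      obtain ⟨z, hzU, hz1⟩ := hball h3
      have h4 := hpos z hzU
      simp only at hz1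
      rw [hz1, Complex.sub_re, hαre, Complex.ofReal_re] at h4
      linarith
  · intro l hl
    rw [hfac] at hl
    have hsm : ∀ (l : List ℂ) (g : ℂ → ℂ) (_ : Differentiable ℂ g) (a : ℂ), l.foldr lop (fun s => a * g s) = fun s => a * (l.foldr lop g) s := by
      intro l g hg a
      induction l with
      | nil => rfl
      | cons x l ih =>
        rw [List.foldr_cons, List.foldr_cons, ih, lop_smul (fold_diff hg l)]
    rw [hsm l _ (lop_diff h.diff α)] at hl
    refine h.nonexp (l ++ [α]) ?_
    rw [List.foldr_append]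
    ext s
    have := congrFun hl s
    simp only [Pi.zero_apply, mul_eq_zero] at this
    rcases this with h1 | h1
    · exact absurd h1 (by simpa using hrI)
    · exact h1

end Pool.Agent.H487.NB
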