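import Mathlib

/-!
# Positivity of `‖∫ h e^{au}‖² - ‖∫ h e^{-au}‖²`

Let `h` be a function supported on `[0, ∞)` whose self-correlation is, at every point, at least
`(3/2) E₁ - E`, where `E` is the self-convolution of `|h|` and `E₁` that of `|h|` restricted to
`[b, ∞)`, and suppose that most of the mass of `|h|` is in `[b, ∞)`. Then
`‖∫ h e^{au}‖ > ‖∫ h e^{-au}‖` for all `a > 0`, with an explicit lower bound of order `a` as `a → 0`.
-/

set_option autoImplicit false

open MeasureTheory Set
open scoped ComplexConjugate Convolution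

namespace Pool.Agent.H487.NB

section corr

variable {𝕜 : Type*} [RCLike 𝕜]

/-- `K(a) = ∫ h(u) e^{au} du` -/
noncomputable def KK (h : ℝ → 𝕜) (a : ℝ) : 𝕜 := ∫ u, h u * (Real.exp (a * u) : 𝕜)

/-- self-correlation (self-convolution with a conjugation) -/
noncomputable def cor (h : ℝ → 𝕜) (p : ℝ) : 𝕜 := ∫ v, h v * conj (h (p - v))

lemma conv_eq (h : ℝ → 𝕜) (a p : ℝ) :
    ((fun u => h u * (Real.exp (a * u) : 𝕜)) ⋆[ContinuousLinearMap.mul ℝ 𝕜, volume]
      (fun u => conj (h u * (Real.exp (a * u) : 𝕜)))) p = (Real.exp (a * p) : 𝕜) * cor h p := by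
  unfold convolution cor
  rw [← integral_const_mul]
  congr 1
  ext v
  have e : Real.exp (a * p) = Real.exp (a * v) * Real.exp (a * (p - v)) := by
    rw [← Real.exp_add]; congr 1; ring
  rw [ContinuousLinearMap.mul_apply']
  simp only []
  rw [map_mul, RCLike.conj_ofReal, e, RCLike.ofReal_mul]
  ring

lemma cor_integrable {h : ℝ → 𝕜} {a : ℝ} (hi : Integrable fun u => h u * (Real.exp (a * u) : 𝕜)) :
    Integrable fun p => (Real.exp (a * p) : 𝕜) * cor h p := by
  have hi' : Integrable fun u => conj (h u * (Real.exp (a * u) : 𝕜)) := by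
    exact (RCLike.conjCLE (K := 𝕜)).integrable_comp_iff.mpr hi
  have := hi.integrable_convolution (ContinuousLinearMap.mul ℝ 𝕜) hi'
  refine this.congr (Filter.Eventually.of_forall fun p => ?_)
  exact conv_eq h a p

lemma KK_sq {h : ℝ → 𝕜} {a : ℝ} (hi : Integrable fun u => h u * (Real.exp (a * u) : 𝕜)) :
    ((‖KK h a‖ ^ 2 : ℝ) : 𝕜) = ∫ p, (Real.exp (a * p) : 𝕜) * cor h p := by
  have hi' : Integrable fun u => conj (h u * (Real.exp (a * u) : 𝕜)) := by
    exact (RCLike.conjCLE (K := 𝕜)).integrable_comp_iff.mpr hi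
  have h1 := integral_convolution (μ := volume) (ν := volume) (ContinuousLinearMap.mul ℝ 𝕜) hi hi'
  have h2 : ∫ u, conj (h u * (Real.exp (a * u) : 𝕜)) = conj (KK h a) := by
    unfold KK
    exact integral_conj
  rw [h2, ContinuousLinearMap.mul_apply'] at h1
  have h3 : (∫ u, h u * (Real.exp (a * u) : 𝕜)) = KK h a := rfl
  rw [h3, RCLike.mul_conj] at h1
  rw [RCLike.ofReal_pow, ← h1]
  exact integral_congr_ae (Filter.Eventually.of_forall fun p => conv_eq h a p)

end corr

lemma cor_neg {𝕜 : Type*} [RCLike 𝕜] {h : ℝ → 𝕜} (hs : ∀ u, u < 0 → h u = 0) {p : ℝ} (hp : p < 0) :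
    cor h p = 0 := by
  unfold cor
  refine integral_eq_zero_of_ae (Filter.Eventually.of_forall fun v => ?_)
  rcases lt_or_ge v 0 with h1 | h1
  · simp [hs v h1]
  · simp [hs (p - v) (by linarith)]

/-- the mass outside `[b, ∞)` and inside -/
noncomputable def H1 (h : ℝ → ℂ) (b : ℝ) (u : ℝ) : ℝ := if b ≤ u then ‖h u‖ else 0

lemma H1_nonneg (h : ℝ → ℂ) (b u : ℝ) : 0 ≤ H1 h b u := by
  unfold H1; split_ifs <;> simp

lemma H1_le (h : ℝ → ℂ) (b u : ℝ) : H1 h b u ≤ ‖h u‖ := by
  unfold H1; split_ifs <;> simp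

lemma H1_int {h : ℝ → ℂ} {b : ℝ} {w : ℝ → ℝ} (hi : Integrable fun u => ‖h u‖ * w u) :
    Integrable fun u => H1 h b u * w u := by
  have := hi.indicator (measurableSet_Ici (a := b))
  refine this.congr (Filter.Eventually.of_forall fun u => ?_)
  unfold H1
  by_cases hu : b ≤ u
  · simp [indicator, hu]
  · simp [indicator, hu]

lemma H_int {h : ℝ → ℂ} (hint : ∀ a : ℝ, Integrable fun u => h u * ((Real.exp (a * u) : ℝ) : ℂ)) (a : ℝ) :
    Integrable fun u => ‖h u‖ * Real.exp (a * u) := by
  refine (hint a).norm.congr (Filter.Eventually.of_forall fun u => ?_)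
  simp only []
  rw [norm_mul, Complex.norm_real, Real.norm_eq_abs, abs_of_pos (Real.exp_pos _)]

/-- **The main inequality.** -/
theorem main_pos {h : ℝ → ℂ} {b : ℝ} (hb : 0 ≤ b) (hs : ∀ u, u < 0 → h u = 0)
    (hint : ∀ a : ℝ, Integrable fun u => h u * ((Real.exp (a * u) : ℝ) : ℂ))
    (hcor : ∀ p, 0 ≤ p → 3 / 2 * cor (H1 h b) p - cor (fun u => ‖h u‖) p ≤ (cor h p).re)
    (hA : ∫ u, (‖h u‖ - H1 h b u) ≤ (∫ u, H1 h b u) / 16) {a : ℝ} (ha : 0 ≤ a) :
    a * b * (∫ u, H1 h b u) ^ 2 ≤ ‖KK h a‖ ^ 2 - ‖KK h (-a)‖ ^ 2 := by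
  have hH := H_int hint
  have hH1 : ∀ a : ℝ, Integrable fun u => H1 h b u * Real.exp (a * u) := fun a => H1_int (hH a)
  have hre : ∀ a p : ℝ, (((Real.exp (a * p) : ℝ) : ℂ) * cor h p).re = Real.exp (a * p) * (cor h p).re :=
    fun a p => Complex.re_ofReal_mul _ _
  have e1 : ∀ a : ℝ, ‖KK h a‖ ^ 2 = ∫ p, Real.exp (a * p) * (cor h p).re := fun a => by
    have h1 := KK_sq (hint a)
    have h2 := congrArg Complex.re h1
    rw [RCLike.ofReal_eq_complex_ofReal, Complex.ofReal_re] at h2
    rw [h2]
    have h3 := Complex.reCLM.integral_comp_comm (cor_integrable (hint a))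
    simp only [Complex.reCLM_apply] at h3
    refine h3.symm.trans ?_
    exact integral_congr_ae (Filter.Eventually.of_forall fun p => hre a p)
  have i1 : ∀ a : ℝ, Integrable fun p => Real.exp (a * p) * (cor h p).re := fun a => by
    exact (cor_integrable (hint a)).re.congr (Filter.Eventually.of_forall fun p => hre a p)
  have e2 : ∀ (g : ℝ → ℝ), (∀ a : ℝ, Integrable fun u => g u * Real.exp (a * u)) → ∀ a : ℝ,
      (KK g a) ^ 2 = ∫ p, Real.exp (a * p) * cor g p := fun g hg a => by
    have h1 := KK_sq (𝕜 := ℝ) (h := g) (a := a) (by simpa using hg a)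
    simpa using h1
  have i2 : ∀ (g : ℝ → ℝ), (∀ a : ℝ, Integrable fun u => g u * Real.exp (a * u)) → ∀ a : ℝ,
      Integrable fun p => Real.exp (a * p) * cor g p := fun g hg a => by
    have h1 := cor_integrable (𝕜 := ℝ) (h := g) (a := a) (by simpa using hg a)
    simpa using h1
  set H : ℝ → ℝ := fun u => ‖h u‖ with hHdef
  set G : ℝ → ℝ := H1 h b with hG
  -- comparison of the correlations
  have c1 : 3 / 2 * (KK G a ^ 2 - KK G (-a) ^ 2) - (KK H a ^ 2 - KK H (-a) ^ 2) ≤
      ‖KK h a‖ ^ 2 - ‖KK h (-a)‖ ^ 2 := by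
    rw [e1 a, e1 (-a), e2 G hH1, e2 G hH1, e2 H hH, e2 H hH, ← integral_sub (i1 a) (i1 (-a)),
      ← integral_sub (i2 G hH1 a) (i2 G hH1 (-a)), ← integral_sub (i2 H hH a) (i2 H hH (-a)),
      ← integral_const_mul, ← integral_sub]
    · refine integral_mono ?_ ((i1 a).sub (i1 (-a))) fun p => ?_
      · exact (((i2 G hH1 a).sub (i2 G hH1 (-a))).const_mul _).sub ((i2 H hH a).sub (i2 H hH (-a)))
      · simp only []
        rcases lt_or_ge p 0 with hp | hp
        · have h1 : cor h p = 0 := cor_neg hs hp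
          have h2 : cor H p = 0 := cor_neg (fun u hu => by simp [hHdef, hs u hu]) hp
          have h3 : cor G p = 0 := cor_neg (fun u hu => by
            have := H1_nonneg h b u
            have h4 := H1_le h b u
            rw [hs u hu, norm_zero] at h4
            exact le_antisymm h4 this) hp
          rw [h1, h2, h3]
          simp
        · have h1 := hcor p hp
          have h2 : 0 ≤ Real.exp (a * p) - Real.exp (-a * p) := by
            have : Real.exp (-a * p) ≤ Real.exp (a * p) := Real.exp_le_exp.mpr (by nlinarith)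
            linarith
          nlinarith [mul_le_mul_of_nonneg_left h1 h2]
    · exact ((i2 G hH1 a).sub (i2 G hH1 (-a))).const_mul _
    · exact (i2 H hH a).sub (i2 H hH (-a))
  -- the masses
  have hHi : Integrable H := by simpa using hH 0
  have hGi : Integrable G := by simpa using hH1 0
  set A : ℝ := ∫ u, G u with hAdef
  have hA0 : 0 ≤ A := integral_nonneg fun u => H1_nonneg h b u
  have hR : ∀ a : ℝ, Integrable fun u => (H u - G u) * Real.exp (a * u) := fun a => by
    have := (hH a).sub (hH1 a)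
    refine this.congr (Filter.Eventually.of_forall fun u => ?_)
    simp only [Pi.sub_apply]
    ring
  have hsplit : ∀ a : ℝ, KK H a = KK G a + ∫ u, (H u - G u) * Real.exp (a * u) := fun a => by
    unfold KK
    rw [← integral_add]
    · refine integral_congr_ae (Filter.Eventually.of_forall fun u => ?_)
      simp only [RCLike.ofReal_real_eq_id, id]
      ring
    · simpa using hH1 a
    · exact hR a
  have hKG : ∀ a : ℝ, KK G a = ∫ u, G u * Real.exp (a * u) := fun a => by
    unfold KK
    simp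
  set P : ℝ := ∫ u, (H u - G u) * Real.exp (a * u) with hP
  set M : ℝ := ∫ u, (H u - G u) * Real.exp (-a * u) with hM
  set k : ℝ := KK G a with hk
  set l : ℝ := KK G (-a) with hl
  have hHG : ∀ u, 0 ≤ H u - G u := fun u => by have := H1_le h b u; simp only [hHdef, hG]; linarith
  have hHG0 : ∀ u, b ≤ u ∨ u < 0 → H u - G u = 0 := fun u hu => by
    simp only [hHdef, hG]
    rcases hu with hu | hu
    · unfold H1; rw [if_pos hu, sub_self]
    · have h4 := H1_le h b u
      have h5 := H1_nonneg h b u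
      rw [hs u hu, norm_zero] at h4 ⊢
      linarith
  -- upper bounds for the small part
  have u1 : P - M ≤ (Real.exp (a * b) - Real.exp (-a * b)) * (A / 16) := by
    rw [hP, hM, ← integral_sub (hR a) (hR (-a))]
    refine le_trans ?_ (mul_le_mul_of_nonneg_left hA ?_)
    · rw [← integral_const_mul]
      refine integral_mono ((hR a).sub (hR (-a))) ((hHi.sub hGi).const_mul _) fun u => ?_
      simp only []
      by_cases hu : b ≤ u ∨ u < 0
      · have := hHG0 u hu
        simp only [hHdef, hG] at this ⊢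
        rw [this]; simp
      · push Not at hu
        have h1 := hHG u
        have h2 : Real.exp (a * u) ≤ Real.exp (a * b) := Real.exp_le_exp.mpr (by nlinarith)
        have h3 : Real.exp (-a * b) ≤ Real.exp (-a * u) := Real.exp_le_exp.mpr (by nlinarith)
        simp only [hHdef, hG] at h1 ⊢
        nlinarith
    · have : Real.exp (-a * b) ≤ Real.exp (a * b) := Real.exp_le_exp.mpr (by nlinarith)
      linarith
  have cosh_mono : ∀ x y : ℝ, 0 ≤ x → x ≤ y → Real.exp x + Real.exp (-x) ≤ Real.exp y + Real.exp (-y) := by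
    intro x y hx hxy
    have h1 : Real.cosh x ≤ Real.cosh y := by
      rw [Real.cosh_le_cosh, abs_of_nonneg hx, abs_of_nonneg (hx.trans hxy)]; exact hxy
    rw [Real.cosh_eq, Real.cosh_eq] at h1
    linarith
  have u2 : P + M ≤ (Real.exp (a * b) + Real.exp (-a * b)) * (A / 16) := by
    rw [hP, hM, ← integral_add (hR a) (hR (-a))]
    refine le_trans ?_ (mul_le_mul_of_nonneg_left hA (by positivity))
    · rw [← integral_const_mul]
      refine integral_mono ((hR a).add (hR (-a))) ((hHi.sub hGi).const_mul _) fun u => ?_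
      simp only []
      by_cases hu : b ≤ u ∨ u < 0
      · have := hHG0 u hu
        simp only [hHdef, hG] at this ⊢
        rw [this]; simp
      · push Not at hu
        have h1 := hHG u
        have h2 := cosh_mono (a * u) (a * b) (by nlinarith) (by nlinarith)
        rw [neg_mul, neg_mul]
        simp only [hHdef, hG] at h1 ⊢
        nlinarith
  -- lower bounds for the main part
  have l1 : (Real.exp (a * b) - Real.exp (-a * b)) * A ≤ k - l := by
    rw [hk, hl, hKG, hKG, ← integral_sub (hH1 a) (hH1 (-a)), hAdef, ← integral_const_mul]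
    refine integral_mono (hGi.const_mul _) ((hH1 a).sub (hH1 (-a))) fun u => ?_
    simp only []
    by_cases hu : b ≤ u
    · have h1 := H1_nonneg h b u
      have h2 : Real.exp (a * b) ≤ Real.exp (a * u) := Real.exp_le_exp.mpr (by nlinarith)
      have h3 : Real.exp (-a * u) ≤ Real.exp (-a * b) := Real.exp_le_exp.mpr (by nlinarith)
      simp only [hG]
      nlinarith
    · have : G u = 0 := by simp only [hG]; unfold H1; rw [if_neg hu]
      rw [this]; simp
  have l2 : (Real.exp (a * b) + Real.exp (-a * b)) * A ≤ k + l := by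
    rw [hk, hl, hKG, hKG, ← integral_add (hH1 a) (hH1 (-a)), hAdef, ← integral_const_mul]
    refine integral_mono (hGi.const_mul _) ((hH1 a).add (hH1 (-a))) fun u => ?_
    simp only []
    by_cases hu : b ≤ u
    · have h1 := H1_nonneg h b u
      have h2 := cosh_mono (a * b) (a * u) (by nlinarith) (by nlinarith)
      rw [neg_mul, neg_mul]
      simp only [hG]
      nlinarith
    · have : G u = 0 := by simp only [hG]; unfold H1; rw [if_neg hu]
      rw [this]; simp
  have hab : 0 ≤ a * b := mul_nonneg ha hb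
  have s1 : 2 * (a * b) ≤ Real.exp (a * b) - Real.exp (-a * b) := by
    have := Real.self_le_sinh_iff.mpr hab
    rw [Real.sinh_eq] at this
    rw [neg_mul]
    linarith
  have s2 : 2 ≤ Real.exp (a * b) + Real.exp (-a * b) := by
    have := Real.one_le_cosh (a * b)
    rw [Real.cosh_eq] at this
    rw [neg_mul]
    linarith
  rw [hsplit a, hsplit (-a)] at c1
  set sb : ℝ := Real.exp (a * b) - Real.exp (-a * b) with hsb
  set cb : ℝ := Real.exp (a * b) + Real.exp (-a * b) with hcb
  have hsb0 : 0 ≤ sb := by linarith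
  have hcb0 : 0 ≤ cb := by linarith
  have hS : 0 ≤ k - l := le_trans (mul_nonneg hsb0 hA0) l1
  have hC : 0 ≤ k + l := le_trans (mul_nonneg hcb0 hA0) l2
  have v1 : P - M ≤ (k - l) / 16 := by nlinarith
  have v2 : P + M ≤ (k + l) / 16 := by nlinarith
  have hP0 : 0 ≤ P := integral_nonneg fun u => mul_nonneg (hHG u) (Real.exp_pos _).le
  have hM0 : 0 ≤ M := integral_nonneg fun u => mul_nonneg (hHG u) (Real.exp_pos _).le
  have v3 : (k + P) ^ 2 - (l + M) ^ 2 = ((k - l) + (P - M)) * ((k + l) + (P + M)) := by ring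
  have v4 : ((k - l) + (P - M)) * ((k + l) + (P + M)) ≤ (17 / 16 * (k - l)) * (17 / 16 * (k + l)) := by
    refine mul_le_mul (by linarith) (by linarith) (by linarith) (by linarith)
  have v5 : sb * A * (cb * A) ≤ (k - l) * (k + l) :=
    mul_le_mul l1 l2 (mul_nonneg hcb0 hA0) hS
  have v6 : 2 * (a * b) * 2 ≤ sb * cb := mul_le_mul s1 s2 (by norm_num) hsb0
  have v7 : 2 * (a * b) * 2 * A ^ 2 ≤ sb * A * (cb * A) := by
    have := mul_le_mul_of_nonneg_right v6 (sq_nonneg A)
    linarith
  nlinarith [mul_nonneg hS hC, mul_nonneg hab (sq_nonneg A)]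

end Pool.Agent.H487.NB
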