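import Pool.Agent.H487.NB.Zero
import Pool.Graph.R_seed8.H353R7.G5

/-!
# The core theorem: small time, large conductor
-/

set_option autoImplicit false

open MeasureTheory Set Filter Topology
open scoped ComplexConjugate

namespace Pool.Agent.H487.NB

open H353.E H353.F

/-- `Λ` is comparable with `γ` on `Re s ≥ σ` -/
structure Near (C B σ : ℝ) (Sg : ℝ → ℝ) (Λ γ D : ℂ → ℂ) : Prop where
  gp : GP C Sg γ D
  hB : 1 ≤ B
  hσ : 1 ≤ σ
  diff : Differentiable ℂ Λ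
  hi : ∀ s : ℂ, σ ≤ s.re → ‖Λ s‖ ≤ B * ‖γ s‖
  lo : ∀ s : ℂ, σ ≤ s.re → ‖γ s‖ ≤ B * ‖Λ s‖

variable {C B σ : ℝ} {Sg : ℝ → ℝ} {Λ γ D : ℂ → ℂ}

lemma Near.quot_ne (S : Near C B σ Sg Λ γ D) {z : ℂ} (hz : σ ≤ z.re) : γ z ≠ 0 ∧ Λ z ≠ 0 ∧
    ‖Λ z / γ z‖ ≤ B ∧ 1 / B ≤ ‖Λ z / γ z‖ := by
  have hγ := S.gp.ne z (S.hσ.trans hz)
  have hB := S.hB
  have h1 := S.hi z hz
  have h2 := S.lo z hz
  have hγ0 : 0 < ‖γ z‖ := norm_pos_iff.mpr hγ
  have hΛ : Λ z ≠ 0 := by
    intro h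
    rw [h, norm_zero, mul_zero] at h2
    linarith
  refine ⟨hγ, hΛ, ?_, ?_⟩
  · rw [norm_div, div_le_iff₀ hγ0]
    exact h1
  · rw [norm_div, div_le_div_iff₀ (by linarith) hγ0]
    linarith

lemma Near.quot_diff (S : Near C B σ Sg Λ γ D) {z : ℂ} (hz : σ ≤ z.re) :
    DifferentiableAt ℂ (fun z => Λ z / γ z) z :=
  (S.diff z).div (S.gp.der z (S.hσ.trans hz)).differentiableAt (S.quot_ne hz).1

lemma Near.Qf_bound (S : Near C B σ Sg Λ γ D) {η : ℝ} (hη : 0 < η) {z : ℂ}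
    (hz : σ + η / 2 ≤ z.re) : ‖Qf Λ γ z‖ ≤ 2 * B ^ 2 / η := by
  have hB := S.hB
  have hq := S.quot_ne (z := z) (by linarith)
  have hsph : ∀ w ∈ Metric.closedBall z (η / 2), σ ≤ w.re := fun w hw => by
    rw [Metric.mem_closedBall, dist_eq_norm] at hw
    have := (abs_le.mp ((Complex.abs_re_le_norm _).trans hw)).1
    rw [Complex.sub_re] at this
    linarith
  have h1 := Complex.norm_deriv_le_of_forall_mem_sphere_norm_le (c := z) (R := η / 2) (C := B)
    (f := fun z => Λ z / γ z) (by positivity)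
    ⟨fun w hw => (S.quot_diff (hsph w (Metric.ball_subset_closedBall hw))).differentiableWithinAt,
      fun w hw => (S.quot_diff (hsph w (Metric.closure_ball_subset_closedBall hw))).continuousAt.continuousWithinAt⟩
    (fun w hw => (S.quot_ne (hsph w (Metric.sphere_subset_closedBall hw))).2.2.1)
  unfold Qf
  have hpos : 0 < ‖Λ z / γ z‖ := lt_of_lt_of_le (by positivity) hq.2.2.2
  rw [norm_div, div_le_iff₀ hpos]
  refine h1.trans ?_
  calc B / (η / 2) = 2 * B ^ 2 / η * (1 / B) := by field_simp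
    _ ≤ 2 * B ^ 2 / η * ‖Λ z / γ z‖ := by
        have := hq.2.2.2
        gcongr

lemma Near.Qf_diff (S : Near C B σ Sg Λ γ D) {z : ℂ} (hz : σ < z.re) : DifferentiableAt ℂ (Qf Λ γ) z := by
  have hopen : IsOpen {z : ℂ | σ < z.re} := isOpen_lt continuous_const Complex.continuous_re
  have hd : DifferentiableOn ℂ (fun z => Λ z / γ z) {z : ℂ | σ < z.re} := fun w hw =>
    (S.quot_diff (le_of_lt hw)).differentiableWithinAt
  have h1 := (hd.deriv hopen).differentiableAt (hopen.mem_nhds hz)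
  have h2 := S.quot_diff hz.le
  have hq := S.quot_ne hz.le
  unfold Qf
  exact h1.div h2 (div_ne_zero hq.2.1 hq.1)

lemma Near.Qf_deriv (S : Near C B σ Sg Λ γ D) {η : ℝ} (hη : 0 < η) {z : ℂ}
    (hz : σ + η ≤ z.re) : ‖deriv (Qf Λ γ) z‖ ≤ 4 * B ^ 2 / η ^ 2 := by
  have hsph : ∀ w ∈ Metric.closedBall z (η / 2), σ + η / 2 ≤ w.re := fun w hw => by
    rw [Metric.mem_closedBall, dist_eq_norm] at hw
    have := (abs_le.mp ((Complex.abs_re_le_norm _).trans hw)).1
    rw [Complex.sub_re] at this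
    linarith
  have h1 := Complex.norm_deriv_le_of_forall_mem_sphere_norm_le (c := z) (R := η / 2)
    (C := 2 * B ^ 2 / η) (f := Qf Λ γ) (by positivity)
    ⟨fun w hw => (S.Qf_diff (by linarith [hsph w (Metric.ball_subset_closedBall hw)])).differentiableWithinAt,
      fun w hw => (S.Qf_diff (by linarith [hsph w (Metric.closure_ball_subset_closedBall hw)])).continuousAt.continuousWithinAt⟩
    (fun w hw => S.Qf_bound hη (hsph w (Metric.sphere_subset_closedBall hw)))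
  refine h1.trans (le_of_eq ?_)
  field_simp
  ring

lemma Near.lam_der (S : Near C B σ Sg Λ γ D) {z : ℂ} (hz : σ ≤ z.re) :
    HasDerivAt Λ (Λ z * (D z + Qf Λ γ z)) z := by
  have hq := S.quot_ne hz
  have hγ := S.gp.der z (S.hσ.trans hz)
  have h := (S.diff z).hasDerivAt
  have hd : deriv (fun z => Λ z / γ z) z = (deriv Λ z * γ z - Λ z * (γ z * D z)) / γ z ^ 2 :=
    (h.div hγ hq.1).deriv
  have e : deriv Λ z = Λ z * (D z + Qf Λ γ z) := by
    unfold Qf
    rw [hd]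
    have h1 := hq.1
    have h2 := hq.2.1
    field_simp
    ring
  rw [← e]
  exact h

lemma re_line (y u : ℝ) : (1 / 2 + (y : ℂ) * Complex.I + (u : ℂ)).re = 1 / 2 + u := by simp

lemma im_line (y u : ℝ) : (1 / 2 + (y : ℂ) * Complex.I + (u : ℂ)).im = y := by simp

/-- the structure `Slow` on `[b, ∞)`, `b = σ - 1/2 + η` -/
theorem Near.slow (S : Near C B σ Sg Λ γ D) {η : ℝ} (hη : 0 < η) (y : ℝ) :
    Slow (C + 2 * B ^ 2 / η) (C + 4 * B ^ 2 / η ^ 2) (σ - 1 / 2 + η)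
      (fun u => Λ (1 / 2 + y * Complex.I + u))
      (fun u => D (1 / 2 + y * Complex.I + u) + Qf Λ γ (1 / 2 + y * Complex.I + u)) := by
  have hre : ∀ u : ℝ, σ - 1 / 2 + η ≤ u → σ + η ≤ (1 / 2 + (y : ℂ) * Complex.I + (u : ℂ)).re := fun u hu => by
    rw [re_line]; linarith
  have hσ := S.hσ
  have hlin : ∀ u : ℝ, HasDerivAt (fun u : ℝ => 1 / 2 + (y : ℂ) * Complex.I + (u : ℂ)) 1 u := fun u => by
    have := (Complex.ofRealCLM.hasDerivAt (x := u)).const_add (1 / 2 + (y : ℂ) * Complex.I)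
    simpa using this
  constructor
  · exact S.diff.continuous.comp (by fun_prop)
  · intro u hu
    have h1 := S.lam_der (z := 1 / 2 + (y : ℂ) * Complex.I + (u : ℂ)) (by linarith [hre u hu])
    have h2 := h1.scomp u (hlin u)
    rw [one_smul] at h2
    exact h2
  · intro u hu
    have h0 := hre u hu
    refine ContinuousAt.continuousWithinAt ?_
    refine ContinuousAt.add ?_ ?_
    · exact ContinuousAt.comp (g := D) (f := fun u : ℝ => 1 / 2 + (y : ℂ) * Complex.I + (u : ℂ))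
        (S.gp.contD (by linarith)) (hlin u).continuousAt
    · exact ContinuousAt.comp (g := Qf Λ γ) (f := fun u : ℝ => 1 / 2 + (y : ℂ) * Complex.I + (u : ℂ))
        (S.Qf_diff (by linarith)).continuousAt (hlin u).continuousAt
  · intro u hu
    have h0 := hre u hu
    rw [Complex.add_im]
    refine (abs_add_le _ _).trans (add_le_add (S.gp.im _ (by linarith)) ?_)
    exact (Complex.abs_im_le_norm _).trans (S.Qf_bound hη (by linarith))
  · intro u v hu hv
    have h0 := hre u hu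
    have h1 := hre v hv
    have e : (1 / 2 + (y : ℂ) * Complex.I + (u : ℂ)) - (1 / 2 + (y : ℂ) * Complex.I + (v : ℂ)) = ((u - v : ℝ) : ℂ) := by
      push_cast; ring
    have h2 := S.gp.lipD (ρ := 1) le_rfl (s := 1 / 2 + (y : ℂ) * Complex.I + (u : ℂ))
      (t := 1 / 2 + (y : ℂ) * Complex.I + (v : ℂ)) (by linarith) (by linarith)
    rw [e, Complex.norm_real, Real.norm_eq_abs, div_one] at h2
    have hconv : Convex ℝ {z : ℂ | σ + η ≤ z.re} := convex_halfSpace_re_ge (σ + η)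
    have h3 := hconv.norm_image_sub_le_of_norm_deriv_le (f := Qf Λ γ) (C := 4 * B ^ 2 / η ^ 2)
      (fun z hz => S.Qf_diff (lt_of_lt_of_le (by linarith) hz)) (fun z hz => S.Qf_deriv hη hz)
      (x := 1 / 2 + (y : ℂ) * Complex.I + (v : ℂ)) (y := 1 / 2 + (y : ℂ) * Complex.I + (u : ℂ)) h1 h0
    rw [e, Complex.norm_real, Real.norm_eq_abs] at h3
    have e2 : D (1 / 2 + (y : ℂ) * Complex.I + (u : ℂ)) + Qf Λ γ (1 / 2 + (y : ℂ) * Complex.I + (u : ℂ)) -
      (D (1 / 2 + (y : ℂ) * Complex.I + (v : ℂ)) + Qf Λ γ (1 / 2 + (y : ℂ) * Complex.I + (v : ℂ))) =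
      (D (1 / 2 + (y : ℂ) * Complex.I + (u : ℂ)) - D (1 / 2 + (y : ℂ) * Complex.I + (v : ℂ))) +
      (Qf Λ γ (1 / 2 + (y : ℂ) * Complex.I + (u : ℂ)) - Qf Λ γ (1 / 2 + (y : ℂ) * Complex.I + (v : ℂ))) := by ring
    rw [e2]
    refine (norm_add_le _ _).trans ?_
    rw [add_mul]
    exact add_le_add h2 h3

/-- criterion with explicit bounds of the masses -/
theorem zero_of_bounds (S : Near C B σ Sg Λ γ D) (hC : 1 ≤ C) (hs : SlowGrowth Λ) {ε : ℂ} (hε : ‖ε‖ = 1)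
    (hfe : ∀ s, Λ s = ε * conj (Λ (1 - conj s))) {t η u1 δ M m₀ : ℝ} (ht : 0 < t) (hη : 0 < η) (y : ℝ)
    (h1 : 256 * (C + 2 * B ^ 2 / η) ^ 2 * t ≤ 1) (h2 : 8 * (C + 4 * B ^ 2 / η ^ 2) * t ≤ 1)
    (hδ : 0 < δ) (hu1 : σ - 1 / 2 + η ≤ u1) (hm0 : 0 < m₀)
    (hM : ∀ u ∈ Icc 0 (σ - 1 / 2 + η), ‖Λ (1 / 2 + y * Complex.I + u)‖ * Real.exp (-(u ^ 2 / (4 * t))) ≤ M)
    (hm : ∀ u ∈ Icc u1 (u1 + δ), m₀ ≤ ‖Λ (1 / 2 + y * Complex.I + u)‖ * Real.exp (-(u ^ 2 / (4 * t))))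
    (hbig : 16 * (σ - 1 / 2 + η) * M ≤ δ * m₀) (X : ℝ)
    (hX : heat t Λ (1 / 2 + y * Complex.I + X) = 0) :
    X = 0 ∧ deriv (heat t Λ) (1 / 2 + y * Complex.I) ≠ 0 := by
  set b : ℝ := σ - 1 / 2 + η with hb
  have hσ := S.hσ
  have hB := S.hB
  have hb0 : 0 < b := by linarith
  set f : ℝ → ℂ := fun u => Λ (1 / 2 + y * Complex.I + u) with hf
  have hint : ∀ a : ℝ, Integrable fun u => hh t f u * ((Real.exp (a * u) : ℝ) : ℂ) := fun a =>
    hh_integrable S.diff.continuous hs ht _ a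
  have hHi : Integrable fun u => ‖hh t f u‖ := by simpa using H_int hint 0
  have hGi : Integrable (H1 (hh t f) b) := by
    have := H1_int (b := b) (w := fun _ => 1) (by simpa using hHi)
    simpa using this
  have hM0 : 0 ≤ M := le_trans (by positivity) (hM 0 ⟨le_rfl, hb0.le⟩)
  -- lower bound of the main mass
  have low : δ * m₀ ≤ ∫ u, H1 (hh t f) b u := by
    have h3 : ∫ u, (Icc u1 (u1 + δ)).indicator (fun _ => m₀) u = δ * m₀ := by
      rw [integral_indicator measurableSet_Icc, setIntegral_const, smul_eq_mul]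
      congr 1
      rw [measureReal_def, Real.volume_Icc, ENNReal.toReal_ofReal (by linarith)]
      ring
    rw [← h3]
    refine integral_mono ?_ hGi fun u => ?_
    · exact (continuous_const.integrableOn_Icc).integrable_indicator measurableSet_Icc
    · by_cases hu : u ∈ Icc u1 (u1 + δ)
      · rw [indicator_of_mem hu]
        unfold H1
        rw [if_pos (hu1.trans hu.1), hh_pos (by linarith [hu.1]), norm_mul, Complex.norm_real,
          Real.norm_of_nonneg (Real.exp_pos _).le]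
        exact hm u hu
      · rw [indicator_of_notMem hu]
        exact H1_nonneg _ _ _
  have up : ∫ u, (‖hh t f u‖ - H1 (hh t f) b u) ≤ b * M := by
    have h3 : ∫ u, (Icc 0 b).indicator (fun _ => M) u = b * M := by
      rw [integral_indicator measurableSet_Icc, setIntegral_const, smul_eq_mul]
      congr 1
      rw [measureReal_def, Real.volume_Icc, ENNReal.toReal_ofReal (by linarith)]
      ring
    rw [← h3]
    refine integral_mono (hHi.sub hGi) ?_ fun u => ?_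
    · exact (continuous_const.integrableOn_Icc).integrable_indicator measurableSet_Icc
    · simp only []
      by_cases hu : u ∈ Icc 0 b
      · rw [indicator_of_mem hu]
        have h4 := H1_nonneg (hh t f) b u
        have h5 := hM u hu
        rw [hh_pos hu.1, norm_mul, Complex.norm_real, Real.norm_of_nonneg (Real.exp_pos _).le]
        linarith
      · rw [indicator_of_notMem hu]
        rcases lt_or_ge u 0 with hu0 | hu0
        · rw [hh_neg hu0, norm_zero]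
          have := H1_nonneg (hh t f) b u
          linarith
        · have hbu : b ≤ u := by
            by_contra hcon
            exact hu ⟨hu0, by linarith⟩
          unfold H1
          rw [if_pos hbu, sub_self]
  refine heat_zero S.diff hs hε hfe ht (S.slow hη y) hb0 (by positivity) (by positivity) h1 h2 ?_ ?_ X hX
  · linarith
  · have : 0 < δ * m₀ := by positivity
    linarith

/-- moving to the left on a horizontal line where `Re D` is close to `ℓ` -/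
lemma left_le (gp : GP C Sg γ D) {y ℓ K u v τ : ℝ} (hu : 1 / 2 ≤ u) (huv : u ≤ v) (hv : v ≤ τ)
    (hD : ∀ x ∈ Icc (1 / 2) τ, |(D (1 / 2 + y * Complex.I + x)).re - ℓ| ≤ K) :
    ‖γ (1 / 2 + y * Complex.I + u)‖ ≤ ‖γ (1 / 2 + y * Complex.I + v)‖ * Real.exp (-((v - u) * (ℓ - K))) := by
  have e : (1 / 2 + (y : ℂ) * Complex.I + u) = (1 / 2 + (y : ℂ) * Complex.I + v) + (-((v - u : ℝ) : ℂ)) := by
    push_cast; ring
  have hpt : ∀ r : ℝ, (1 / 2 + (y : ℂ) * Complex.I + v) + r * (-((v - u : ℝ) : ℂ)) =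
      1 / 2 + (y : ℂ) * Complex.I + ((v - r * (v - u) : ℝ) : ℂ) := fun r => by push_cast; ring
  rw [e]
  refine seg_le gp (fun r hr => ?_) fun r hr => ?_
  · rw [hpt, re_line]
    nlinarith [hr.1, hr.2]
  · rw [hpt]
    have h1 := (abs_le.mp (hD (v - r * (v - u)) ⟨by nlinarith [hr.1, hr.2], by nlinarith [hr.1, hr.2]⟩)).1
    rw [← Complex.ofReal_neg, Complex.re_mul_ofReal]
    nlinarith

theorem core {C B σ₀ σ e η δ τ K : ℝ} (hC : 1 ≤ C) (hB : 1 ≤ B) (hσ₀ : 1 ≤ σ₀) (hσ : σ₀ ≤ σ) (he : 0 ≤ e)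
    (hη : 0 < η) (hδ : 0 < δ) (hK : 0 ≤ K) (k1 : δ + (σ₀ - 1 / 2) + e < τ / 2)
    (k2 : δ + e < (τ - (σ - 1 / 2 + η)) ^ 2 / (2 * τ)) (k3 : σ - 1 / 2 + η ≤ τ) :
    ∃ t₁ : ℝ, 0 < t₁ ∧ ∀ (Sg : ℝ → ℝ) (Λ γ D : ℂ → ℂ), Near C B σ Sg Λ γ D → SlowGrowth Λ →
      (∃ ε : ℂ, ‖ε‖ = 1 ∧ ∀ s, Λ s = ε * conj (Λ (1 - conj s))) →
      (∀ s : ℂ, σ₀ ≤ s.re → ‖Λ s‖ ≤ B * ‖γ (s + e)‖) →
      (∀ s : ℂ, 1 / 2 ≤ s.re → s.re ≤ σ₀ → ‖Λ s‖ ≤ B * ‖γ (σ₀ + e + s.im * Complex.I)‖) →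
      ∀ t y ℓ : ℝ, 0 < t → t ≤ t₁ → τ ≤ 2 * t * ℓ →
      (∀ u ∈ Icc (1 / 2) τ, |(D (1 / 2 + y * Complex.I + u)).re - ℓ| ≤ K) →
      ∀ X : ℝ, heat t Λ (1 / 2 + y * Complex.I + X) = 0 →
        X = 0 ∧ deriv (heat t Λ) (1 / 2 + y * Complex.I) ≠ 0 := by
  set b : ℝ := σ - 1 / 2 + η with hb
  set u0 : ℝ := σ₀ - 1 / 2 with hu0
  have hb0 : 0 < b := by linarith
  have hτ : 0 < τ := by linarith
  set κ : ℝ := min (τ / 2 - (δ + u0 + e)) ((τ - b) ^ 2 / (2 * τ) - (δ + e)) with hκ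
  have hκ0 : 0 < κ := lt_min (by linarith) (by linarith)
  have hκ1 : κ ≤ τ / 2 - (δ + u0 + e) := min_le_left _ _
  have hκ2 : κ ≤ (τ - b) ^ 2 / (2 * τ) - (δ + e) := min_le_right _ _
  have hbe : b + e ≤ τ - δ := by
    have h1 : (τ - b) ^ 2 / (2 * τ) ≤ (τ - b) / 2 := by
      rw [div_le_div_iff₀ (by positivity) (by norm_num)]
      have h2 : 0 ≤ τ - b := by linarith
      nlinarith
    linarith
  set Q : ℝ := Real.log (16 * b * B ^ 2 * Real.exp (C * δ) / δ) with hQ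
  have hargpos : 0 < 16 * b * B ^ 2 * Real.exp (C * δ) / δ := by positivity
  set P : ℝ := C + 2 * B ^ 2 / η with hP
  set P' : ℝ := C + 4 * B ^ 2 / η ^ 2 with hP'
  have hP0 : 0 < P := by positivity
  have hP'0 : 0 < P' := by positivity
  refine ⟨min (min (1 / (256 * P ^ 2)) (1 / (8 * P'))) (κ * τ / (2 * (|Q| + K * τ + 1))), ?_, ?_⟩
  · have : 0 ≤ |Q| + K * τ := by positivity
    positivity
  intro Sg Λ γ D S hs ⟨ε, hε, hfe⟩ hM hF t y ℓ ht ht1 htℓ hD X hX
  have t1 : t ≤ 1 / (256 * P ^ 2) := ht1.trans ((min_le_left _ _).trans (min_le_left _ _))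
  have t2 : t ≤ 1 / (8 * P') := ht1.trans ((min_le_left _ _).trans (min_le_right _ _))
  have t3 : t ≤ κ * τ / (2 * (|Q| + K * τ + 1)) := ht1.trans (min_le_right _ _)
  rw [le_div_iff₀ (by positivity)] at t1 t2 t3
  have hℓ0 : 0 < ℓ := by
    by_contra hcon
    push Not at hcon
    nlinarith
  have hκℓ : |Q| + K * τ + 1 ≤ κ * ℓ := by
    have h1 : 0 ≤ |Q| + K * τ := by positivity
    have h2 : t * (2 * (|Q| + K * τ + 1)) ≤ κ * (2 * t * ℓ) := t3.trans (mul_le_mul_of_nonneg_left htℓ hκ0.le)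
    have h3 : (2 * t) * (|Q| + K * τ + 1) ≤ (2 * t) * (κ * ℓ) := by linarith
    exact le_of_mul_le_mul_left h3 (by positivity)
  have ha0 : 1 / (4 * t) ≤ ℓ / (2 * τ) := by
    rw [div_le_div_iff₀ (by positivity) (by positivity)]
    nlinarith
  -- reference value
  set R : ℝ := ‖γ (1 / 2 + y * Complex.I + ((τ - δ : ℝ) : ℂ))‖ with hR
  have hgp := S.gp
  have hR0 : 0 < R := norm_pos_iff.mpr (hgp.ne _ (by rw [re_line]; linarith))
  set m₀ : ℝ := 1 / B * (R * Real.exp (-(C * δ))) * Real.exp (-(τ ^ 2 / (4 * t))) with hm₀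
  have hm₀0 : 0 < m₀ := by positivity
  have hlow : ∀ u ∈ Icc (τ - δ) (τ - δ + δ), m₀ ≤ ‖Λ (1 / 2 + y * Complex.I + u)‖ * Real.exp (-(u ^ 2 / (4 * t))) := by
    intro u hu
    have hu2 : u ≤ τ := by linarith [hu.2]
    have h1 := S.lo (1 / 2 + y * Complex.I + u) (by rw [re_line]; linarith [hu.1])
    have h2 := right_ge hgp (s := 1 / 2 + y * Complex.I + ((τ - δ : ℝ) : ℂ)) (by rw [re_line]; linarith)
      (a := u - (τ - δ)) (by linarith [hu.1])
    have e1 : (1 / 2 + (y : ℂ) * Complex.I + ((τ - δ : ℝ) : ℂ)) + ((u - (τ - δ) : ℝ) : ℂ) = 1 / 2 + y * Complex.I + u := by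
      push_cast; ring
    rw [e1] at h2
    have h3 : Real.exp (C * (u - (τ - δ))) ≤ Real.exp (C * δ) := by
      apply Real.exp_le_exp.mpr
      nlinarith [hu.2]
    have h4 : R * Real.exp (-(C * δ)) ≤ ‖γ (1 / 2 + y * Complex.I + u)‖ := by
      rw [Real.exp_neg, ← div_eq_mul_inv, div_le_iff₀ (Real.exp_pos _)]
      calc R ≤ Real.exp (C * (u - (τ - δ))) * ‖γ (1 / 2 + y * Complex.I + u)‖ := h2
        _ ≤ Real.exp (C * δ) * ‖γ (1 / 2 + y * Complex.I + u)‖ := by gcongr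
        _ = _ := by ring
    have h5 : 1 / B * (R * Real.exp (-(C * δ))) ≤ ‖Λ (1 / 2 + y * Complex.I + u)‖ := by
      rw [one_div, inv_mul_le_iff₀ (by linarith)]
      exact h4.trans h1
    have h6 : Real.exp (-(τ ^ 2 / (4 * t))) ≤ Real.exp (-(u ^ 2 / (4 * t))) := by
      apply Real.exp_le_exp.mpr
      have : u ^ 2 / (4 * t) ≤ τ ^ 2 / (4 * t) := by
        rw [div_le_div_iff_of_pos_right (by positivity)]
        nlinarith [hu.1]
      linarith
    exact mul_le_mul h5 h6 (Real.exp_pos _).le (norm_nonneg _)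
  -- upper bound
  set M : ℝ := B * R * Real.exp (-(τ ^ 2 / (4 * t))) * Real.exp (-(κ * ℓ - K * τ)) with hMdef
  have hup : ∀ u ∈ Icc 0 b, ‖Λ (1 / 2 + y * Complex.I + u)‖ * Real.exp (-(u ^ 2 / (4 * t))) ≤ M := by
    intro u hu
    have hKτ : ∀ x : ℝ, 0 ≤ x → x ≤ τ → x * K ≤ K * τ := fun x _ hx => by nlinarith
    rcases le_total u u0 with hcase | hcase
    · have h1 := hF (1 / 2 + y * Complex.I + u) (by rw [re_line]; linarith [hu.1]) (by rw [re_line]; linarith)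
      rw [im_line] at h1
      have e1 : ((σ₀ : ℂ) + e + y * Complex.I) = 1 / 2 + y * Complex.I + ((u0 + e : ℝ) : ℂ) := by
        rw [hu0]; push_cast; ring
      rw [e1] at h1
      have h2 := left_le hgp (y := y) (ℓ := ℓ) (K := K) (u := u0 + e) (v := τ - δ) (τ := τ) (by linarith)
        (by linarith) (by linarith) hD
      have h3 : Real.exp (-(u ^ 2 / (4 * t))) ≤ 1 := by
        rw [Real.exp_le_one_iff]
        have : 0 ≤ u ^ 2 / (4 * t) := by positivity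
        linarith
      have h4 : -((τ - δ - (u0 + e)) * (ℓ - K)) ≤ -(τ ^ 2 / (4 * t)) + -(κ * ℓ - K * τ) := by
        have h5 : τ ^ 2 / (4 * t) ≤ τ / 2 * ℓ := by
          have e3 : τ ^ 2 / (4 * t) = τ ^ 2 * (1 / (4 * t)) := by ring
          rw [e3]
          calc τ ^ 2 * (1 / (4 * t)) ≤ τ ^ 2 * (ℓ / (2 * τ)) := mul_le_mul_of_nonneg_left ha0 (sq_nonneg _)
            _ = τ / 2 * ℓ := by field_simp
        have h6 := hKτ (τ - δ - (u0 + e)) (by linarith) (by linarith)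
        nlinarith
      calc ‖Λ (1 / 2 + y * Complex.I + u)‖ * Real.exp (-(u ^ 2 / (4 * t)))
          ≤ (B * (R * Real.exp (-((τ - δ - (u0 + e)) * (ℓ - K))))) * 1 := by
            refine mul_le_mul (h1.trans ?_) h3 (Real.exp_pos _).le (by positivity)
            exact mul_le_mul_of_nonneg_left h2 (by linarith)
        _ ≤ (B * (R * Real.exp (-(τ ^ 2 / (4 * t)) + -(κ * ℓ - K * τ)))) * 1 := by gcongr
        _ = M := by rw [hMdef, Real.exp_add]; ring
    · have h1 := hM (1 / 2 + y * Complex.I + u) (by rw [re_line]; linarith)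
      have e1 : (1 / 2 + (y : ℂ) * Complex.I + u + e) = 1 / 2 + y * Complex.I + ((u + e : ℝ) : ℂ) := by
        push_cast; ring
      rw [e1] at h1
      have h2 := left_le hgp (y := y) (ℓ := ℓ) (K := K) (u := u + e) (v := τ - δ) (τ := τ) (by linarith)
        (by linarith [hu.2]) (by linarith) hD
      have h4 : -((τ - δ - (u + e)) * (ℓ - K)) + -(u ^ 2 / (4 * t)) ≤ -(τ ^ 2 / (4 * t)) + -(κ * ℓ - K * τ) := by
        have h5 : (τ ^ 2 - u ^ 2) / (4 * t) ≤ (τ ^ 2 - u ^ 2) / (2 * τ) * ℓ := by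
          have e3 : (τ ^ 2 - u ^ 2) / (4 * t) = (τ ^ 2 - u ^ 2) * (1 / (4 * t)) := by ring
          have h7 : 0 ≤ τ ^ 2 - u ^ 2 := by nlinarith [hu.1, hu.2]
          rw [e3]
          calc (τ ^ 2 - u ^ 2) * (1 / (4 * t)) ≤ (τ ^ 2 - u ^ 2) * (ℓ / (2 * τ)) := mul_le_mul_of_nonneg_left ha0 h7
            _ = (τ ^ 2 - u ^ 2) / (2 * τ) * ℓ := by ring
        have e4 : (τ ^ 2 - u ^ 2) / (4 * t) = τ ^ 2 / (4 * t) - u ^ 2 / (4 * t) := by ring
        have h6 := hKτ (τ - δ - (u + e)) (by linarith [hu.2]) (by linarith [hu.1])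
        have e5 : (τ ^ 2 - u ^ 2) / (2 * τ) = (τ - u) - (τ - u) ^ 2 / (2 * τ) := by field_simp; ring
        have h8 : (τ - b) ^ 2 / (2 * τ) ≤ (τ - u) ^ 2 / (2 * τ) := by
          rw [div_le_div_iff_of_pos_right (by positivity)]
          nlinarith [hu.2]
        rw [e5] at h5
        rw [e4] at h5
        nlinarith
      calc ‖Λ (1 / 2 + y * Complex.I + u)‖ * Real.exp (-(u ^ 2 / (4 * t)))
          ≤ (B * (R * Real.exp (-((τ - δ - (u + e)) * (ℓ - K))))) * Real.exp (-(u ^ 2 / (4 * t))) := by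
            refine mul_le_mul_of_nonneg_right (h1.trans ?_) (Real.exp_pos _).le
            exact mul_le_mul_of_nonneg_left h2 (by linarith)
        _ = B * (R * Real.exp (-((τ - δ - (u + e)) * (ℓ - K)) + -(u ^ 2 / (4 * t)))) := by
            rw [Real.exp_add]; ring
        _ ≤ B * (R * Real.exp (-(τ ^ 2 / (4 * t)) + -(κ * ℓ - K * τ))) := by gcongr
        _ = M := by rw [hMdef, Real.exp_add]; ring
  have hbig : 16 * b * M ≤ δ * m₀ := by
    have h1 : 16 * b * B ^ 2 * Real.exp (C * δ) / δ ≤ Real.exp (κ * ℓ - K * τ) := by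
      rw [← Real.log_le_iff_le_exp hargpos]
      have := le_abs_self Q
      linarith
    rw [div_le_iff₀ hδ] at h1
    have h2 : 0 < Real.exp (κ * ℓ - K * τ) := Real.exp_pos _
    have h3 : 0 < Real.exp (C * δ) := Real.exp_pos _
    rw [hMdef, hm₀, Real.exp_neg (κ * ℓ - K * τ), Real.exp_neg (C * δ)]
    have e1 : 16 * b * (B * R * Real.exp (-(τ ^ 2 / (4 * t))) * (Real.exp (κ * ℓ - K * τ))⁻¹) =
        (16 * b * B ^ 2 * Real.exp (C * δ)) * (R * Real.exp (-(τ ^ 2 / (4 * t))) /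
          (B * Real.exp (C * δ) * Real.exp (κ * ℓ - K * τ))) := by
      field_simp
    have e2 : δ * (1 / B * (R * (Real.exp (C * δ))⁻¹) * Real.exp (-(τ ^ 2 / (4 * t)))) =
        (Real.exp (κ * ℓ - K * τ) * δ) * (R * Real.exp (-(τ ^ 2 / (4 * t))) /
          (B * Real.exp (C * δ) * Real.exp (κ * ℓ - K * τ))) := by
      field_simp
    rw [e1, e2]
    exact mul_le_mul_of_nonneg_right h1 (by positivity)
  refine zero_of_bounds S hC hs hε hfe ht hη y (by linarith) (by linarith) hδ (u1 := τ - δ) (by linarith)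
    hm₀0 hup hlow hbig X hX

end Pool.Agent.H487.NB
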