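import Pool.Agent.H487.NB.Sector

/-!
# The correlation of `f(u) e^{-u²/4t}`
-/

set_option autoImplicit false

open MeasureTheory Set
open scoped ComplexConjugate

namespace Pool.Agent.H487.NB

/-- `f' = f g` on `[b, ∞)` with bounds for `g`. -/
structure Slow (P P' b : ℝ) (f g : ℝ → ℂ) : Prop where
  cont : Continuous f
  der : ∀ u, b ≤ u → HasDerivAt f (f u * g u) u
  gcont : ContinuousOn g (Ici b)
  im : ∀ u, b ≤ u → |(g u).im| ≤ P
  lip : ∀ u v, b ≤ u → b ≤ v → ‖g u - g v‖ ≤ P' * |u - v|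

/-- `f(u) e^{-u²/4t}` on `[0, ∞)`, zero for negative `u` -/
noncomputable def hh (t : ℝ) (f : ℝ → ℂ) (u : ℝ) : ℂ :=
  if 0 ≤ u then f u * ((Real.exp (-(u ^ 2 / (4 * t))) : ℝ) : ℂ) else 0

lemma hh_neg {t : ℝ} {f : ℝ → ℂ} {u : ℝ} (hu : u < 0) : hh t f u = 0 := by
  unfold hh; rw [if_neg (by linarith)]

lemma hh_pos {t : ℝ} {f : ℝ → ℂ} {u : ℝ} (hu : 0 ≤ u) :
    hh t f u = f u * ((Real.exp (-(u ^ 2 / (4 * t))) : ℝ) : ℂ) := by
  unfold hh; rw [if_pos hu]

variable {P P' b t : ℝ} {f g : ℝ → ℂ}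

/-- an exponential formula -/
lemma exp_formula {Q w : ℝ → ℂ} {ρ : ℝ} (hρ : 0 ≤ ρ) (hw : ContinuousOn w (Icc (-ρ) ρ))
    (hQ : ∀ x ∈ Icc (-ρ) ρ, HasDerivAt Q (Q x * w x) x) :
    ContinuousOn (fun x => ∫ y in (0 : ℝ)..x, w y) (Icc (-ρ) ρ) ∧
    ∀ x ∈ Icc (-ρ) ρ, Q x = Q 0 * Complex.exp (∫ y in (0 : ℝ)..x, w y) := by
  have hle : -ρ ≤ ρ := by linarith
  set W : ℝ → ℂ := IccExtend hle ((Icc (-ρ) ρ).domRestrict w) with hW
  have hWc : Continuous W := Continuous.Icc_extend' (hw.domRestrict)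
  have hWw : ∀ x ∈ Icc (-ρ) ρ, W x = w x := fun x hx => by
    rw [hW, IccExtend_of_mem hle _ hx]; rfl
  have hint : ∀ x ∈ Icc (-ρ) ρ, ∫ y in (0 : ℝ)..x, w y = ∫ y in (0 : ℝ)..x, W y := fun x hx => by
    refine intervalIntegral.integral_congr fun y hy => ?_
    refine (hWw y ?_).symm
    rcases le_total 0 x with h | h
    · rw [uIcc_of_le h] at hy
      exact ⟨by linarith [hy.1], by linarith [hy.2, hx.2]⟩
    · rw [uIcc_of_ge h] at hy
      exact ⟨by linarith [hy.1, hx.1], by linarith [hy.2]⟩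
  set G : ℝ → ℂ := fun x => ∫ y in (0 : ℝ)..x, W y with hG
  have hGd : ∀ x, HasDerivAt G (W x) x := fun x =>
    intervalIntegral.integral_hasDerivAt_right (hWc.intervalIntegrable _ _)
      (hWc.stronglyMeasurableAtFilter _ _) hWc.continuousAt
  constructor
  · have h1 : Continuous G := continuous_iff_continuousAt.mpr fun x => (hGd x).continuousAt
    exact h1.continuousOn.congr hint
  · intro x hx
    rw [hint x hx]
    have hH : ∀ y ∈ Icc (-ρ) ρ, HasDerivAt (fun y => Q y * Complex.exp (-G y)) 0 y := fun y hy => by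
      have h1 := (hQ y hy).mul ((hGd y).neg.cexp)
      refine h1.congr_deriv ?_
      rw [← hWw y hy]
      simp only [Pi.neg_apply]
      ring
    have hconst : Q x * Complex.exp (-G x) = Q 0 * Complex.exp (-G 0) := by
      have hd : ∀ y ∈ Icc (-ρ) ρ, HasDerivWithinAt (fun y => Q y * Complex.exp (-G y)) 0 (Icc (-ρ) ρ) y :=
        fun y hy => (hH y hy).hasDerivWithinAt
      have h2 := (convex_Icc (-ρ) ρ).norm_image_sub_le_of_norm_hasDerivWithin_le (C := 0) hd
        (fun y _ => by simp) (x := 0) (y := x) ⟨by linarith, hρ⟩ hx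
      rw [zero_mul] at h2
      have h3 := norm_le_zero_iff.mp h2
      exact sub_eq_zero.mp h3
    have hG0 : G 0 = 0 := by simp [hG]
    rw [hG0, neg_zero, Complex.exp_zero, mul_one] at hconst
    rw [← hconst, mul_assoc, ← Complex.exp_add]
    have : -G x + G x = 0 := by ring
    have e : -G x + ∫ y in (0 : ℝ)..x, W y = 0 := this
    rw [e, Complex.exp_zero, mul_one]

/-- the correlation on the symmetric interval -/
lemma sym_int (S : Slow P P' b f g) (ht : 0 < t) (hP : 0 < P) (hP' : 0 ≤ P') (h1 : 256 * P ^ 2 * t ≤ 1)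
    (h2 : 8 * P' * t ≤ 1) {m ρ : ℝ} (hρ : 0 ≤ ρ) (hm : b + ρ ≤ m) :
    1 / 2 * ∫ x in (-ρ)..ρ, ‖f (m + x) * conj (f (m - x))‖ * Real.exp (-(x ^ 2 / (2 * t))) ≤
      ∫ x in (-ρ)..ρ, (f (m + x) * conj (f (m - x))).re * Real.exp (-(x ^ 2 / (2 * t))) := by
  set Q : ℝ → ℂ := fun x => f (m + x) * conj (f (m - x)) with hQ
  set w : ℝ → ℂ := fun x => g (m + x) - conj (g (m - x)) with hw
  have mem1 : ∀ x ∈ Icc (-ρ) ρ, b ≤ m + x := fun x hx => by linarith [hx.1]
  have mem2 : ∀ x ∈ Icc (-ρ) ρ, b ≤ m - x := fun x hx => by linarith [hx.2]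
  have hwc : ContinuousOn w (Icc (-ρ) ρ) := by
    refine ContinuousOn.sub ?_ ?_
    · exact S.gcont.comp (by fun_prop) fun x hx => mem1 x hx
    · exact Complex.continuous_conj.comp_continuousOn (S.gcont.comp (by fun_prop) fun x hx => mem2 x hx)
  have hQd : ∀ x ∈ Icc (-ρ) ρ, HasDerivAt Q (Q x * w x) x := fun x hx => by
    have d1 : HasDerivAt (fun x => f (m + x)) (f (m + x) * g (m + x)) x :=
      (S.der (m + x) (mem1 x hx)).comp_const_add m x
    have d2 : HasDerivAt (fun x => f (m - x)) (-(f (m - x) * g (m - x))) x :=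
      (S.der (m - x) (mem2 x hx)).comp_const_sub m x
    have d3 := d1.mul (d2.star)
    refine d3.congr_deriv ?_
    simp only [hQ, hw, Complex.star_def, map_neg, map_mul]
    ring
  obtain ⟨hZc, hZ⟩ := exp_formula hρ hwc hQd
  set Z : ℝ → ℂ := fun x => ∫ y in (0 : ℝ)..x, w y with hZdef
  have hQ0 : Q 0 = ((‖f m‖ ^ 2 : ℝ) : ℂ) := by
    simp only [hQ, add_zero, sub_zero]
    rw [Complex.mul_conj, Complex.normSq_eq_norm_sq]
  have hint : ∀ x ∈ Icc (-ρ) ρ, IntervalIntegrable w volume 0 x := fun x hx => by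
    refine ContinuousOn.intervalIntegrable (hwc.mono ?_)
    rcases le_total 0 x with h | h
    · rw [uIcc_of_le h]; exact Icc_subset_Icc (by linarith) hx.2
    · rw [uIcc_of_ge h]; exact Icc_subset_Icc hx.1 hρ
  have hsub : ∀ x ∈ Icc (-ρ) ρ, ∀ y ∈ uIcc 0 x, y ∈ Icc (-ρ) ρ ∧ |y| ≤ |x| := fun x hx y hy => by
    rcases le_total 0 x with h | h
    · rw [uIcc_of_le h] at hy
      exact ⟨⟨by linarith [hy.1], by linarith [hy.2, hx.2]⟩, by
        rw [abs_of_nonneg hy.1, abs_of_nonneg h]; exact hy.2⟩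
    · rw [uIcc_of_ge h] at hy
      exact ⟨⟨by linarith [hy.1, hx.1], by linarith [hy.2]⟩, by
        rw [abs_of_nonpos hy.2, abs_of_nonpos h]; linarith [hy.1]⟩
  have him : ∀ x ∈ Icc (-ρ) ρ, |(Z x).im| ≤ 2 * P * |x| := fun x hx => by
    have e : (Z x).im = ∫ y in (0 : ℝ)..x, (w y).im := by
      simp only [hZdef]
      have := Complex.imCLM.intervalIntegral_comp_comm (hint x hx)
      simpa using this.symm
    rw [e, ← Real.norm_eq_abs]
    have := intervalIntegral.norm_integral_le_of_norm_le_const (a := 0) (b := x) (C := 2 * P)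
      (f := fun y => (w y).im) fun y hy => by
        have hy' := (hsub x hx y (uIoc_subset_uIcc hy)).1
        have a1 := S.im (m + y) (mem1 y hy')
        have a2 := S.im (m - y) (mem2 y hy')
        simp only [hw, Complex.sub_im, Complex.conj_im]
        rw [Real.norm_eq_abs, sub_neg_eq_add]
        calc |(g (m + y)).im + (g (m - y)).im| ≤ |(g (m + y)).im| + |(g (m - y)).im| := abs_add_le _ _
          _ ≤ 2 * P := by linarith
    simpa using this
  have hre : ∀ x ∈ Icc (-ρ) ρ, |(Z x).re| ≤ 2 * P' * x ^ 2 := fun x hx => by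
    have e : (Z x).re = ∫ y in (0 : ℝ)..x, (w y).re := by
      simp only [hZdef]
      have := Complex.reCLM.intervalIntegral_comp_comm (hint x hx)
      simpa using this.symm
    rw [e, ← Real.norm_eq_abs]
    have := intervalIntegral.norm_integral_le_of_norm_le_const (a := 0) (b := x) (C := 2 * P' * |x|)
      (f := fun y => (w y).re) fun y hy => by
        have hy' := (hsub x hx y (uIoc_subset_uIcc hy))
        have a1 := S.lip (m + y) (m - y) (mem1 y hy'.1) (mem2 y hy'.1)
        simp only [hw, Complex.sub_re, Complex.conj_re]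
        rw [Real.norm_eq_abs, ← Complex.sub_re]
        refine (Complex.abs_re_le_norm _).trans (a1.trans ?_)
        have e2 : m + y - (m - y) = 2 * y := by ring
        rw [e2, abs_mul, abs_of_pos (by norm_num : (0 : ℝ) < 2)]
        have := hy'.2
        nlinarith
    refine this.trans (le_of_eq ?_)
    rw [sub_zero, ← sq_abs x]; ring
  have key := sector_int (P' := 2 * P') ht hP h1 (by linarith) (sq_nonneg ‖f m‖) hρ hZc hre him
  have hle : -ρ ≤ ρ := by linarith
  have hQe : ∀ x ∈ Icc (-ρ) ρ, f (m + x) * conj (f (m - x)) = ((‖f m‖ ^ 2 : ℝ) : ℂ) * Complex.exp (Z x) :=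
    fun x hx => by
      have := hZ x hx
      rw [hQ0] at this
      exact this
  have e1 : ∫ x in (-ρ)..ρ, ‖f (m + x) * conj (f (m - x))‖ * Real.exp (-(x ^ 2 / (2 * t))) =
      ∫ x in (-ρ)..ρ, ‖((‖f m‖ ^ 2 : ℝ) : ℂ) * Complex.exp (Z x)‖ * Real.exp (-(x ^ 2 / (2 * t))) := by
    refine intervalIntegral.integral_congr fun x hx => ?_
    rw [uIcc_of_le hle] at hx
    rw [hQe x hx]
  have e2 : ∫ x in (-ρ)..ρ, (f (m + x) * conj (f (m - x))).re * Real.exp (-(x ^ 2 / (2 * t))) =
      ∫ x in (-ρ)..ρ, (((‖f m‖ ^ 2 : ℝ) : ℂ) * Complex.exp (Z x)).re * Real.exp (-(x ^ 2 / (2 * t))) := by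
    refine intervalIntegral.integral_congr fun x hx => ?_
    rw [uIcc_of_le hle] at hx
    rw [hQe x hx]
  rw [e1, e2]
  exact key

lemma gauss_split (t p x : ℝ) (ht : 0 < t) :
    Real.exp (-((p / 2 + x) ^ 2 / (4 * t))) * Real.exp (-((p - (p / 2 + x)) ^ 2 / (4 * t))) =
      Real.exp (-(p ^ 2 / (8 * t))) * Real.exp (-(x ^ 2 / (2 * t))) := by
  rw [← Real.exp_add, ← Real.exp_add]
  congr 1
  field_simp
  ring

/-- **the lower bound for the correlation.** -/
theorem cor_lower (S : Slow P P' b f g) (hb : 0 ≤ b) (ht : 0 < t) (hP : 0 < P) (hP' : 0 ≤ P')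
    (h1 : 256 * P ^ 2 * t ≤ 1) (h2 : 8 * P' * t ≤ 1) {p : ℝ} (hp : 0 ≤ p) :
    3 / 2 * cor (H1 (hh t f) b) p - cor (fun u => ‖hh t f u‖) p ≤ (cor (hh t f) p).re := by
  -- the integrand
  set F : ℝ → ℂ := fun v => hh t f v * conj (hh t f (p - v)) with hF
  have hFout : ∀ v, v ∉ Icc 0 p → F v = 0 := fun v hv => by
    simp only [hF]
    rcases lt_or_ge v 0 with h | h
    · rw [hh_neg h, zero_mul]
    · rw [hh_neg (u := p - v), map_zero, mul_zero]
      by_contra hcon
      exact hv ⟨h, by linarith⟩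
  set F0 : ℝ → ℂ := fun v => f v * ((Real.exp (-(v ^ 2 / (4 * t))) : ℝ) : ℂ) *
    conj (f (p - v) * ((Real.exp (-((p - v) ^ 2 / (4 * t))) : ℝ) : ℂ)) with hF0
  have hF0c : Continuous F0 := by
    have hc1 : Continuous fun v => ((Real.exp (-(v ^ 2 / (4 * t))) : ℝ) : ℂ) :=
      Complex.continuous_ofReal.comp (Real.continuous_exp.comp (by fun_prop))
    have hc2 : Continuous fun v => ((Real.exp (-((p - v) ^ 2 / (4 * t))) : ℝ) : ℂ) :=
      Complex.continuous_ofReal.comp (Real.continuous_exp.comp (by fun_prop))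
    have hc3 : Continuous fun v => f (p - v) := S.cont.comp (by fun_prop)
    exact (S.cont.mul hc1).mul (Complex.continuous_conj.comp (hc3.mul hc2))
  have hFin : ∀ v ∈ Icc 0 p, F v = F0 v := fun v hv => by
    simp only [hF, hF0]
    rw [hh_pos hv.1, hh_pos (by linarith [hv.2])]
  have hFi : Integrable F := by
    have : Integrable ((Icc 0 p).indicator F0) :=
      (hF0c.integrableOn_Icc).integrable_indicator measurableSet_Icc
    refine this.congr (Filter.Eventually.of_forall fun v => ?_)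
    by_cases hv : v ∈ Icc 0 p
    · rw [indicator_of_mem hv, hFin v hv]
    · rw [indicator_of_notMem hv, hFout v hv]
  set I : Set ℝ := Icc b (p - b) with hI
  have hIm : MeasurableSet I := measurableSet_Icc
  have c1 : (cor (hh t f) p).re = ∫ v, (F v).re := by
    unfold cor
    have := Complex.reCLM.integral_comp_comm hFi
    simp only [Complex.reCLM_apply] at this
    exact this.symm
  have c2 : cor (fun u => ‖hh t f u‖) p = ∫ v, ‖F v‖ := by
    unfold cor
    refine integral_congr_ae (Filter.Eventually.of_forall fun v => ?_)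
    simp only [hF, norm_mul, RCLike.norm_conj, conj_trivial]
  have c3 : cor (H1 (hh t f) b) p = ∫ v in I, ‖F v‖ := by
    unfold cor
    rw [← integral_indicator hIm]
    refine integral_congr_ae (Filter.Eventually.of_forall fun v => ?_)
    simp only [conj_trivial]
    by_cases hv : v ∈ I
    · rw [indicator_of_mem hv]
      unfold H1
      rw [if_pos hv.1, if_pos (by linarith [hv.2])]
      simp only [hF, norm_mul, RCLike.norm_conj]
    · rw [indicator_of_notMem hv]
      unfold H1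
      by_cases h3 : b ≤ v
      · rw [if_neg (c := b ≤ p - v) (fun h4 => hv ⟨h3, by linarith⟩), mul_zero]
      · rw [if_neg (c := b ≤ v) h3, zero_mul]
  rw [c1, c2, c3]
  have hre : Integrable fun v => (F v).re := hFi.re
  have s1 := integral_add_compl hIm hre
  have s2 := integral_add_compl hIm hFi.norm
  have s3 : -(∫ v in Iᶜ, ‖F v‖) ≤ ∫ v in Iᶜ, (F v).re := by
    rw [← integral_neg]
    refine integral_mono hFi.norm.integrableOn.neg hre.integrableOn fun v => ?_
    have := (abs_le.mp (Complex.abs_re_le_norm (F v))).1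
    simpa using this
  have s4 : 1 / 2 * ∫ v in I, ‖F v‖ ≤ ∫ v in I, (F v).re := by
    rcases lt_or_ge (p - b) b with h3 | h3
    · have : I = ∅ := by rw [hI]; exact Icc_eq_empty (by linarith)
      rw [this]; simp
    · set ρ : ℝ := p / 2 - b with hρ
      have hρ0 : 0 ≤ ρ := by linarith
      have key := sym_int S ht hP hP' h1 h2 (m := p / 2) (ρ := ρ) hρ0 (by linarith)
      have conv : ∀ G : ℝ → ℝ, ∫ v in I, G v = ∫ x in (-ρ)..ρ, G (p / 2 + x) := fun G => by
        rw [hI, integral_Icc_eq_integral_Ioc, ← intervalIntegral.integral_of_le h3]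
        have := intervalIntegral.integral_comp_add_left (a := -ρ) (b := ρ) G (p / 2)
        rw [this]
        congr 1 <;> (rw [hρ]; ring)
      rw [conv, conv]
      have hexp : 0 < Real.exp (-(p ^ 2 / (8 * t))) := Real.exp_pos _
      have val : ∀ x ∈ Icc (-ρ) ρ, F (p / 2 + x) = ((Real.exp (-(p ^ 2 / (8 * t))) : ℝ) : ℂ) *
          (f (p / 2 + x) * conj (f (p / 2 - x)) * ((Real.exp (-(x ^ 2 / (2 * t))) : ℝ) : ℂ)) := fun x hx => by
        rw [hFin _ ⟨by linarith [hx.1], by linarith [hx.2]⟩]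
        simp only [hF0]
        have e3 := gauss_split t p x ht
        have e4 : p - (p / 2 + x) = p / 2 - x := by ring
        rw [e4] at e3 ⊢
        rw [map_mul, Complex.conj_ofReal]
        have e5 : (((Real.exp (-((p / 2 + x) ^ 2 / (4 * t))) * Real.exp (-((p / 2 - x) ^ 2 / (4 * t))) : ℝ)) : ℂ) =
          ((Real.exp (-(p ^ 2 / (8 * t))) * Real.exp (-(x ^ 2 / (2 * t))) : ℝ) : ℂ) := by rw [e3]
        rw [Complex.ofReal_mul, Complex.ofReal_mul] at e5
        linear_combination (f (p / 2 + x) * conj (f (p / 2 - x))) * e5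
      have e6 : ∫ x in (-ρ)..ρ, ‖F (p / 2 + x)‖ = Real.exp (-(p ^ 2 / (8 * t))) *
          ∫ x in (-ρ)..ρ, ‖f (p / 2 + x) * conj (f (p / 2 - x))‖ * Real.exp (-(x ^ 2 / (2 * t))) := by
        rw [← intervalIntegral.integral_const_mul]
        refine intervalIntegral.integral_congr fun x hx => ?_
        rw [uIcc_of_le (by linarith)] at hx
        rw [val x hx, norm_mul, norm_mul _ (((Real.exp (-(x ^ 2 / (2 * t))) : ℝ)) : ℂ), Complex.norm_real,
          Complex.norm_real, Real.norm_eq_abs, Real.norm_eq_abs, abs_of_pos (Real.exp_pos _),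
          abs_of_pos (Real.exp_pos _)]
      have e7 : ∫ x in (-ρ)..ρ, (F (p / 2 + x)).re = Real.exp (-(p ^ 2 / (8 * t))) *
          ∫ x in (-ρ)..ρ, (f (p / 2 + x) * conj (f (p / 2 - x))).re * Real.exp (-(x ^ 2 / (2 * t))) := by
        rw [← intervalIntegral.integral_const_mul]
        refine intervalIntegral.integral_congr fun x hx => ?_
        rw [uIcc_of_le (by linarith)] at hx
        rw [val x hx, Complex.re_ofReal_mul, Complex.re_mul_ofReal]
      rw [e6, e7]
      have := mul_le_mul_of_nonneg_left key hexp.le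
      linarith
  linarith

end Pool.Agent.H487.NB
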