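import Pool.Agent.H487.NB.Gam

/-!
# Small time, large conductor: automorphic L-functions
-/

set_option autoImplicit false

open Filter Topology Set
open scoped ComplexConjugate

namespace Pool.Agent.H487.NB

open H353.E H353.F Complex

/-- `ξ(s) = N^{s/2} Λ(s)` -/
noncomputable def xi (N : ℝ) (Λ : ℂ → ℂ) (s : ℂ) : ℂ := (N : ℂ) ^ (s / 2) * Λ s

theorem datum_core (m : ℕ) (hm : 1 ≤ m) {θ e σ₀ η₁ δ τ B₃ : ℝ} (hθ0 : 0 ≤ θ) (hθ1 : θ ≤ 1 / 2)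
    (he : 0 ≤ e) (hσ₀ : 1 ≤ σ₀) (hσ₀' : σ₀ ≤ 1 + θ + η₁) (hη₁ : 0 < η₁) (hη₁' : η₁ ≤ 1) (hδ : 0 < δ)
    (k1 : δ + (σ₀ - 1 / 2) + e < τ / 2) (k2 : δ + e < (τ - (1 / 2 + θ + 2 * η₁)) ^ 2 / (2 * τ))
    (k3 : 1 / 2 + θ + 2 * η₁ ≤ τ) :
    ∃ t₁ : ℝ, 0 < t₁ ∧ ∀ (N : ℝ) (μ : Fin m → ℂ) (α : Fin m → ℕ → ℂ) (ε : ℂ) (Λ : ℂ → ℂ),
      DatumT θ N μ α ε Λ → (∀ s : ℂ, σ₀ ≤ s.re → ‖xi N Λ s‖ ≤ B₃ * ‖gaf N μ (s + e)‖) →
      ∀ t : ℝ, 0 < t → t ≤ t₁ → ∀ s : ℂ, τ ≤ t * Real.log (cond N μ s.im) → heat t (xi N Λ) s = 0 →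
        s.re = 1 / 2 ∧ deriv (heat t (xi N Λ)) s ≠ 0 := by
  have hm' : (1 : ℝ) ≤ m := by exact_mod_cast hm
  obtain ⟨B, hB, HB⟩ := facts m hm hθ0 hθ1 hη₁
  have hτ : 0 < τ := by linarith
  set C : ℝ := 6 * m with hC
  have hC1 : 1 ≤ C := by rw [hC]; linarith
  have hexp1 : 1 ≤ Real.exp (C ^ 2 / 4 + 64) := Real.one_le_exp (by positivity)
  set Bm : ℝ := max B (max 1 B₃) * Real.exp (C ^ 2 / 4 + 64) with hBm
  have hmax : 1 ≤ max B (max 1 B₃) := hB.trans (le_max_left _ _)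
  have hBm1 : 1 ≤ Bm := by
    calc (1 : ℝ) = 1 * 1 := by ring
      _ ≤ Bm := mul_le_mul hmax hexp1 zero_le_one (by linarith)
  have hBBm : B ≤ Bm := by
    calc B ≤ max B (max 1 B₃) := le_max_left _ _
      _ = max B (max 1 B₃) * 1 := by ring
      _ ≤ Bm := by rw [hBm]; gcongr
  have hB3m : max 1 B₃ ≤ Bm := by
    calc max 1 B₃ ≤ max B (max 1 B₃) := le_max_right _ _
      _ = max B (max 1 B₃) * 1 := by ring
      _ ≤ Bm := by rw [hBm]; gcongr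
  set K : ℝ := (5 + (τ + 1 / 2)) * m with hK
  have hK0 : 0 ≤ K := by positivity
  have esig : 1 + θ + η₁ - 1 / 2 + η₁ = 1 / 2 + θ + 2 * η₁ := by ring
  obtain ⟨t₁, ht₁, H⟩ := core (C := C) (B := Bm) (σ₀ := σ₀) (σ := 1 + θ + η₁) (e := e) (η := η₁) (δ := δ)
    (τ := τ) (K := K) hC1 hBm1 hσ₀ hσ₀' he hη₁ hδ hK0 k1 (by rw [esig]; exact k2) (by rw [esig]; exact k3)
  refine ⟨t₁, ht₁, fun N μ α ε Λ d hR t ht htt s hs hz => ?_⟩
  have F := HB N μ α ε Λ d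
  have hN := d.one_le
  have hXeq : xi N Λ = fun z => (N : ℂ) ^ (z / 2) * Λ z := rfl
  have S := F.near
  have hre : ∀ z : ℂ, (z + (e : ℂ)).re = z.re + e := fun z => by simp
  have gp' := gp_shift S.gp he
  have hR' : ∀ z : ℂ, σ₀ ≤ z.re → ‖xi N Λ z‖ ≤ max 1 B₃ * ‖gaf N μ (z + e)‖ := fun z hz' =>
    (hR z hz').trans (mul_le_mul_of_nonneg_right (le_max_right _ _) (norm_nonneg _))
  have near' : Near C Bm (1 + θ + η₁) (fun K => 4 * Real.exp (2 * |K| + 10)) (xi N Λ) (gaf N μ) (gaD N μ) :=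
    ⟨S.gp, hBm1, S.hσ, S.diff, fun z hz' => (S.hi z hz').trans (mul_le_mul_of_nonneg_right hBBm (norm_nonneg _)),
      fun z hz' => (S.lo z hz').trans (mul_le_mul_of_nonneg_right hBBm (norm_nonneg _))⟩
  have hcond := cond_one hN μ s.im
  have hcore := H (fun K => 4 * Real.exp (2 * |K| + 10)) (xi N Λ) (gaf N μ) (gaD N μ) near' F.slow
    ⟨ε, d.norm_eq, F.fe⟩ (fun z hz' => (hR' z hz').trans (mul_le_mul_of_nonneg_right hB3m (norm_nonneg _)))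
    (fun z h1 h2 => ?_) t s.im (1 / 2 * Real.log (cond N μ s.im)) ht htt (by linarith) (fun u hu => ?_)
    (s.re - 1 / 2)
  · have e1 : (1 / 2 + (s.im : ℂ) * I + ((s.re - 1 / 2 : ℝ) : ℂ)) = s := by
      apply Complex.ext <;> simp
    rw [e1] at hcore
    obtain ⟨h1, h2⟩ := hcore hz
    have h3 : s.re = 1 / 2 := by linarith
    refine ⟨h3, ?_⟩
    have e2 : (1 / 2 + (s.im : ℂ) * I) = s := by
      apply Complex.ext <;> simp [h3]
    rwa [e2] at h2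
  · have h3 := strip_sharp (B := max 1 B₃) (C := C) (σ := σ₀) (γ := fun z => gaf N μ (z + e))
      (D := fun z => gaD N μ (z + e)) (Sg := fun K => 4 * Real.exp (2 * |K| + 10)) gp' hC1 (le_max_left _ _)
      hσ₀ (by linarith) S.diff hR' ⟨ε, d.norm_eq, F.fe⟩ F.bdd h1 h2
    refine h3.trans ?_
    have e3 : (σ₀ : ℂ) + z.im * I + e = σ₀ + e + z.im * I := by ring
    rw [e3]
    refine mul_le_mul_of_nonneg_right ?_ (norm_nonneg _)
    exact mul_le_mul_of_nonneg_right (le_max_right _ _) (Real.exp_pos _).le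
  · have h1 := gaD_near hN d.re_le (s := 1 / 2 + (s.im : ℂ) * I + (u : ℂ)) (by rw [re_line]; linarith [hu.1])
    rw [re_line, im_line] at h1
    rw [abs_le]
    have h2 : (5 + (1 / 2 + u)) * m ≤ K := by
      rw [hK]
      exact mul_le_mul_of_nonneg_right (by linarith [hu.2]) (by linarith)
    have h4 : 5 * (m : ℝ) ≤ K := by
      rw [hK]
      exact mul_le_mul_of_nonneg_right (by linarith) (by linarith)
    constructor <;> linarith [h1.1, h1.2]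

/-- **Part A**: Satake parameters bounded by `p^θ`. -/
theorem datum_heat (m : ℕ) (hm : 1 ≤ m) {θ η : ℝ} (hθ0 : 0 ≤ θ) (hθ1 : θ ≤ 1 / 2) (hη : 0 < η) :
    ∃ t₁ : ℝ, 0 < t₁ ∧ ∀ (N : ℝ) (μ : Fin m → ℂ) (α : Fin m → ℕ → ℂ) (ε : ℂ) (Λ : ℂ → ℂ),
      DatumT θ N μ α ε Λ →
      ∀ t : ℝ, 0 < t → t ≤ t₁ → ∀ s : ℂ, 1 + 2 * θ + η ≤ t * Real.log (cond N μ s.im) →
        heat t (xi N Λ) s = 0 → s.re = 1 / 2 ∧ deriv (heat t (xi N Λ)) s ≠ 0 := by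
  set η' : ℝ := min η 1 with hη'
  have h0 : 0 < η' := lt_min hη one_pos
  have h1 : η' ≤ 1 := min_le_right _ _
  have h2 : η' ≤ η := min_le_left _ _
  obtain ⟨B, hB, HB⟩ := facts m hm hθ0 hθ1 (show 0 < η' / 32 by positivity)
  obtain ⟨t₁, ht₁, H⟩ := datum_core m hm (θ := θ) (e := 0) (σ₀ := 1 + θ + η' / 32) (η₁ := η' / 32)
    (δ := η' / 32) (τ := 1 + 2 * θ + η') (B₃ := B) hθ0 hθ1 le_rfl (by linarith) le_rfl (by positivity)
    (by linarith) (by positivity) (by linarith) (by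
      rw [lt_div_iff₀ (by linarith)]
      have h3 : 1 / 2 ≤ 1 + 2 * θ + η' - (1 / 2 + θ + 2 * (η' / 32)) := by linarith
      have h4 : (1 / 2 : ℝ) ^ 2 ≤ (1 + 2 * θ + η' - (1 / 2 + θ + 2 * (η' / 32))) ^ 2 :=
        pow_le_pow_left₀ (by norm_num) h3 2
      nlinarith) (by linarith)
  refine ⟨t₁, ht₁, fun N μ α ε Λ d t ht htt s hs hz => H N μ α ε Λ d (fun z hz' => ?_) t ht htt s (by linarith) hz⟩
  rw [Complex.ofReal_zero, add_zero]
  exact (HB N μ α ε Λ d).near.hi z hz'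

/-- **Part B**: with a bound `C^ε` to the right of the edge of absolute convergence. -/
theorem datum_heat_right (m : ℕ) (hm : 1 ≤ m) {η : ℝ} (hη : 0 < η) :
    ∃ ε₀ : ℝ, 0 < ε₀ ∧ ∀ A : ℝ,
    ∃ t₁ : ℝ, 0 < t₁ ∧ ∀ (N : ℝ) (μ : Fin m → ℂ) (α : Fin m → ℕ → ℂ) (ε : ℂ) (Λ : ℂ → ℂ),
      DatumT (1 / 2) N μ α ε Λ →
      (∀ s : ℂ, 1 + ε₀ ≤ s.re → ‖Λ s‖ ≤ A * cond N μ s.im ^ ε₀ * ‖∏ j, Gammaℝ (s - μ j)‖) →
      ∀ t : ℝ, 0 < t → t ≤ t₁ → ∀ s : ℂ, 1 + η ≤ t * Real.log (cond N μ s.im) →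
        heat t (xi N Λ) s = 0 → s.re = 1 / 2 ∧ deriv (heat t (xi N Λ)) s ≠ 0 := by
  have hm' : (1 : ℝ) ≤ m := by exact_mod_cast hm
  set η' : ℝ := min η 1 with hη'
  have h0 : 0 < η' := lt_min hη one_pos
  have h1 : η' ≤ 1 := min_le_right _ _
  have h2 : η' ≤ η := min_le_left _ _
  have hsq : η' ^ 2 ≤ η' := by nlinarith
  set e : ℝ := η' ^ 2 / 32 with he
  have he0 : 0 < e := by positivity
  have hem : e / 2 ≤ e := by linarith
  refine ⟨e / 2, by positivity, fun A => ?_⟩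
  obtain ⟨t₁, ht₁, H⟩ := datum_core m hm (θ := 1 / 2) (e := e) (σ₀ := 1 + e / 2) (η₁ := η' / 16)
    (δ := e) (τ := 1 + η') (B₃ := |A| * Real.exp (5 * m * e)) (by norm_num) le_rfl he0.le (by linarith)
    (by nlinarith) (by positivity)
    (by linarith) he0 (by nlinarith) (by
      rw [lt_div_iff₀ (by linarith)]
      have h3 : 7 / 8 * η' ≤ 1 + η' - (1 / 2 + 1 / 2 + 2 * (η' / 16)) := by linarith
      have h4 : (7 / 8 * η') ^ 2 ≤ (1 + η' - (1 / 2 + 1 / 2 + 2 * (η' / 16))) ^ 2 :=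
        pow_le_pow_left₀ (by positivity) h3 2
      nlinarith) (by linarith)
  refine ⟨t₁, ht₁, fun N μ α ε Λ d hR t ht htt s hs hz => H N μ α ε Λ d (fun z hz' => ?_) t ht htt s (by linarith) hz⟩
  have hN := d.one_le
  have hN0 : 0 < N := by linarith
  have hcond := cond_one hN μ z.im
  have hz1 : 1 ≤ z.re := by linarith
  have h3 := hR z hz'
  have gp := gaf_GP hm hN d.re_le
  -- growth of gaf
  have h4 : ‖gaf N μ z‖ ≤ ‖gaf N μ (z + e)‖ * Real.exp (-(e * (1 / 2 * Real.log (cond N μ z.im) - 5 * m))) := by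
    have e1 : z = (z + e) + (-(e : ℂ)) := by ring
    have hpt : ∀ r : ℝ, z + e + (r : ℂ) * (-(e : ℂ)) = z + ((e - r * e : ℝ) : ℂ) := fun r => by push_cast; ring
    have h5 := seg_le gp (s := z + e) (v := -(e : ℂ)) (A := -(e * (1 / 2 * Real.log (cond N μ z.im) - 5 * m)))
      (fun r hr => ?_) (fun r hr => ?_)
    · rw [← e1] at h5
      exact h5
    · rw [hpt, add_re, ofReal_re]
      nlinarith [hr.1, hr.2]
    · rw [hpt]
      have h6 : 1 ≤ (z + ((e - r * e : ℝ) : ℂ)).re := by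
        rw [add_re, ofReal_re]
        nlinarith [hr.1, hr.2]
      have h7 := (gaD_near hN d.re_le h6).1
      have e2 : (z + ((e - r * e : ℝ) : ℂ)).im = z.im := by simp
      rw [e2] at h7
      rw [← Complex.ofReal_neg, Complex.re_mul_ofReal]
      nlinarith
  have h5 : ‖xi N Λ z‖ ≤ |A| * cond N μ z.im ^ (e / 2) * ‖gaf N μ z‖ := by
    unfold xi gaf
    rw [norm_mul, norm_mul]
    have h6 : 0 ≤ ‖(N : ℂ) ^ (z / 2)‖ := norm_nonneg _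
    calc ‖(N : ℂ) ^ (z / 2)‖ * ‖Λ z‖ ≤ ‖(N : ℂ) ^ (z / 2)‖ * (A * cond N μ z.im ^ (e / 2) * ‖∏ j, Gammaℝ (z - μ j)‖) := by gcongr
      _ ≤ ‖(N : ℂ) ^ (z / 2)‖ * (|A| * cond N μ z.im ^ (e / 2) * ‖∏ j, Gammaℝ (z - μ j)‖) := by
          have := le_abs_self A
          have h8 : 0 ≤ cond N μ z.im ^ (e / 2) := Real.rpow_nonneg (by linarith) _
          gcongr
      _ = _ := by ring
  have h6 : cond N μ z.im ^ (e / 2) = Real.exp (e * (1 / 2 * Real.log (cond N μ z.im))) := by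
    rw [Real.rpow_def_of_pos (by linarith)]
    congr 1
    ring
  calc ‖xi N Λ z‖ ≤ |A| * cond N μ z.im ^ (e / 2) * ‖gaf N μ z‖ := h5
    _ ≤ |A| * cond N μ z.im ^ (e / 2) * (‖gaf N μ (z + e)‖ * Real.exp (-(e * (1 / 2 * Real.log (cond N μ z.im) - 5 * m)))) := by
        have h8 : 0 ≤ cond N μ z.im ^ (e / 2) := Real.rpow_nonneg (by linarith) _
        gcongr
    _ = |A| * (Real.exp (e * (1 / 2 * Real.log (cond N μ z.im))) * Real.exp (-(e * (1 / 2 * Real.log (cond N μ z.im) - 5 * m)))) * ‖gaf N μ (z + e)‖ := by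
        rw [h6]; ring
    _ = |A| * Real.exp (5 * m * e) * ‖gaf N μ (z + e)‖ := by
        rw [← Real.exp_add]
        congr 3
        ring

end Pool.Agent.H487.NB
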