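import Pool.Agent.H487.NB.Hurwitz
import Pool.Agent.H487.NB.Main

/-!
# All zeros on the line, and the Riemann hypothesis as the limit `t → 0+`
-/

set_option autoImplicit false

open Filter Topology Set
open scoped ComplexConjugate

namespace Pool.Agent.H487.NB

open H353.E H353.F Complex

lemma datum_cl {m : ℕ} (hm : 1 ≤ m) {θ : ℝ} (hθ0 : 0 ≤ θ) (hθ1 : θ ≤ 1 / 2) {N : ℝ} {μ : Fin m → ℂ}
    {α : Fin m → ℕ → ℂ} {ε : ℂ} {Λ : ℂ → ℂ} (d : DatumT θ N μ α ε Λ) : Cl (3 / 2) (xi N Λ) := by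
  obtain ⟨B, hB, HB⟩ := facts m hm hθ0 hθ1 (show (0 : ℝ) < 1 / 2 by norm_num)
  have F := HB N μ α ε Λ d
  have hX : (fun z => (N : ℂ) ^ (z / 2) * Λ z) = xi N Λ := rfl
  rw [hX] at F
  have S := F.near
  refine ⟨S.diff, F.slow.type0, ⟨ε, F.fe⟩, fun s hs => ?_, nonExp_of S.diff ?_⟩
  · by_contra hcon
    push Not at hcon
    exact (S.quot_ne (z := s) (by linarith)).2.1 hs
  · rintro ⟨A, K, hAK⟩
    set Sg : ℝ := 4 * Real.exp (2 * |K + 1| + 10) with hSg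
    set x₀ : ℝ := max 2 Sg with hx₀
    have h2 : 2 ≤ x₀ := le_max_left _ _
    have h3 : Sg ≤ x₀ := le_max_right _ _
    have hγ : 0 < ‖gaf N μ x₀‖ := norm_pos_iff.mpr (S.gp.ne x₀ (by rw [ofReal_re]; linarith))
    have hlow : ∀ y : ℝ, 0 ≤ y → ‖gaf N μ x₀‖ * Real.exp ((K + 1) * y) ≤ B * (|A| * Real.exp (K * (x₀ + y))) := by
      intro y hy
      have hpt : ∀ r : ℝ, ((x₀ + y : ℝ) : ℂ) + (r : ℂ) * (-(y : ℂ)) = ((x₀ + (1 - r) * y : ℝ) : ℂ) := fun r => by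
        push_cast; ring
      have h5 := seg_le S.gp (s := ((x₀ + y : ℝ) : ℂ)) (v := -(y : ℂ)) (A := -((K + 1) * y)) (fun r hr => ?_) (fun r hr => ?_)
      · have e1 : ((x₀ + y : ℝ) : ℂ) + -(y : ℂ) = x₀ := by push_cast; ring
        rw [e1] at h5
        have h6 := S.lo ((x₀ + y : ℝ) : ℂ) (by rw [ofReal_re]; linarith)
        have h7 := hAK (x₀ + y) (by linarith)
        have h8 : A * Real.exp (K * (x₀ + y)) ≤ |A| * Real.exp (K * (x₀ + y)) :=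
          mul_le_mul_of_nonneg_right (le_abs_self A) (Real.exp_pos _).le
        have h9 : ‖gaf N μ ((x₀ + y : ℝ) : ℂ)‖ ≤ B * (|A| * Real.exp (K * (x₀ + y))) :=
          h6.trans (mul_le_mul_of_nonneg_left (h7.trans h8) (by linarith))
        rw [Real.exp_neg, ← div_eq_mul_inv, le_div_iff₀ (Real.exp_pos _)] at h5
        exact h5.trans h9
      · rw [hpt, ofReal_re]
        nlinarith [hr.1, hr.2]
      · rw [hpt]
        have h6 : Sg ≤ x₀ + (1 - r) * y := by nlinarith [hr.1, hr.2]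
        have h7 := S.gp.gr (K + 1) ((x₀ + (1 - r) * y : ℝ) : ℂ) (by rw [ofReal_re]; nlinarith [hr.1, hr.2])
          (by rw [ofReal_re]; exact h6)
        rw [← Complex.ofReal_neg, Complex.re_mul_ofReal]
        nlinarith
    -- contradiction
    set D : ℝ := B * (|A| * Real.exp (K * x₀)) with hD
    have hD0 : 0 ≤ D := by positivity
    have h4 : ∀ y : ℝ, 0 ≤ y → ‖gaf N μ x₀‖ * Real.exp y ≤ D := fun y hy => by
      have h5 := hlow y hy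
      have e1 : Real.exp ((K + 1) * y) = Real.exp y * Real.exp (K * y) := by rw [← Real.exp_add]; congr 1; ring
      have e2 : Real.exp (K * (x₀ + y)) = Real.exp (K * x₀) * Real.exp (K * y) := by rw [← Real.exp_add]; congr 1; ring
      rw [e1, e2] at h5
      have h6 : 0 < Real.exp (K * y) := Real.exp_pos _
      have h7 : (‖gaf N μ x₀‖ * Real.exp y) * Real.exp (K * y) ≤ D * Real.exp (K * y) := by
        rw [hD]; linarith
      exact le_of_mul_le_mul_right h7 h6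
    have h5 := h4 (D / ‖gaf N μ x₀‖) (by positivity)
    have h6 : D / ‖gaf N μ x₀‖ + 1 ≤ Real.exp (D / ‖gaf N μ x₀‖) := Real.add_one_le_exp _
    have h7 : ‖gaf N μ x₀‖ * (D / ‖gaf N μ x₀‖ + 1) ≤ D := (mul_le_mul_of_nonneg_left h6 hγ.le).trans h5
    rw [mul_add, mul_div_cancel₀ _ hγ.ne'] at h7
    linarith

/-- all zeros of `F` lie on the critical line -/
def OnLine (F : ℂ → ℂ) : Prop := ∀ s, F s = 0 → s.re = 1 / 2

lemma onLine_of_le {F : ℂ → ℂ} {ε : ℂ} (hε : ‖ε‖ = 1) (hfe : ∀ s, F s = ε * conj (F (1 - conj s)))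
    (h : ∀ s, F s = 0 → s.re ≤ 1 / 2) : OnLine F := by
  intro s hs
  have h1 := h s hs
  have hε0 : ε ≠ 0 := by
    rintro rfl
    simp at hε
  have h2 := hfe s
  rw [hs] at h2
  have h3 : F (1 - conj s) = 0 := by
    rcases mul_eq_zero.mp h2.symm with h | h
    · exact absurd h hε0
    · simpa using h
  have h4 := h _ h3
  simp at h4
  linarith

/-- once on the line, always on the line -/
theorem datum_mono {m : ℕ} (hm : 1 ≤ m) {θ : ℝ} (hθ0 : 0 ≤ θ) (hθ1 : θ ≤ 1 / 2) {N : ℝ} {μ : Fin m → ℂ}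
    {α : Fin m → ℕ → ℂ} {ε : ℂ} {Λ : ℂ → ℂ} (d : DatumT θ N μ α ε Λ) {t t' : ℝ} (ht : 0 ≤ t) (htt : t ≤ t')
    (h : OnLine (flow t (xi N Λ))) : OnLine (flow t' (xi N Λ)) := by
  have C0 := datum_cl hm hθ0 hθ1 d
  have C1 := C0.flow ht
  have C2 : Cl 0 (flow t (xi N Λ)) := ⟨C1.diff, C1.type0, C1.fe, fun s hs => by rw [h s hs]; norm_num, C1.nonexp⟩
  have C3 := C2.flow (t := t' - t) (by linarith)
  rw [flow_add C0.diff C0.type0, sub_add_cancel] at C3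
  have hfe : ∀ s, xi N Λ s = ε * conj (xi N Λ (1 - conj s)) := by
    obtain ⟨B, hB, HB⟩ := facts m hm hθ0 hθ1 (show (0 : ℝ) < 1 / 2 by norm_num)
    exact (HB N μ α ε Λ d).fe
  exact onLine_of_le d.norm_eq (fe_flow C0.diff hfe t') (fun s hs => by linarith [C3.zer s hs])

theorem datum_grh {m : ℕ} (hm : 1 ≤ m) {θ : ℝ} (hθ0 : 0 ≤ θ) (hθ1 : θ ≤ 1 / 2) {N : ℝ} {μ : Fin m → ℂ}
    {α : Fin m → ℕ → ℂ} {ε : ℂ} {Λ : ℂ → ℂ} (d : DatumT θ N μ α ε Λ) :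
    OnLine (xi N Λ) ↔ ∀ t : ℝ, 0 < t → OnLine (flow t (xi N Λ)) := by
  have C0 := datum_cl hm hθ0 hθ1 d
  have hfe : ∀ s, xi N Λ s = ε * conj (xi N Λ (1 - conj s)) := by
    obtain ⟨B, hB, HB⟩ := facts m hm hθ0 hθ1 (show (0 : ℝ) < 1 / 2 by norm_num)
    exact (HB N μ α ε Λ d).fe
  constructor
  · intro h t ht
    exact datum_mono hm hθ0 hθ1 d le_rfl ht.le (by rwa [flow_zero])
  · intro h
    refine onLine_of_le d.norm_eq hfe ?_
    exact zeros_limit C0.diff C0.type0 C0.ne (fun t ht s hs => (h t ht s hs).le)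

lemma xi_zero {N : ℝ} (hN : 1 ≤ N) (Λ : ℂ → ℂ) (s : ℂ) : xi N Λ s = 0 ↔ Λ s = 0 := by
  unfold xi
  have h : (N : ℂ) ^ (s / 2) ≠ 0 := by
    rw [Ne, cpow_eq_zero_iff]
    rintro ⟨h1, -⟩
    have : N = 0 := by exact_mod_cast h1
    linarith
  simp [h]

/-- the statement for a whole L-function -/
theorem datum_all (m : ℕ) (hm : 1 ≤ m) {θ η : ℝ} (hθ0 : 0 ≤ θ) (hθ1 : θ ≤ 1 / 2) (hη : 0 < η) :
    ∃ C₁ : ℝ, 1 < C₁ ∧ ∀ (N : ℝ) (μ : Fin m → ℂ) (α : Fin m → ℕ → ℂ) (ε : ℂ) (Λ : ℂ → ℂ),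
      DatumT θ N μ α ε Λ → ∀ C : ℝ, C₁ ≤ C → (∀ y : ℝ, C ≤ cond N μ y) →
      ∀ t : ℝ, (1 + 2 * θ + η) / Real.log C ≤ t → OnLine (flow t (xi N Λ)) := by
  obtain ⟨t₁, ht₁, H⟩ := datum_heat m hm hθ0 hθ1 hη
  have hK : 0 < 1 + 2 * θ + η := by linarith
  refine ⟨Real.exp ((1 + 2 * θ + η) / t₁), Real.one_lt_exp_iff.mpr (by positivity), fun N μ α ε Λ d C hC hcond t ht => ?_⟩
  have hl : (1 + 2 * θ + η) / t₁ ≤ Real.log C := by
    rw [Real.le_log_iff_exp_le (lt_of_lt_of_le (Real.exp_pos _) hC)]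
    exact hC
  have hl0 : 0 < Real.log C := lt_of_lt_of_le (by positivity) hl
  set t' : ℝ := (1 + 2 * θ + η) / Real.log C with ht'
  have h1 : 0 < t' := by positivity
  have h2 : t' ≤ t₁ := by
    rw [ht', div_le_iff₀ hl0]
    rw [div_le_iff₀ ht₁] at hl
    linarith
  refine datum_mono hm hθ0 hθ1 d h1.le ht fun s hs => ?_
  have C0 := datum_cl hm hθ0 hθ1 d
  rw [← heat_eq_flow C0.diff C0.type0 h1] at hs
  refine (H N μ α ε Λ d t' h1 h2 s ?_ hs).1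
  have h3 : Real.log C ≤ Real.log (cond N μ s.im) :=
    Real.log_le_log (lt_of_lt_of_le (Real.exp_pos _) hC) (hcond s.im)
  calc 1 + 2 * θ + η = t' * Real.log C := by rw [ht', div_mul_cancel₀ _ hl0.ne']
    _ ≤ t' * Real.log (cond N μ s.im) := by gcongr

/-- both statements under a bound to the right of the edge of absolute convergence -/
theorem datum_both_right (m : ℕ) (hm : 1 ≤ m) {η : ℝ} (hη : 0 < η) :
    ∃ ε₀ : ℝ, 0 < ε₀ ∧ ∀ A : ℝ,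
    ∃ t₁ C₁ : ℝ, 0 < t₁ ∧ 1 < C₁ ∧ ∀ (N : ℝ) (μ : Fin m → ℂ) (α : Fin m → ℕ → ℂ) (ε : ℂ) (Λ : ℂ → ℂ),
      DatumT (1 / 2) N μ α ε Λ →
      (∀ s : ℂ, 1 + ε₀ ≤ s.re → ‖Λ s‖ ≤ A * cond N μ s.im ^ ε₀ * ‖∏ j, Gammaℝ (s - μ j)‖) →
      (∀ t : ℝ, 0 < t → t ≤ t₁ → ∀ s : ℂ, 1 + η ≤ t * Real.log (cond N μ s.im) →
        heat t (xi N Λ) s = 0 → s.re = 1 / 2 ∧ deriv (heat t (xi N Λ)) s ≠ 0) ∧
      ∀ C : ℝ, C₁ ≤ C → (∀ y : ℝ, C ≤ cond N μ y) →
      ∀ t : ℝ, (1 + η) / Real.log C ≤ t → OnLine (flow t (xi N Λ)) := by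
  obtain ⟨ε₀, hε₀, H⟩ := datum_heat_right m hm hη
  refine ⟨ε₀, hε₀, fun A => ?_⟩
  obtain ⟨t₁, ht₁, H⟩ := H A
  have hK : 0 < 1 + η := by linarith
  refine ⟨t₁, Real.exp ((1 + η) / t₁), ht₁, Real.one_lt_exp_iff.mpr (by positivity),
    fun N μ α ε Λ d hb => ⟨H N μ α ε Λ d hb, fun C hC hcond t ht => ?_⟩⟩
  have hl : (1 + η) / t₁ ≤ Real.log C := by
    rw [Real.le_log_iff_exp_le (lt_of_lt_of_le (Real.exp_pos _) hC)]
    exact hC
  have hl0 : 0 < Real.log C := lt_of_lt_of_le (by positivity) hl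
  set t' : ℝ := (1 + η) / Real.log C with ht'
  have h1 : 0 < t' := by positivity
  have h2 : t' ≤ t₁ := by
    rw [ht', div_le_iff₀ hl0]
    rw [div_le_iff₀ ht₁] at hl
    linarith
  refine datum_mono hm (by norm_num) le_rfl d h1.le ht fun s hs => ?_
  have C0 := datum_cl hm (by norm_num) le_rfl d
  rw [← heat_eq_flow C0.diff C0.type0 h1] at hs
  refine (H N μ α ε Λ d hb t' h1 h2 s ?_ hs).1
  have h3 : Real.log C ≤ Real.log (cond N μ s.im) :=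
    Real.log_le_log (lt_of_lt_of_le (Real.exp_pos _) hC) (hcond s.im)
  calc 1 + η = t' * Real.log C := by rw [ht', div_mul_cancel₀ _ hl0.ne']
    _ ≤ t' * Real.log (cond N μ s.im) := by gcongr

end Pool.Agent.H487.NB
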