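import Pool.Agent.H487.NB.Zero

/-!
# `e^{t D²}` as a power series, its semigroup property, and Gaussian averages
-/

set_option autoImplicit false

open MeasureTheory Set Filter Topology

namespace Pool.Agent.H487.NB

/-- growth `O(e^{c|s|²})` for every `c > 0` -/
def Type0 (F : ℂ → ℂ) : Prop := ∀ c : ℝ, 0 < c → ∃ K : ℝ, 0 < K ∧ ∀ s : ℂ, ‖F s‖ ≤ K * Real.exp (c * ‖s‖ ^ 2)

/-- `e^{t D²} F = ∑ t^k F^{(2k)} / k!` -/
noncomputable def flow (t : ℝ) (F : ℂ → ℂ) (s : ℂ) : ℂ :=
  ∑' k : ℕ, ((t ^ k / (k.factorial : ℝ) : ℝ) : ℂ) * iteratedDeriv (2 * k) F s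

lemma SlowGrowth.type0 {F : ℂ → ℂ} (h : SlowGrowth F) : Type0 F := fun c hc => by
  obtain ⟨K, hK, hb⟩ := h.bound hc 0
  exact ⟨K, hK, fun s => hb s ‖s‖ (norm_nonneg s) (by simp)⟩

/-- conversely -/
lemma Type0.slow {F : ℂ → ℂ} (hd : Continuous F) (h : Type0 F) : SlowGrowth F := by
  set M : ℝ → ℝ := fun ρ => sSup ((fun s => ‖F s‖) '' Metric.closedBall 0 (max ρ 0)) with hM
  have hbdd : ∀ ρ, BddAbove ((fun s => ‖F s‖) '' Metric.closedBall 0 (max ρ 0)) := fun ρ =>
    (isCompact_closedBall (0 : ℂ) (max ρ 0)).bddAbove_image hd.norm.continuousOn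
  have hne : ∀ ρ, ((fun s => ‖F s‖) '' Metric.closedBall 0 (max ρ 0)).Nonempty := fun ρ =>
    ⟨_, 0, by simp, rfl⟩
  have hle : ∀ ρ (s : ℂ), ‖s‖ ≤ max ρ 0 → ‖F s‖ ≤ M ρ := fun ρ s hs =>
    le_csSup (hbdd ρ) ⟨s, by simpa using hs, rfl⟩
  have hM0 : ∀ ρ, 0 ≤ M ρ := fun ρ => (norm_nonneg (F 0)).trans (hle ρ 0 (by simp))
  refine ⟨fun ρ => Real.log (M ρ + 1), fun a b hab => ?_, ?_, fun s => ?_⟩
  · apply Real.log_le_log (by linarith [hM0 a])
    have : M a ≤ M b := csSup_le_csSup (hbdd b) (hne a)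
      (image_mono (Metric.closedBall_subset_closedBall (max_le_max_right 0 hab)))
    linarith
  · rw [Metric.tendsto_atTop]
    intro ε hε
    obtain ⟨K, hK, hb⟩ := h (ε / 2) (by positivity)
    obtain ⟨R, hR⟩ := exists_nat_ge ((Real.log (K + 1) + 1) / (ε / 4))
    refine ⟨max R 1, fun ρ hρ => ?_⟩
    have hρ1 : 1 ≤ ρ := (le_max_right _ _).trans hρ
    have hρR : (R : ℝ) ≤ ρ := (le_max_left _ _).trans hρ
    have hl0 : 0 ≤ Real.log (M ρ + 1) := Real.log_nonneg (by linarith [hM0 ρ])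
    rw [dist_zero_right, Real.norm_of_nonneg (by positivity), div_lt_iff₀ (by positivity)]
    have h1 : M ρ ≤ K * Real.exp (ε / 2 * ρ ^ 2) := by
      refine csSup_le (hne ρ) ?_
      rintro _ ⟨s, hs, rfl⟩
      refine (hb s).trans ?_
      rw [Metric.mem_closedBall, dist_zero_right, max_eq_left (by linarith)] at hs
      gcongr
    have h2 : M ρ + 1 ≤ (K + 1) * Real.exp (ε / 2 * ρ ^ 2) := by
      have : 1 ≤ Real.exp (ε / 2 * ρ ^ 2) := Real.one_le_exp (by positivity)
      linarith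
    have h3 : Real.log (M ρ + 1) ≤ Real.log (K + 1) + ε / 2 * ρ ^ 2 := by
      refine (Real.log_le_log (by linarith [hM0 ρ]) h2).trans ?_
      rw [Real.log_mul (by linarith) (Real.exp_pos _).ne', Real.log_exp]
    have h4 : Real.log (K + 1) + 1 ≤ ε / 4 * ρ := by
      have := hR.trans hρR
      rw [div_le_iff₀ (by positivity)] at this
      linarith
    nlinarith
  · rw [Real.exp_log (by linarith [hM0 ‖s‖])]
    have := hle ‖s‖ s (le_max_left _ _)
    linarith

/-- Cauchy's estimates -/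
lemma Type0.iter {F : ℂ → ℂ} (hd : Differentiable ℂ F) (h : Type0 F) {η c : ℝ} (hη : 0 < η) (hc : 0 < c) :
    ∃ K : ℝ, 0 < K ∧ ∀ (k : ℕ) (s : ℂ), ‖iteratedDeriv (2 * k) F s‖ ≤
      K * k.factorial * η ^ k * Real.exp (c * ‖s‖ ^ 2) := by
  set c0 : ℝ := min (c / 2) (η / (4 * Real.exp 1)) with hc0
  have hc00 : 0 < c0 := by positivity
  have hc01 : 2 * c0 ≤ c := by
    have : c0 ≤ c / 2 := min_le_left _ _
    linarith
  have hc02 : 4 * c0 * Real.exp 1 ≤ η := by
    have : c0 ≤ η / (4 * Real.exp 1) := min_le_right _ _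
    rw [le_div_iff₀ (by positivity)] at this
    linarith
  obtain ⟨K, hK, hb⟩ := h c0 hc00
  refine ⟨K, hK, fun k s => ?_⟩
  rcases Nat.eq_zero_or_pos k with rfl | hk
  · simp only [mul_zero, iteratedDeriv_zero, Nat.factorial_zero, Nat.cast_one, mul_one, pow_zero]
    refine (hb s).trans ?_
    gcongr
    linarith
  · have hk' : (0 : ℝ) < k := by exact_mod_cast hk
    set r : ℝ := Real.sqrt (k / (2 * c0)) with hr
    have hr0 : 0 < r := Real.sqrt_pos.mpr (by positivity)
    have hr2 : r ^ 2 = k / (2 * c0) := Real.sq_sqrt (by positivity)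
    have h1 := Complex.norm_iteratedDeriv_le_of_forall_mem_sphere_norm_le (c := s) (R := r)
      (C := K * (Real.exp (c * ‖s‖ ^ 2) * Real.exp k)) (f := F) (2 * k) hr0 hd.diffContOnCl (fun z hz => by
        refine (hb z).trans ?_
        rw [← Real.exp_add]
        refine mul_le_mul_of_nonneg_left (Real.exp_le_exp.mpr ?_) hK.le
        rw [Metric.mem_sphere, dist_eq_norm] at hz
        have h2 : ‖z‖ ≤ r + ‖s‖ := by
          have := norm_add_le (z - s) s
          rw [sub_add_cancel, hz] at this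
          exact this
        have h3 : ‖z‖ ^ 2 ≤ 2 * r ^ 2 + 2 * ‖s‖ ^ 2 := by
          have := norm_nonneg z
          nlinarith [sq_nonneg (r - ‖s‖)]
        have h4 : c0 * (2 * r ^ 2) = k := by rw [hr2]; field_simp
        have h5 : 2 * c0 * ‖s‖ ^ 2 ≤ c * ‖s‖ ^ 2 := mul_le_mul_of_nonneg_right hc01 (sq_nonneg _)
        nlinarith [mul_le_mul_of_nonneg_left h3 hc00.le])
    refine h1.trans ?_
    rw [pow_mul, hr2, div_pow, div_div_eq_mul_div, div_le_iff₀ (by positivity)]
    -- `(2k)! ≤ (2k)^k k!`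
    have h2 : ((2 * k).factorial : ℝ) ≤ (2 * k) ^ k * k.factorial := by
      have h3 : (2 * k).factorial ≤ (2 * k) ^ k * k.factorial := by
        rw [two_mul]
        calc (k + k).factorial = k.factorial * (k + 1).ascFactorial k := by
              rw [Nat.factorial_mul_ascFactorial]
          _ ≤ k.factorial * (k + k) ^ k := by
              refine Nat.mul_le_mul_left _ ?_
              exact Nat.ascFactorial_le_pow_add k k
          _ = _ := by ring
      exact_mod_cast h3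
    have h3 : Real.exp (k : ℝ) = Real.exp 1 ^ k := by rw [← Real.exp_nat_mul, mul_one]
    have hfac : (0 : ℝ) < k.factorial := by exact_mod_cast Nat.factorial_pos k
    calc ((2 * k).factorial : ℝ) * (K * (Real.exp (c * ‖s‖ ^ 2) * Real.exp k)) * (2 * c0) ^ k
        ≤ ((2 * k) ^ k * k.factorial) * (K * (Real.exp (c * ‖s‖ ^ 2) * Real.exp k)) * (2 * c0) ^ k := by gcongr
      _ = K * k.factorial * ((4 * c0 * Real.exp 1) ^ k * (k : ℝ) ^ k) * Real.exp (c * ‖s‖ ^ 2) := by
          rw [h3, ← mul_pow]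
          have e : (2 * (k : ℝ)) ^ k * Real.exp 1 ^ k * (2 * c0) ^ k = (4 * c0 * Real.exp 1 * k) ^ k := by
            rw [← mul_pow, ← mul_pow]; congr 1; ring
          rw [← e]; ring
      _ ≤ K * k.factorial * (η ^ k * (k : ℝ) ^ k) * Real.exp (c * ‖s‖ ^ 2) := by gcongr
      _ = K * k.factorial * η ^ k * Real.exp (c * ‖s‖ ^ 2) * (k : ℝ) ^ k := by ring

/-- the terms of the series -/
lemma flow_term_bound {F : ℂ → ℂ} (hd : Differentiable ℂ F) (h : Type0 F) (t : ℝ) {c : ℝ} (hc : 0 < c) :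
    ∃ K : ℝ, 0 < K ∧ ∀ (k : ℕ) (s : ℂ), |t| ^ k / (k.factorial : ℝ) * ‖iteratedDeriv (2 * k) F s‖ ≤
      K * Real.exp (c * ‖s‖ ^ 2) * (1 / 2) ^ k := by
  obtain ⟨K, hK, hb⟩ := h.iter hd (η := 1 / (2 * (|t| + 1))) (by positivity) hc
  refine ⟨K, hK, fun k s => ?_⟩
  have hfac : (0 : ℝ) < k.factorial := by exact_mod_cast Nat.factorial_pos k
  have h1 : |t| ^ k * (1 / (2 * (|t| + 1))) ^ k ≤ (1 / 2) ^ k := by
    rw [← mul_pow]
    refine pow_le_pow_left₀ (by positivity) ?_ k
    rw [mul_one_div, div_le_div_iff₀ (by positivity) (by norm_num)]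
    linarith [abs_nonneg t]
  calc |t| ^ k / (k.factorial : ℝ) * ‖iteratedDeriv (2 * k) F s‖
      ≤ |t| ^ k / (k.factorial : ℝ) * (K * k.factorial * (1 / (2 * (|t| + 1))) ^ k * Real.exp (c * ‖s‖ ^ 2)) := by
        gcongr
        exact hb k s
    _ = K * Real.exp (c * ‖s‖ ^ 2) * (|t| ^ k * (1 / (2 * (|t| + 1))) ^ k) := by
        field_simp
    _ ≤ _ := by gcongr

lemma norm_flow_term (t : ℝ) (k : ℕ) (z : ℂ) :
    ‖((t ^ k / (k.factorial : ℝ) : ℝ) : ℂ) * z‖ = |t| ^ k / (k.factorial : ℝ) * ‖z‖ := by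
  rw [norm_mul, Complex.norm_real, Real.norm_eq_abs, abs_div, abs_pow, Nat.abs_cast]

lemma summable_half : Summable fun k : ℕ => ((1 : ℝ) / 2) ^ k := summable_geometric_two

lemma flow_summable {F : ℂ → ℂ} (hd : Differentiable ℂ F) (h : Type0 F) (t : ℝ) (s : ℂ) :
    Summable fun k : ℕ => ‖((t ^ k / (k.factorial : ℝ) : ℝ) : ℂ) * iteratedDeriv (2 * k) F s‖ := by
  obtain ⟨K, hK, hb⟩ := flow_term_bound hd h t one_pos
  refine Summable.of_nonneg_of_le (fun k => norm_nonneg _) (fun k => ?_)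
    (summable_half.mul_left (K * Real.exp (1 * ‖s‖ ^ 2)))
  rw [norm_flow_term]
  exact hb k s

lemma flow_type0 {F : ℂ → ℂ} (hd : Differentiable ℂ F) (h : Type0 F) (t : ℝ) : Type0 (flow t F) := fun c hc => by
  obtain ⟨K, hK, hb⟩ := flow_term_bound hd h t hc
  refine ⟨2 * K, by positivity, fun s => ?_⟩
  unfold flow
  refine (norm_tsum_le_tsum_norm (flow_summable hd h t s)).trans ?_
  have h1 : ∑' k : ℕ, ‖((t ^ k / (k.factorial : ℝ) : ℝ) : ℂ) * iteratedDeriv (2 * k) F s‖ ≤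
      ∑' k : ℕ, K * Real.exp (c * ‖s‖ ^ 2) * (1 / 2) ^ k := by
    refine Summable.tsum_le_tsum (fun k => ?_) (flow_summable hd h t s)
      (summable_half.mul_left (K * Real.exp (c * ‖s‖ ^ 2)))
    rw [norm_flow_term]
    exact hb k s
  refine h1.trans (le_of_eq ?_)
  rw [tsum_mul_left, tsum_geometric_two]
  ring

lemma diff_iter {F : ℂ → ℂ} (hd : Differentiable ℂ F) (n : ℕ) : Differentiable ℂ (iteratedDeriv n F) := by
  induction n with
  | zero => simpa using hd
  | succ n ih => rw [iteratedDeriv_succ]; exact ih.deriv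

lemma Type0.deriv {F : ℂ → ℂ} (hd : Differentiable ℂ F) (h : Type0 F) : Type0 (deriv F) :=
  (SlowGrowth.deriv hd (h.slow hd.continuous)).type0

lemma type0_iter {F : ℂ → ℂ} (hd : Differentiable ℂ F) (h : Type0 F) (n : ℕ) : Type0 (iteratedDeriv n F) := by
  induction n with
  | zero => simpa using h
  | succ n ih => rw [iteratedDeriv_succ]; exact ih.deriv (diff_iter hd n)

lemma flow_hasDerivAt {F : ℂ → ℂ} (hd : Differentiable ℂ F) (h : Type0 F) (t : ℝ) (s : ℂ) :
    HasDerivAt (flow t F) (flow t (deriv F) s) s := by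
  obtain ⟨K, hK, hb⟩ := flow_term_bound hd h t one_pos
  set R : ℝ := ‖s‖ + 1 with hR
  have hU : IsOpen (Metric.ball (0 : ℂ) R) := Metric.isOpen_ball
  have hs : s ∈ Metric.ball (0 : ℂ) R := by rw [Metric.mem_ball, dist_zero_right]; linarith
  have hsum : Summable fun k : ℕ => K * Real.exp (1 * R ^ 2) * ((1 : ℝ) / 2) ^ k := summable_half.mul_left _
  have hdf : ∀ k : ℕ, DifferentiableOn ℂ (fun z => ((t ^ k / (k.factorial : ℝ) : ℝ) : ℂ) * iteratedDeriv (2 * k) F z)
      (Metric.ball (0 : ℂ) R) := fun k => ((diff_iter hd (2 * k)).const_mul _).differentiableOn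
  have hle : ∀ (k : ℕ) (w : ℂ), w ∈ Metric.ball (0 : ℂ) R →
      ‖((t ^ k / (k.factorial : ℝ) : ℝ) : ℂ) * iteratedDeriv (2 * k) F w‖ ≤ K * Real.exp (1 * R ^ 2) * ((1 : ℝ) / 2) ^ k :=
    fun k w hw => by
      rw [norm_flow_term]
      refine (hb k w).trans ?_
      rw [Metric.mem_ball, dist_zero_right] at hw
      have := norm_nonneg w
      gcongr
  have h1 := Complex.differentiableOn_tsum_of_summable_norm hsum hdf hU hle
  have h2 := Complex.hasSum_deriv_of_summable_norm hsum hdf hU hle hs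
  have h3 : DifferentiableAt ℂ (flow t F) s := h1.differentiableAt (hU.mem_nhds hs)
  have h4 : deriv (flow t F) s = flow t (deriv F) s := by
    have h5 := h2.tsum_eq
    rw [← show (∑' k : ℕ, deriv (fun z => ((t ^ k / (k.factorial : ℝ) : ℝ) : ℂ) * iteratedDeriv (2 * k) F z) s) =
      deriv (flow t F) s from h5]
    unfold flow
    refine tsum_congr fun k => ?_
    rw [deriv_const_mul _ (diff_iter hd (2 * k) s)]
    congr 1
    rw [← iteratedDeriv_succ, iteratedDeriv_succ']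
  rw [← h4]
  exact h3.hasDerivAt

lemma flow_differentiable {F : ℂ → ℂ} (hd : Differentiable ℂ F) (h : Type0 F) (t : ℝ) :
    Differentiable ℂ (flow t F) := fun s => (flow_hasDerivAt hd h t s).differentiableAt

lemma iter_flow {F : ℂ → ℂ} (hd : Differentiable ℂ F) (h : Type0 F) (t : ℝ) (n : ℕ) :
    iteratedDeriv n (flow t F) = flow t (iteratedDeriv n F) := by
  induction n with
  | zero => simp
  | succ n ih =>
    rw [iteratedDeriv_succ, ih, iteratedDeriv_succ]
    ext s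
    exact (flow_hasDerivAt (diff_iter hd n) (type0_iter hd h n) t s).deriv

lemma flow_zero (F : ℂ → ℂ) : flow 0 F = F := by
  ext s
  unfold flow
  rw [tsum_eq_single 0]
  · simp
  · intro k hk
    simp [hk]

/-- the semigroup property -/
theorem flow_add {F : ℂ → ℂ} (hd : Differentiable ℂ F) (h : Type0 F) (a b : ℝ) :
    flow a (flow b F) = flow (a + b) F := by
  ext s
  set g : ℕ × ℕ → ℂ := fun p => ((a ^ p.1 / (p.1.factorial : ℝ) : ℝ) : ℂ) * (((b ^ p.2 / (p.2.factorial : ℝ) : ℝ) : ℂ) *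
    iteratedDeriv (2 * p.2 + 2 * p.1) F s) with hg
  -- absolute summability
  obtain ⟨K, hK, hb⟩ := h.iter hd (η := 1 / (4 * (|a| + |b| + 1))) (by positivity) one_pos
  set r : ℝ := 1 / (4 * (|a| + |b| + 1)) with hr
  have hr0 : 0 < r := by positivity
  set E : ℝ := K * Real.exp (1 * ‖s‖ ^ 2) with hE
  have hE0 : 0 < E := by positivity
  have hgb : ∀ p, ‖g p‖ ≤ E * ((1 / 2) ^ p.1 * (1 / 2) ^ p.2) := by
    rintro ⟨j, k⟩
    simp only [hg]
    rw [norm_flow_term, norm_flow_term]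
    have h1 := hb (k + j) s
    have e1 : 2 * (k + j) = 2 * k + 2 * j := by ring
    rw [e1] at h1
    have hj : (0 : ℝ) < j.factorial := by exact_mod_cast Nat.factorial_pos j
    have hk : (0 : ℝ) < k.factorial := by exact_mod_cast Nat.factorial_pos k
    have h2 : ((k + j).factorial : ℝ) ≤ 2 ^ (k + j) * (k.factorial * j.factorial) := by
      have h3 := Nat.add_choose_mul_factorial_mul_factorial k j
      have h4 : (k + j).choose j ≤ 2 ^ (k + j) := Nat.choose_le_two_pow _ _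
      rw [← h3]
      push_cast
      have h5 : (((k + j).choose j : ℕ) : ℝ) ≤ 2 ^ (k + j) := by exact_mod_cast h4
      rw [mul_assoc]
      exact mul_le_mul_of_nonneg_right h5 (by positivity)
    have hsm : |a| * (2 * r) ≤ 1 / 2 := by
      rw [hr, mul_one_div, mul_div_assoc', div_le_div_iff₀ (by positivity) (by norm_num)]
      nlinarith [abs_nonneg a, abs_nonneg b]
    have hsm2 : |b| * (2 * r) ≤ 1 / 2 := by
      rw [hr, mul_one_div, mul_div_assoc', div_le_div_iff₀ (by positivity) (by norm_num)]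
      nlinarith [abs_nonneg a, abs_nonneg b]
    calc |a| ^ j / (j.factorial : ℝ) * (|b| ^ k / (k.factorial : ℝ) * ‖iteratedDeriv (2 * k + 2 * j) F s‖)
        ≤ |a| ^ j / (j.factorial : ℝ) * (|b| ^ k / (k.factorial : ℝ) *
          (K * ((k + j).factorial : ℕ) * r ^ (k + j) * Real.exp (1 * ‖s‖ ^ 2))) := by gcongr
      _ ≤ |a| ^ j / (j.factorial : ℝ) * (|b| ^ k / (k.factorial : ℝ) *
          (K * (2 ^ (k + j) * (k.factorial * j.factorial)) * r ^ (k + j) * Real.exp (1 * ‖s‖ ^ 2))) := by gcongr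
      _ = E * ((|a| * (2 * r)) ^ j * (|b| * (2 * r)) ^ k) := by
          rw [hE, mul_pow |a|, mul_pow |b|, mul_pow 2 r, mul_pow 2 r, pow_add 2, pow_add r]
          field_simp
      _ ≤ E * ((1 / 2) ^ j * (1 / 2) ^ k) := by gcongr
  have hgs : Summable g := by
    refine Summable.of_norm_bounded ?_ hgb
    exact (summable_half.mul_of_nonneg summable_half (fun k => by positivity) (fun k => by positivity)).mul_left E
  have h1 : flow a (flow b F) s = ∑' p, g p := by
    rw [hgs.tsum_prod]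
    unfold flow
    refine tsum_congr fun j => ?_
    have h2 : iteratedDeriv (2 * j) (fun s => ∑' k : ℕ, ((b ^ k / (k.factorial : ℝ) : ℝ) : ℂ) * iteratedDeriv (2 * k) F s) =
      iteratedDeriv (2 * j) (flow b F) := rfl
    rw [h2, iter_flow hd h]
    unfold flow
    rw [← tsum_mul_left]
    refine tsum_congr fun k => ?_
    simp only [hg]
    congr 2
    rw [iteratedDeriv_eq_iterate, iteratedDeriv_eq_iterate, iteratedDeriv_eq_iterate, Function.iterate_add_apply]
  rw [h1, ← (Finset.HasAntidiagonal.sigmaAntidiagonalEquivProd (A := ℕ)).tsum_eq g]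
  have h3 : Summable fun x => g (Finset.HasAntidiagonal.sigmaAntidiagonalEquivProd (A := ℕ) x) :=
    (Finset.HasAntidiagonal.sigmaAntidiagonalEquivProd (A := ℕ)).summable_iff.mpr hgs
  rw [h3.tsum_sigma]
  unfold flow
  refine tsum_congr fun n => ?_
  rw [tsum_fintype]
  have h4 : ∑ x : Finset.HasAntidiagonal.antidiagonal n, g (Finset.HasAntidiagonal.sigmaAntidiagonalEquivProd ⟨n, x⟩) =
      ∑ p ∈ Finset.HasAntidiagonal.antidiagonal n, g p := by
    rw [← Finset.sum_coe_sort (Finset.HasAntidiagonal.antidiagonal n) g]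
    rfl
  rw [h4]
  have h5 : ∀ p ∈ Finset.HasAntidiagonal.antidiagonal n, g p =
      ((a ^ p.1 / (p.1.factorial : ℝ) * (b ^ p.2 / (p.2.factorial : ℝ)) : ℝ) : ℂ) * iteratedDeriv (2 * n) F s := by
    intro p hp
    replace hp : p.1 + p.2 = n := Finset.HasAntidiagonal.mem_antidiagonal.mp hp
    simp only [hg]
    have e : 2 * p.2 + 2 * p.1 = 2 * n := by omega
    rw [e]
    push_cast
    ring
  rw [Finset.sum_congr rfl h5, ← Finset.sum_mul, ← Complex.ofReal_sum]
  congr 2
  rw [(Commute.all a b).add_pow', Finset.sum_div]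
  refine Finset.sum_congr rfl fun p hp => ?_
  replace hp : p.1 + p.2 = n := Finset.HasAntidiagonal.mem_antidiagonal.mp hp
  have h6 := Nat.add_choose_mul_factorial_mul_factorial p.2 p.1
  have h7 : ((n.choose p.1 : ℕ) : ℝ) * (p.2.factorial : ℝ) * (p.1.factorial : ℝ) = (n.factorial : ℝ) := by
    rw [add_comm p.2 p.1, hp] at h6
    exact_mod_cast h6
  have hn : (0 : ℝ) < n.factorial := by exact_mod_cast Nat.factorial_pos n
  have hp1 : (0 : ℝ) < p.1.factorial := by exact_mod_cast Nat.factorial_pos _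
  have hp2 : (0 : ℝ) < p.2.factorial := by exact_mod_cast Nat.factorial_pos _
  rw [nsmul_eq_mul, ← h7]
  have hc : (0 : ℝ) < ((n.choose p.1 : ℕ) : ℝ) := by
    by_contra hcon
    have h8 : ((n.choose p.1 : ℕ) : ℝ) = 0 := le_antisymm (not_lt.mp hcon) (Nat.cast_nonneg _)
    rw [h8] at h7
    simp at h7
    exact hn.ne' (by exact_mod_cast h7.symm)
  field_simp

end Pool.Agent.H487.NB
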