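import Pool.Agent.H487.NB.Core

/-!
# Gamma factors and the analytic conductor
-/

set_option autoImplicit false

open Filter Topology Set
open scoped ComplexConjugate

namespace Pool.Agent.H487.NB

open H353.E H353.F Complex

/-- the analytic conductor at height `y` -/
noncomputable def cond {m : ℕ} (N : ℝ) (μ : Fin m → ℂ) (y : ℝ) : ℝ :=
  N * ∏ j, (1 + ‖(y : ℂ) * I - μ j‖)

lemma cond_one {m : ℕ} {N : ℝ} (hN : 1 ≤ N) (μ : Fin m → ℂ) (y : ℝ) : 1 ≤ cond N μ y := by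
  unfold cond
  have h1 : 1 ≤ ∏ j, (1 + ‖(y : ℂ) * I - μ j‖) := by
    refine Finset.prod_induction _ (fun x => (1 : ℝ) ≤ x) (fun a b ha hb => ?_) le_rfl fun j _ => ?_
    · nlinarith
    · linarith [norm_nonneg ((y : ℂ) * I - μ j)]
  nlinarith

lemma dig_near {μ s : ℂ} (hμ : μ.re ≤ 1 / 2) (hs : 1 ≤ s.re) :
    1 / 2 * Real.log (1 + ‖(s.im : ℂ) * I - μ‖) - 5 ≤
      ((((-(Real.log Real.pi) / 2 : ℝ)) : ℂ) + logDeriv Gamma ((s - μ) / 2) / 2).re ∧
    ((((-(Real.log Real.pi) / 2 : ℝ)) : ℂ) + logDeriv Gamma ((s - μ) / 2) / 2).re ≤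
      1 / 2 * Real.log (1 + ‖(s.im : ℂ) * I - μ‖) + (5 + s.re) := by
  obtain ⟨_, _, hz⟩ := zre hμ hs
  set z : ℂ := (s - μ) / 2 with hzdef
  have h3 := (Complex.abs_re_le_norm _).trans (dig_aux hz)
  rw [sub_re, Complex.log_re] at h3
  obtain ⟨h3a, h3b⟩ := abs_le.mp h3
  have hlp := logpi
  have e2 : ((((-(Real.log Real.pi) / 2 : ℝ)) : ℂ) + logDeriv Gamma z / 2).re =
      -(Real.log Real.pi) / 2 + (logDeriv Gamma z).re / 2 := by
    rw [add_re, ofReal_re, show (2 : ℂ) = ((2 : ℝ) : ℂ) by norm_num, Complex.div_ofReal_re]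
  have hzr : (z + 2).re = (s.re - μ.re) / 2 + 2 := by
    rw [hzdef, add_re, show (2 : ℂ) = ((2 : ℝ) : ℂ) by norm_num, Complex.div_ofReal_re, sub_re, ofReal_re]
  have hzi : (z + 2).im = (s.im - μ.im) / 2 := by
    rw [hzdef, add_im, show (2 : ℂ) = ((2 : ℝ) : ℂ) by norm_num, Complex.div_ofReal_im, sub_im, ofReal_im,
      add_zero]
  have hr := re_le_norm (z + 2)
  have hi := Complex.abs_im_le_norm (z + 2)
  rw [hzr] at hr
  rw [hzi] at hi
  have hpos : 0 < ‖z + 2‖ := by linarith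
  have hw : 0 ≤ ‖(s.im : ℂ) * I - μ‖ := norm_nonneg _
  have lowb : 1 + ‖(s.im : ℂ) * I - μ‖ ≤ 4 * ‖z + 2‖ := by
    have h4 := Complex.norm_le_abs_re_add_abs_im ((s.im : ℂ) * I - μ)
    have e3 : ((s.im : ℂ) * I - μ).re = -μ.re := by simp
    have e4 : ((s.im : ℂ) * I - μ).im = s.im - μ.im := by simp
    rw [e3, e4, abs_neg] at h4
    have h5 : |μ.re| / 2 + 2 ≤ ‖z + 2‖ := by
      rcases le_total 0 μ.re with h | h
      · rw [abs_of_nonneg h]; linarith
      · rw [abs_of_nonpos h]; linarith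
    rw [abs_div, abs_of_pos (by norm_num : (0 : ℝ) < 2)] at hi
    linarith
  have upb : ‖z + 2‖ ≤ (s.re + 2) * (1 + ‖(s.im : ℂ) * I - μ‖) := by
    have e5 : z + 2 = (((s.re / 2 + 2 : ℝ)) : ℂ) + ((s.im : ℂ) * I - μ) / 2 := by
      rw [hzdef]
      have : s = (s.re : ℂ) + s.im * I := (Complex.re_add_im s).symm
      apply Complex.ext
      · simp
        ring
      · simp
    rw [e5]
    refine (norm_add_le _ _).trans ?_
    rw [Complex.norm_real, norm_div, Real.norm_of_nonneg (by linarith), Complex.norm_ofNat]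
    nlinarith
  constructor
  · rw [e2]
    have h6 : Real.log (1 + ‖(s.im : ℂ) * I - μ‖) ≤ Real.log 4 + Real.log ‖z + 2‖ := by
      rw [← Real.log_mul (by norm_num) hpos.ne']
      exact Real.log_le_log (by linarith) lowb
    have h7 : Real.log 4 ≤ 3 / 2 := by
      have h8 : Real.log 4 = 2 * Real.log 2 := by
        rw [show (4 : ℝ) = 2 ^ 2 by norm_num, Real.log_pow]; norm_num
      have := Real.log_two_lt_d9
      linarith
    linarith
  · rw [e2]
    have h6 : Real.log ‖z + 2‖ ≤ Real.log (s.re + 2) + Real.log (1 + ‖(s.im : ℂ) * I - μ‖) := by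
      rw [← Real.log_mul (by linarith) (by linarith)]
      exact Real.log_le_log hpos upb
    have h7 : Real.log (s.re + 2) ≤ s.re + 1 := by
      have := Real.log_le_sub_one_of_pos (show (0:ℝ) < s.re + 2 by linarith)
      linarith
    linarith

lemma gaD_near {m : ℕ} {N : ℝ} (hN : 1 ≤ N) {μ : Fin m → ℂ} (hμ : ∀ j, (μ j).re ≤ 1 / 2) {s : ℂ}
    (hs : 1 ≤ s.re) :
    1 / 2 * Real.log (cond N μ s.im) - 5 * m ≤ (gaD N μ s).re ∧
    (gaD N μ s).re ≤ 1 / 2 * Real.log (cond N μ s.im) + (5 + s.re) * m := by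
  have hN0 : 0 < N := by linarith
  have hp : ∀ j, 0 < 1 + ‖(s.im : ℂ) * I - μ j‖ := fun j => by positivity
  have hpp : 0 < ∏ j, (1 + ‖(s.im : ℂ) * I - μ j‖) := Finset.prod_pos fun j _ => hp j
  have e1 : Real.log (cond N μ s.im) = Real.log N + ∑ j, Real.log (1 + ‖(s.im : ℂ) * I - μ j‖) := by
    unfold cond
    rw [Real.log_mul hN0.ne' hpp.ne', Real.log_prod (fun j _ => (hp j).ne')]
  have h1 := Finset.sum_le_sum (s := (Finset.univ : Finset (Fin m))) fun j _ => (dig_near (hμ j) hs).1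
  have h2 := Finset.sum_le_sum (s := (Finset.univ : Finset (Fin m))) fun j _ => (dig_near (hμ j) hs).2
  rw [Finset.sum_sub_distrib, ← Finset.mul_sum, Finset.sum_const, Finset.card_univ, Fintype.card_fin,
    nsmul_eq_mul] at h1
  rw [Finset.sum_add_distrib, ← Finset.mul_sum, Finset.sum_const, Finset.card_univ, Fintype.card_fin,
    nsmul_eq_mul] at h2
  unfold gaD
  rw [add_re, ofReal_re, re_sum, e1]
  constructor
  · linarith
  · linarith

lemma gp_shift {C : ℝ} {Sg : ℝ → ℝ} {γ D : ℂ → ℂ} (gp : GP C Sg γ D) {e : ℝ} (he : 0 ≤ e) :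
    GP C Sg (fun s => γ (s + e)) (fun s => D (s + e)) := by
  have hC := gp.C_nonneg
  have hre : ∀ s : ℂ, (s + (e : ℂ)).re = s.re + e := fun s => by simp
  refine ⟨fun s hs => ?_, fun s hs => gp.ne _ (by rw [hre]; linarith), fun s hs => ?_,
    fun s hs => gp.im _ (by rw [hre]; linarith), fun s hs => gp.re _ (by rw [hre]; linarith),
    fun K s hs hK => gp.gr K _ (by rw [hre]; linarith) (by rw [hre]; linarith)⟩
  · exact HasDerivAt.comp_add_const s (e : ℂ) (gp.der (s + e) (by rw [hre]; linarith))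
  · obtain ⟨d, hd, hb⟩ := gp.dD (s + e) (by rw [hre]; linarith)
    refine ⟨d, HasDerivAt.comp_add_const s (e : ℂ) hd, hb.trans ?_⟩
    rw [hre]
    exact div_le_div_of_nonneg_left hC (by linarith) (by linarith)

/-- everything about the completed function `ξ(s) = N^{s/2} Λ(s)` -/
structure Facts {m : ℕ} (θ η₁ B : ℝ) (N : ℝ) (μ : Fin m → ℂ) (X : ℂ → ℂ) (ε : ℂ) : Prop where
  near : Near (6 * m) B (1 + θ + η₁) (fun K => 4 * Real.exp (2 * |K| + 10)) X (gaf N μ) (gaD N μ)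
  slow : SlowGrowth X
  fe : ∀ s : ℂ, X s = ε * conj (X (1 - conj s))
  bdd : ∃ M, ∀ z : ℂ, -3 ≤ z.re → z.re ≤ 4 → ‖X z‖ ≤ Real.exp (M * (1 + |z.im|))

theorem facts (m : ℕ) (hm : 1 ≤ m) {θ η₁ : ℝ} (hθ0 : 0 ≤ θ) (hθ1 : θ ≤ 1 / 2) (hη : 0 < η₁) :
    ∃ B : ℝ, 1 ≤ B ∧ ∀ (N : ℝ) (μ : Fin m → ℂ) (α : Fin m → ℕ → ℂ) (ε : ℂ) (Λ : ℂ → ℂ),
    DatumT θ N μ α ε Λ → Facts θ η₁ B N μ (fun z => (N : ℂ) ^ (z / 2) * Λ z) ε := by
  have hm' : (1 : ℝ) ≤ m := by exact_mod_cast hm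
  obtain ⟨B1, hB1, hBc⟩ := euler_close m
  obtain ⟨B2, hB2, hBe⟩ := euler_two m hη
  refine ⟨B2, hB2, fun N μ α ε Λ d => ?_⟩
  set σ : ℝ := 1 + θ + η₁ with hσ
  have hσ1 : 1 ≤ σ := by linarith
  set C : ℝ := 6 * m with hC
  have hC1 : 1 ≤ C := by rw [hC]; linarith
  have hN := d.one_le
  have hN0 : 0 < N := by linarith
  have hNc : (N : ℂ) ≠ 0 := by exact_mod_cast hN0.ne'
  set X : ℂ → ℂ := fun z => (N : ℂ) ^ (z / 2) * Λ z with hX
  have gp := gaf_GP hm hN d.re_le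
  have hnorm : ∀ j, ∀ p : ℕ, p.Prime → ‖α j p‖ ≤ Real.sqrt p := fun j p hp => by
    refine (d.norm_le j p hp).trans ?_
    rw [Real.sqrt_eq_rpow]
    have : (1 : ℝ) ≤ p := by exact_mod_cast hp.one_le
    exact Real.rpow_le_rpow_of_exponent_le this hθ1
  have hXd : Differentiable ℂ X := by
    refine Differentiable.mul (fun z => ?_) d.entire
    exact (((hasDerivAt_id z).div_const 2).const_cpow (c := (N : ℂ)) (Or.inl hNc)).differentiableAt
  have hXe : ∀ z : ℂ, 1 + θ < z.re → X z = gaf N μ z * euler α z := fun z hz => by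
    simp only [hX, gaf]
    rw [d.euler z hz, mul_assoc]
    rfl
  have hclose : ∀ z : ℂ, 4 ≤ z.re → ‖X z - gaf N μ z‖ ≤ B1 * (1 / 2 : ℝ) ^ z.re * ‖gaf N μ z‖ :=
    fun z hz => by
      have e : X z - gaf N μ z = (euler α z - 1) * gaf N μ z := by
        rw [hXe z (by linarith)]
        ring
      rw [e, norm_mul]
      exact mul_le_mul_of_nonneg_right (hBc α hnorm z hz) (norm_nonneg _)
  have hfe : ∀ z : ℂ, X z = ε * conj (X (1 - conj z)) := fun z => by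
    simp only [hX]
    rw [map_mul, conj_cpow_real hN0]
    have e1 : conj ((1 - conj z) / 2) = (1 - z) / 2 := by
      rw [map_div₀, map_sub, Complex.conj_conj, map_one, map_ofNat]
    have e2 : (N : ℂ) ^ (z / 2) * (N : ℂ) ^ (1 / 2 - z) = (N : ℂ) ^ ((1 - z) / 2) := by
      rw [← cpow_add _ _ hNc]
      congr 1
      ring
    rw [e1, d.fe z, ← e2]
    ring
  have hbdd : ∃ M, ∀ z : ℂ, -3 ≤ z.re → z.re ≤ 4 → ‖X z‖ ≤ Real.exp (M * (1 + |z.im|)) := by
    obtain ⟨M, hM⟩ := d.bdd (-3) 4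
    refine ⟨Real.log (N ^ (2 : ℝ)) + M, fun z h1 h2 => ?_⟩
    simp only [hX]
    rw [norm_mul, Complex.norm_cpow_eq_rpow_re_of_pos hN0]
    have e : (z / 2).re = z.re / 2 := by
      rw [show (2 : ℂ) = ((2 : ℝ) : ℂ) by norm_num, Complex.div_ofReal_re]
    rw [e]
    have h3 : N ^ (z.re / 2) ≤ N ^ (2 : ℝ) := Real.rpow_le_rpow_of_exponent_le hN (by linarith)
    have h4 := hM z h1 h2
    have h5 : 0 < N ^ (2 : ℝ) := Real.rpow_pos_of_pos hN0 _
    have h6 : 1 ≤ N ^ (2 : ℝ) := Real.one_le_rpow hN (by norm_num)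
    refine (mul_le_mul h3 h4 (norm_nonneg _) h5.le).trans ?_
    rw [add_mul, Real.exp_add]
    refine mul_le_mul_of_nonneg_right ?_ (Real.exp_pos _).le
    have h7 := Real.log_nonneg h6
    have h8 := abs_nonneg z.im
    calc N ^ (2 : ℝ) = Real.exp (Real.log (N ^ (2 : ℝ))) := (Real.exp_log h5).symm
      _ ≤ Real.exp (Real.log (N ^ (2 : ℝ)) * (1 + |z.im|)) := by
        apply Real.exp_le_exp.mpr
        nlinarith
  have L : LD (6 * m) ((1 + B1) * Real.exp (6 * m * 7)) (fun K => 4 * Real.exp (2 * |K| + 10)) X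
      (gaf N μ) (gaD N μ) :=
    LD_of gp hC1 hB1 hXd hclose ⟨ε, d.norm_eq, hfe⟩ hbdd
  have hcond1 : 1 ≤ N * ∏ j, (1 + ‖μ j‖) := by
    have h1 : 1 ≤ ∏ j, (1 + ‖μ j‖) := by
      refine Finset.prod_induction _ (fun x => (1 : ℝ) ≤ x) (fun a b ha hb => ?_) le_rfl fun j _ => ?_
      · nlinarith
      · linarith [norm_nonneg (μ j)]
    nlinarith
  have hslow : SlowGrowth X := by
    refine slow_of L (a := Real.log (N * ∏ j, (1 + ‖μ j‖)) + 7 * m) (k := m) ?_ (by linarith) fun z hz => ?_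
    · have := Real.log_nonneg hcond1
      linarith
    · have := gaD_norm hN d.re_le hz
      linarith
  refine ⟨⟨gp, hB2, hσ1, hXd, fun z hz => ?_, fun z hz => ?_⟩, hslow, hfe, hbdd⟩
  · rw [hXe z (by linarith), norm_mul, mul_comm]
    exact mul_le_mul_of_nonneg_right (hBe θ α d.norm_le z hz).1 (norm_nonneg _)
  · rw [hXe z (by linarith), norm_mul]
    have h3 := (hBe θ α d.norm_le z hz).2
    have h4 := norm_nonneg (gaf N μ z)
    calc ‖gaf N μ z‖ = ‖gaf N μ z‖ * 1 := by ring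
      _ ≤ ‖gaf N μ z‖ * (B2 * ‖euler α z‖) := by gcongr
      _ = _ := by ring

end Pool.Agent.H487.NB
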