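import Pool.Agent.H487.NB.Corr

/-!
# The heat flow `e^{t D²}` by Gaussian averages along horizontal lines
-/

set_option autoImplicit false

open MeasureTheory Set Filter Topology
open scoped ComplexConjugate

namespace Pool.Agent.H487.NB

/-- growth of order less than two (or of order two and type zero) -/
def SlowGrowth (F : ℂ → ℂ) : Prop :=
  ∃ E : ℝ → ℝ, Monotone E ∧ Tendsto (fun ρ => E ρ / ρ ^ 2) atTop (𝓝 0) ∧ ∀ s, ‖F s‖ ≤ Real.exp (E ‖s‖)

/-- `(4πt)^{-1/2} ∫ F(s + x) e^{-x²/4t} dx` -/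
noncomputable def heat (t : ℝ) (F : ℂ → ℂ) (s : ℂ) : ℂ :=
  ((1 / Real.sqrt (4 * Real.pi * t) : ℝ) : ℂ) * ∫ x : ℝ, F (s + x) * ((Real.exp (-(x ^ 2 / (4 * t))) : ℝ) : ℂ)

lemma SlowGrowth.bound {F : ℂ → ℂ} (h : SlowGrowth F) {c : ℝ} (hc : 0 < c) (a : ℝ) :
    ∃ K : ℝ, 0 < K ∧ ∀ s : ℂ, ∀ r : ℝ, 0 ≤ r → ‖s‖ ≤ a + r → ‖F s‖ ≤ K * Real.exp (c * r ^ 2) := by
  obtain ⟨E, hE, hEt, hb⟩ := h
  have h1 : Tendsto (fun ρ : ℝ => ρ + a) atTop atTop := tendsto_atTop_add_const_right _ _ tendsto_id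
  have h2 := hEt.comp h1
  have h3 : Tendsto (fun ρ : ℝ => (1 + a / ρ) ^ 2) atTop (𝓝 ((1 + 0) ^ 2)) :=
    (tendsto_const_nhds.add (tendsto_const_nhds.div_atTop tendsto_id)).pow 2
  have h4 := h2.mul h3
  rw [zero_mul] at h4
  have h5 : ∀ᶠ ρ : ℝ in atTop, E (ρ + a) ≤ c * ρ ^ 2 := by
    filter_upwards [h4.eventually (gt_mem_nhds hc), eventually_gt_atTop 0, eventually_gt_atTop (-a)] with ρ h5 h6 h7
    simp only [Function.comp] at h5
    have h8 : ρ + a ≠ 0 := by linarith
    have e : E (ρ + a) / (ρ + a) ^ 2 * (1 + a / ρ) ^ 2 = E (ρ + a) / ρ ^ 2 := by field_simp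
    rw [e, div_lt_iff₀ (by positivity)] at h5
    exact h5.le
  obtain ⟨ρ0, hρ0⟩ := eventually_atTop.mp h5
  set ρ1 := max ρ0 0 with hρ1
  refine ⟨Real.exp (|E (ρ1 + a)|), Real.exp_pos _, fun s r hr hs => ?_⟩
  refine (hb s).trans ?_
  rw [← Real.exp_add]
  apply Real.exp_le_exp.mpr
  have h6 : E ‖s‖ ≤ E (r + a) := hE (by linarith)
  have h7 : 0 ≤ c * r ^ 2 := by positivity
  have h8 := abs_nonneg (E (ρ1 + a))
  rcases le_total ρ1 r with h9 | h9
  · have := hρ0 r ((le_max_left _ _).trans h9)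
    linarith
  · have h10 : E (r + a) ≤ E (ρ1 + a) := hE (by linarith)
    have := le_abs_self (E (ρ1 + a))
    linarith

lemma gauss_integrable {c : ℝ} (hc : 0 < c) (a : ℝ) :
    Integrable fun x : ℝ => Real.exp (a * |x|) * Real.exp (-(c * x ^ 2)) := by
  have h1 : Integrable fun x : ℝ => Real.exp (a ^ 2 / (2 * c)) * Real.exp (-(c / 2) * x ^ 2) :=
    (integrable_exp_neg_mul_sq (half_pos hc)).const_mul _
  refine h1.mono' ?_ (Eventually.of_forall fun x => ?_)
  · exact (by fun_prop : Continuous fun x : ℝ => Real.exp (a * |x|) * Real.exp (-(c * x ^ 2))).aestronglyMeasurable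
  · rw [Real.norm_of_nonneg (by positivity), ← Real.exp_add, ← Real.exp_add]
    apply Real.exp_le_exp.mpr
    have h2 : a * |x| ≤ a ^ 2 / (2 * c) + c / 2 * x ^ 2 := by
      rw [← sq_abs x]
      have h3 : 0 ≤ (a - c * |x|) ^ 2 / (2 * c) := by positivity
      have e : (a - c * |x|) ^ 2 / (2 * c) = a ^ 2 / (2 * c) + c / 2 * |x| ^ 2 - a * |x| := by
        field_simp
        ring
      linarith
    linarith

lemma heat_integrable {F : ℂ → ℂ} (hF : Continuous F) (hs : SlowGrowth F) {t : ℝ} (ht : 0 < t) (s : ℂ)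
    (a : ℝ) : Integrable fun x : ℝ => F (s + x) * ((Real.exp (-(x ^ 2 / (4 * t))) : ℝ) : ℂ) *
      ((Real.exp (a * x) : ℝ) : ℂ) := by
  obtain ⟨K, hK, hb⟩ := hs.bound (c := 1 / (8 * t)) (by positivity) ‖s‖
  have h1 : Integrable fun x : ℝ => K * (Real.exp (|a| * |x|) * Real.exp (-(1 / (8 * t) * x ^ 2))) :=
    (gauss_integrable (by positivity) _).const_mul _
  refine h1.mono' ?_ (Eventually.of_forall fun x => ?_)
  · refine Continuous.aestronglyMeasurable ?_
    have hc1 : Continuous fun x : ℝ => F (s + x) := hF.comp (by fun_prop)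
    have hc2 : Continuous fun x : ℝ => ((Real.exp (-(x ^ 2 / (4 * t))) : ℝ) : ℂ) :=
      Complex.continuous_ofReal.comp (Real.continuous_exp.comp (by fun_prop))
    have hc3 : Continuous fun x : ℝ => ((Real.exp (a * x) : ℝ) : ℂ) :=
      Complex.continuous_ofReal.comp (Real.continuous_exp.comp (by fun_prop))
    exact (hc1.mul hc2).mul hc3
  · rw [norm_mul, norm_mul, Complex.norm_real, Complex.norm_real, Real.norm_of_nonneg (Real.exp_pos _).le,
      Real.norm_of_nonneg (Real.exp_pos _).le]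
    have h2 := hb (s + x) |x| (abs_nonneg x) (by
      refine (norm_add_le _ _).trans ?_
      rw [Complex.norm_real, Real.norm_eq_abs])
    have h3 : Real.exp (a * x) ≤ Real.exp (|a| * |x|) := by
      apply Real.exp_le_exp.mpr
      rw [← abs_mul]
      exact le_abs_self _
    have e : Real.exp (1 / (8 * t) * |x| ^ 2) * Real.exp (-(x ^ 2 / (4 * t))) = Real.exp (-(1 / (8 * t) * x ^ 2)) := by
      rw [← Real.exp_add, sq_abs]
      congr 1
      field_simp
      ring
    calc ‖F (s + x)‖ * Real.exp (-(x ^ 2 / (4 * t))) * Real.exp (a * x)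
        ≤ (K * Real.exp (1 / (8 * t) * |x| ^ 2)) * Real.exp (-(x ^ 2 / (4 * t))) * Real.exp (|a| * |x|) := by
          gcongr
      _ = K * (Real.exp (|a| * |x|) * (Real.exp (1 / (8 * t) * |x| ^ 2) * Real.exp (-(x ^ 2 / (4 * t))))) := by ring
      _ = K * (Real.exp (|a| * |x|) * Real.exp (-(1 / (8 * t) * x ^ 2))) := by rw [e]

lemma hh_integrable {F : ℂ → ℂ} (hF : Continuous F) (hs : SlowGrowth F) {t : ℝ} (ht : 0 < t) (s : ℂ)
    (a : ℝ) : Integrable fun u : ℝ => hh t (fun u => F (s + u)) u * ((Real.exp (a * u) : ℝ) : ℂ) := by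
  have := (heat_integrable hF hs ht s a).indicator (measurableSet_Ici (a := (0 : ℝ)))
  refine this.congr (Eventually.of_forall fun u => ?_)
  simp only []
  by_cases hu : 0 ≤ u
  · rw [indicator_of_mem (mem_Ici.mpr hu), hh_pos hu]
  · rw [indicator_of_notMem (fun h => hu (mem_Ici.mp h)), hh_neg (by linarith), zero_mul]

/-- **decomposition of the Gaussian average at `c + X`, `c` on the critical line.** -/
theorem heat_split {F : ℂ → ℂ} (hF : Continuous F) (hs : SlowGrowth F) {ε : ℂ}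
    (hfe : ∀ s, F s = ε * conj (F (1 - conj s))) {t : ℝ} (ht : 0 < t) (y X : ℝ) :
    heat t F (1 / 2 + y * Complex.I + X) =
      ((1 / Real.sqrt (4 * Real.pi * t) * Real.exp (-(X ^ 2 / (4 * t))) : ℝ) : ℂ) *
        (KK (hh t fun u => F (1 / 2 + y * Complex.I + u)) (X / (2 * t)) +
          ε * conj (KK (hh t fun u => F (1 / 2 + y * Complex.I + u)) (-(X / (2 * t))))) := by
  set c : ℂ := 1 / 2 + y * Complex.I with hc
  set f : ℝ → ℂ := fun u => F (c + u) with hf
  set a : ℝ := X / (2 * t) with ha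
  unfold heat
  rw [Complex.ofReal_mul (1 / Real.sqrt (4 * Real.pi * t)), mul_assoc ((1 / Real.sqrt (4 * Real.pi * t) : ℝ) : ℂ)]
  congr 1
  have e1 : ∫ x : ℝ, F (c + X + x) * ((Real.exp (-(x ^ 2 / (4 * t))) : ℝ) : ℂ) =
      ∫ u : ℝ, F (c + u) * ((Real.exp (-((u - X) ^ 2 / (4 * t))) : ℝ) : ℂ) := by
    rw [← integral_sub_right_eq_self (fun x : ℝ => F (c + X + x) * ((Real.exp (-(x ^ 2 / (4 * t))) : ℝ) : ℂ)) X]
    refine integral_congr_ae (Eventually.of_forall fun u => ?_)
    simp only []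
    congr 2
    push_cast
    ring
  have hconj : ∀ u : ℝ, F (c - u) = ε * conj (f u) := fun u => by
    rw [hfe (c - u)]
    simp only [hf]
    congr 3
    simp only [hc]
    apply Complex.ext <;> simp
    ring
  have i1 : Integrable fun u : ℝ => hh t f u * ((Real.exp (a * u) : ℝ) : ℂ) := hh_integrable hF hs ht c a
  have i2 : Integrable fun u : ℝ => hh t f u * ((Real.exp (-a * u) : ℝ) : ℂ) := hh_integrable hF hs ht c (-a)
  have i3 : Integrable fun u : ℝ => hh t f (-u) * ((Real.exp (-a * -u) : ℝ) : ℂ) := i2.comp_neg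
  have i4 : Integrable fun u : ℝ => conj (hh t f (-u) * ((Real.exp (-a * -u) : ℝ) : ℂ)) := by
    exact (RCLike.conjCLE (K := ℂ)).integrable_comp_iff.mpr i3
  have e2 : ∫ u : ℝ, F (c + u) * ((Real.exp (-((u - X) ^ 2 / (4 * t))) : ℝ) : ℂ) =
      ∫ u : ℝ, ((Real.exp (-(X ^ 2 / (4 * t))) : ℝ) : ℂ) * (hh t f u * ((Real.exp (a * u) : ℝ) : ℂ) +
        ε * conj (hh t f (-u) * ((Real.exp (-a * -u) : ℝ) : ℂ))) := by
    refine integral_congr_ae ?_
    have hne : ∀ᵐ u : ℝ, u ≠ 0 := by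
      have : ({0}ᶜ : Set ℝ) ∈ ae volume := compl_mem_ae_iff.mpr (by simp)
      filter_upwards [this] with u hu using hu
    filter_upwards [hne] with u hu
    have eexp : Real.exp (-((u - X) ^ 2 / (4 * t))) =
        Real.exp (-(X ^ 2 / (4 * t))) * (Real.exp (-(u ^ 2 / (4 * t))) * Real.exp (a * u)) := by
      rw [← Real.exp_add, ← Real.exp_add]
      congr 1
      rw [ha]
      field_simp
      ring
    rcases lt_or_gt_of_ne hu with h | h
    · rw [hh_neg h, hh_pos (u := -u) (by linarith), zero_mul, zero_add, neg_sq, map_mul, map_mul,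
        Complex.conj_ofReal, Complex.conj_ofReal, eexp]
      have e3 : F (c + u) = ε * conj (f (-u)) := by
        rw [← hconj (-u)]
        congr 1
        push_cast
        ring
      have e4 : -a * -u = a * u := by ring
      rw [e3, e4]
      push_cast
      ring
    · rw [hh_neg (u := -u) (by linarith), hh_pos h.le, zero_mul, map_zero, mul_zero, add_zero, eexp]
      simp only [hf]
      push_cast
      ring
  rw [e1, e2, integral_const_mul, integral_add i1 (i4.const_mul _), integral_const_mul]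
  congr 2
  unfold KK
  congr 1
  rw [integral_conj]
  congr 1
  have := integral_neg_eq_self (fun u : ℝ => hh t f u * ((Real.exp (-a * u) : ℝ) : ℂ)) volume
  simpa using this

end Pool.Agent.H487.NB
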