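import Pool.Agent.H487.NB.Flow

/-!
# Gaussian averages are `e^{t D²}`
-/

set_option autoImplicit false

open MeasureTheory Set Filter Topology

namespace Pool.Agent.H487.NB

lemma moment_odd {t : ℝ} (n : ℕ) (hn : Odd n) : ∫ x : ℝ, x ^ n * Real.exp (-(x ^ 2 / (4 * t))) = 0 := by
  have h1 := integral_neg_eq_self (fun x : ℝ => x ^ n * Real.exp (-(x ^ 2 / (4 * t)))) volume
  have h2 : ∫ x : ℝ, (-x) ^ n * Real.exp (-((-x) ^ 2 / (4 * t))) = -∫ x : ℝ, x ^ n * Real.exp (-(x ^ 2 / (4 * t))) := by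
    rw [← integral_neg]
    refine integral_congr_ae (Eventually.of_forall fun x => ?_)
    simp only [hn.neg_pow, neg_sq, neg_mul]
  rw [h2] at h1
  linarith

lemma moment_even {t : ℝ} (ht : 0 < t) (k : ℕ) : ∫ x : ℝ, x ^ (2 * k) * Real.exp (-(x ^ 2 / (4 * t))) =
    Real.sqrt (4 * Real.pi * t) * (t ^ k * (2 * k).factorial / k.factorial) := by
  have h1 : ∫ x : ℝ, x ^ (2 * k) * Real.exp (-(x ^ 2 / (4 * t))) =
      2 * ∫ x in Ioi (0 : ℝ), x ^ (2 * (k : ℝ)) * Real.exp (-(1 / (4 * t)) * x ^ (2 : ℝ)) := by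
    have h2 := integral_comp_abs (f := fun x : ℝ => x ^ (2 * k) * Real.exp (-(x ^ 2 / (4 * t))))
    simp only [sq_abs, pow_mul] at h2
    simp only [pow_mul]
    rw [h2]
    congr 1
    refine setIntegral_congr_fun measurableSet_Ioi fun x hx => ?_
    have hx0 : (0 : ℝ) < x := hx
    have e1 : x ^ (2 * (k : ℝ)) = (x ^ 2) ^ k := by
      rw [Real.rpow_mul hx0.le, Real.rpow_two, Real.rpow_natCast]
    have e2 : x ^ (2 : ℝ) = x ^ 2 := Real.rpow_two x
    rw [e1, e2]
    congr 2
    ring
  have h2 := integral_rpow_mul_exp_neg_mul_rpow (p := 2) (q := 2 * (k : ℝ)) (b := 1 / (4 * t)) (by norm_num)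
    (by have : (0 : ℝ) ≤ k := Nat.cast_nonneg k; linarith) (by positivity)
  rw [h1, h2]
  have hb : (1 / (4 * t)) ^ (-(2 * (k : ℝ) + 1) / 2) = Real.sqrt (4 * t) * (4 * t) ^ k := by
    rw [one_div, Real.inv_rpow (by positivity), ← Real.rpow_neg (by positivity)]
    have e : -(-(2 * (k : ℝ) + 1) / 2) = 1 / 2 + k := by ring
    rw [e, Real.rpow_add (by positivity), Real.rpow_natCast, ← Real.sqrt_eq_rpow]
  have hG : ∀ k : ℕ, Real.Gamma ((2 * (k : ℝ) + 1) / 2) = Real.sqrt Real.pi * ((2 * k).factorial / (4 ^ k * k.factorial)) := by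
    intro k
    induction k with
    | zero =>
      simp only [Nat.cast_zero, mul_zero, zero_add, Nat.factorial_zero, Nat.cast_one, pow_zero, mul_one, div_one]
      exact Real.Gamma_one_half_eq
    | succ n ih =>
      have e : (2 * ((n + 1 : ℕ) : ℝ) + 1) / 2 = (2 * (n : ℝ) + 1) / 2 + 1 := by push_cast; ring
      rw [e, Real.Gamma_add_one (by positivity), ih]
      have e2 : 2 * (n + 1) = 2 * n + 1 + 1 := by ring
      rw [e2, Nat.factorial_succ, Nat.factorial_succ, Nat.factorial_succ, pow_succ]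
      push_cast
      have h3 : (0 : ℝ) < n.factorial := by exact_mod_cast Nat.factorial_pos n
      field_simp
      ring
  rw [hb, hG k]
  have e3 : Real.sqrt (4 * Real.pi * t) = Real.sqrt (4 * t) * Real.sqrt Real.pi := by
    rw [← Real.sqrt_mul (by positivity)]; congr 1; ring
  rw [e3, mul_pow]
  have h3 : (0 : ℝ) < k.factorial := by exact_mod_cast Nat.factorial_pos k
  field_simp

theorem heat_eq_flow {F : ℂ → ℂ} (hd : Differentiable ℂ F) (h : Type0 F) {t : ℝ} (ht : 0 < t) :
    heat t F = flow t F := by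
  ext s
  obtain ⟨K, hK, hb⟩ := h (1 / (128 * t)) (by positivity)
  set c : ℝ := 1 / (128 * t) with hc
  have hc0 : 0 < c := by positivity
  set K' : ℝ := K * Real.exp (2 * c * ‖s‖ ^ 2 + 4 * c) with hK'
  have hK'0 : 0 < K' := by positivity
  have hder : ∀ (n : ℕ) (x : ℝ), ‖iteratedDeriv n F s‖ * |x| ^ n / n.factorial ≤
      (1 / 2) ^ n * (K' * Real.exp (x ^ 2 / (8 * t))) := by
    intro n x
    set r : ℝ := 2 * |x| + 1 with hr
    have hx0 := abs_nonneg x
    have hr0 : 0 < r := by linarith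
    have h1 := Complex.norm_iteratedDeriv_le_of_forall_mem_sphere_norm_le (c := s) (R := r)
      (C := K' * Real.exp (x ^ 2 / (8 * t))) (f := F) n hr0 hd.diffContOnCl (fun z hz => by
        refine (hb z).trans ?_
        rw [hK', mul_assoc, ← Real.exp_add]
        refine mul_le_mul_of_nonneg_left (Real.exp_le_exp.mpr ?_) hK.le
        rw [Metric.mem_sphere, dist_eq_norm] at hz
        have h2 : ‖z‖ ≤ r + ‖s‖ := by
          have := norm_add_le (z - s) s
          rw [sub_add_cancel, hz] at this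
          exact this
        have h3 : ‖z‖ ^ 2 ≤ 2 * r ^ 2 + 2 * ‖s‖ ^ 2 := by
          have := norm_nonneg z
          nlinarith [sq_nonneg (r - ‖s‖)]
        have h4 : r ^ 2 ≤ 8 * x ^ 2 + 2 := by
          rw [hr, ← sq_abs x]
          nlinarith [sq_nonneg (2 * |x| - 1)]
        have h5 : c * (16 * x ^ 2) = x ^ 2 / (8 * t) := by rw [hc]; field_simp; ring
        nlinarith [mul_le_mul_of_nonneg_left h3 hc0.le, mul_le_mul_of_nonneg_left h4 hc0.le])
    have hfac : (0 : ℝ) < n.factorial := by exact_mod_cast Nat.factorial_pos n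
    have h2 : |x| ^ n / r ^ n ≤ (1 / 2) ^ n := by
      rw [← div_pow]
      refine pow_le_pow_left₀ (by positivity) ?_ n
      rw [div_le_div_iff₀ hr0 (by norm_num)]
      linarith
    calc ‖iteratedDeriv n F s‖ * |x| ^ n / n.factorial
        ≤ (n.factorial * (K' * Real.exp (x ^ 2 / (8 * t))) / r ^ n) * |x| ^ n / n.factorial := by gcongr
      _ = (|x| ^ n / r ^ n) * (K' * Real.exp (x ^ 2 / (8 * t))) := by field_simp
      _ ≤ _ := by gcongr
  -- the expansion under the integral
  have hsum := hasSum_integral_of_dominated_convergence (μ := (volume : Measure ℝ))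
    (F := fun (n : ℕ) (x : ℝ) => (iteratedDeriv n F s / n.factorial) * (((x ^ n * Real.exp (-(x ^ 2 / (4 * t))) : ℝ)) : ℂ))
    (f := fun x : ℝ => F (s + x) * ((Real.exp (-(x ^ 2 / (4 * t))) : ℝ) : ℂ))
    (fun n x => (1 / 2) ^ n * (K' * Real.exp (-(1 / (8 * t)) * x ^ 2))) ?_ ?_ ?_ ?_ ?_
  · -- identify the terms
    have hterm : ∀ n : ℕ, ∫ x : ℝ, (iteratedDeriv n F s / n.factorial) *
        (((x ^ n * Real.exp (-(x ^ 2 / (4 * t))) : ℝ)) : ℂ) =
        (iteratedDeriv n F s / n.factorial) * ((∫ x : ℝ, x ^ n * Real.exp (-(x ^ 2 / (4 * t))) : ℝ) : ℂ) := fun n => by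
      rw [integral_const_mul]
      congr 1
      exact integral_ofReal
    simp only [hterm] at hsum
    have hinj : Function.Injective (fun k : ℕ => 2 * k) := fun a b hab => by
      simp only [] at hab; omega
    have hzero : ∀ n ∉ Set.range (fun k : ℕ => 2 * k), (iteratedDeriv n F s / n.factorial) *
        ((∫ x : ℝ, x ^ n * Real.exp (-(x ^ 2 / (4 * t))) : ℝ) : ℂ) = 0 := fun n hn => by
      rw [moment_odd n]
      · simp
      · rw [← Nat.not_even_iff_odd]
        rintro ⟨k, hk⟩
        exact hn ⟨k, by simp only []; omega⟩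
    have h3 := (hinj.hasSum_iff hzero).mpr hsum
    have hs0 : Real.sqrt (4 * Real.pi * t) ≠ 0 := by
      have := Real.pi_pos
      positivity
    have h4 := h3.mul_left (((1 / Real.sqrt (4 * Real.pi * t) : ℝ)) : ℂ)
    have h5 : heat t F s = ((1 / Real.sqrt (4 * Real.pi * t) : ℝ) : ℂ) *
        ∫ x : ℝ, F (s + x) * ((Real.exp (-(x ^ 2 / (4 * t))) : ℝ) : ℂ) := rfl
    rw [← h5] at h4
    rw [← h4.tsum_eq]
    unfold flow
    refine tsum_congr fun k => ?_
    simp only [Function.comp]
    rw [moment_even ht k]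
    have hk1 : (0 : ℝ) < k.factorial := by exact_mod_cast Nat.factorial_pos k
    have hk2 : (0 : ℝ) < (2 * k).factorial := by exact_mod_cast Nat.factorial_pos _
    have e : (((1 / Real.sqrt (4 * Real.pi * t) : ℝ)) : ℂ) * (iteratedDeriv (2 * k) F s / ((2 * k).factorial : ℂ) *
        ((Real.sqrt (4 * Real.pi * t) * (t ^ k * (2 * k).factorial / k.factorial) : ℝ) : ℂ)) =
        (((1 / Real.sqrt (4 * Real.pi * t)) * (1 / (2 * k).factorial) * (Real.sqrt (4 * Real.pi * t) *
          (t ^ k * (2 * k).factorial / k.factorial)) : ℝ) : ℂ) * iteratedDeriv (2 * k) F s := by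
      push_cast
      ring
    rw [e]
    congr 2
    field_simp
  · intro n
    refine Continuous.aestronglyMeasurable ?_
    exact continuous_const.mul (Complex.continuous_ofReal.comp (by fun_prop))
  · intro n
    refine Eventually.of_forall fun x => ?_
    have hfac : (0 : ℝ) < n.factorial := by exact_mod_cast Nat.factorial_pos n
    rw [norm_mul, norm_div, Complex.norm_natCast, Complex.norm_real, norm_mul, norm_pow, Real.norm_eq_abs,
      Real.norm_of_nonneg (Real.exp_pos _).le]
    have h1 := hder n x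
    have e : Real.exp (x ^ 2 / (8 * t)) * Real.exp (-(x ^ 2 / (4 * t))) = Real.exp (-(1 / (8 * t)) * x ^ 2) := by
      rw [← Real.exp_add]
      congr 1
      field_simp
      ring
    calc ‖iteratedDeriv n F s‖ / n.factorial * (|x| ^ n * Real.exp (-(x ^ 2 / (4 * t))))
        = (‖iteratedDeriv n F s‖ * |x| ^ n / n.factorial) * Real.exp (-(x ^ 2 / (4 * t))) := by ring
      _ ≤ ((1 / 2) ^ n * (K' * Real.exp (x ^ 2 / (8 * t)))) * Real.exp (-(x ^ 2 / (4 * t))) := by gcongr
      _ = _ := by rw [← e]; ring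
  · exact Eventually.of_forall fun x => summable_half.mul_right _
  · have h1 : (fun x : ℝ => ∑' n : ℕ, ((1 : ℝ) / 2) ^ n * (K' * Real.exp (-(1 / (8 * t)) * x ^ 2))) =
        fun x : ℝ => 2 * K' * Real.exp (-(1 / (8 * t)) * x ^ 2) := by
      ext x
      rw [tsum_mul_right, tsum_geometric_two]
      ring
    rw [h1]
    exact (integrable_exp_neg_mul_sq (by positivity)).const_mul _
  · refine Eventually.of_forall fun x => ?_
    have h1 := Complex.hasSum_taylorSeries_of_entire hd s (s + x)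
    have h2 := h1.mul_right (((Real.exp (-(x ^ 2 / (4 * t))) : ℝ)) : ℂ)
    have e : (fun n : ℕ => (iteratedDeriv n F s / n.factorial) * (((x ^ n * Real.exp (-(x ^ 2 / (4 * t))) : ℝ)) : ℂ)) =
        fun n : ℕ => ((n.factorial : ℂ)⁻¹ • (s + (x : ℂ) - s) ^ n • iteratedDeriv n F s) *
          (((Real.exp (-(x ^ 2 / (4 * t))) : ℝ)) : ℂ) := by
      ext n
      rw [add_sub_cancel_left, smul_eq_mul, smul_eq_mul]
      push_cast
      ring
    rw [e]
    exact h2

end Pool.Agent.H487.NB
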