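import Pool.Agent.H487.NB.Closure

/-!
# Hurwitz's theorem, `(1 + (t/n) D²)^n f → e^{t D²} f`, and the closure theorem
-/

set_option autoImplicit false

open MeasureTheory Set Filter Topology
open scoped ComplexConjugate

namespace Pool.Agent.H487.NB

open H353.E

/-- a form of Hurwitz's theorem -/
theorem hurwitz {F : ℂ → ℂ} (hF : Differentiable ℂ F) (hne : ∃ z, F z ≠ 0) {U : Set ℂ} (hU : IsOpen U)
    (h : ∀ R ε : ℝ, 0 < ε → ∃ G : ℂ → ℂ, Differentiable ℂ G ∧ (∀ s ∈ U, G s ≠ 0) ∧ ∀ s : ℂ, ‖s‖ ≤ R → ‖G s - F s‖ ≤ ε) :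
    ∀ s ∈ U, F s ≠ 0 := by
  intro z hz h0
  have hA : AnalyticOnNhd ℂ F univ := fun x _ => hF.analyticAt x
  -- isolated zero
  have h1 : ∀ᶠ w in 𝓝[≠] z, F w ≠ 0 := by
    rcases (hF.analyticAt z).eventually_eq_zero_or_eventually_ne_zero with h2 | h2
    · exfalso
      obtain ⟨w, hw⟩ := hne
      exact hw (hA.eqOn_zero_of_preconnected_of_eventuallyEq_zero isPreconnected_univ (mem_univ z) h2 (mem_univ w))
    · exact h2
  rw [eventually_nhdsWithin_iff, Metric.eventually_nhds_iff] at h1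
  obtain ⟨δ, hδ, h1⟩ := h1
  obtain ⟨δ', hδ', h2⟩ := Metric.isOpen_iff.mp hU z hz
  set r : ℝ := min δ δ' / 2 with hr
  have hr0 : 0 < r := by positivity
  have hrδ : r < δ := by
    have : min δ δ' ≤ δ := min_le_left _ _
    rw [hr]; linarith
  have hrδ' : r < δ' := by
    have : min δ δ' ≤ δ' := min_le_right _ _
    rw [hr]; linarith
  have hsph : ∀ w ∈ Metric.sphere z r, F w ≠ 0 := fun w hw => by
    rw [Metric.mem_sphere] at hw
    refine h1 (by rw [hw]; exact hrδ) ?_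
    rintro rfl
    rw [dist_self] at hw
    exact hr0.ne hw
  obtain ⟨w0, hw0, hmin⟩ := (isCompact_sphere z r).exists_isMinOn (NormedSpace.sphere_nonempty.mpr hr0.le)
    (hF.continuous.norm.continuousOn)
  set m : ℝ := ‖F w0‖ with hm
  have hm0 : 0 < m := norm_pos_iff.mpr (hsph w0 hw0)
  obtain ⟨G, hG, hGU, hGF⟩ := h (‖z‖ + r) (m / 3) (by positivity)
  have hball : Metric.closedBall z r ⊆ U := fun w hw => h2 (by
    rw [Metric.mem_closedBall] at hw
    rw [Metric.mem_ball]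
    linarith)
  have hnorm : ∀ w ∈ Metric.closedBall z r, ‖w‖ ≤ ‖z‖ + r := fun w hw => by
    rw [Metric.mem_closedBall, dist_eq_norm] at hw
    have := norm_add_le (w - z) z
    rw [sub_add_cancel] at this
    linarith
  have h3 : ∀ w ∈ frontier (Metric.ball z r), ‖(G w)⁻¹‖ ≤ 3 / (2 * m) := by
    intro w hw
    rw [frontier_ball z hr0.ne'] at hw
    have h4 : m ≤ ‖F w‖ := hmin hw
    have h5 := hGF w (hnorm w (Metric.sphere_subset_closedBall hw))
    have h6 : ‖F w‖ ≤ ‖G w‖ + ‖G w - F w‖ := by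
      have := norm_sub_le (G w) (G w - F w)
      rwa [sub_sub_cancel] at this
    have h7 : 2 * m / 3 ≤ ‖G w‖ := by linarith
    rw [norm_inv, inv_le_comm₀ (by linarith) (by positivity)]
    refine le_trans (le_of_eq ?_) h7
    rw [inv_div]
  have h4 : DiffContOnCl ℂ (fun w => (G w)⁻¹) (Metric.ball z r) := by
    refine DiffContOnCl.inv hG.diffContOnCl fun w hw => hGU w (hball ?_)
    rw [closure_ball z hr0.ne'] at hw
    exact hw
  have h5 := Complex.norm_le_of_forall_mem_frontier_norm_le Metric.isBounded_ball h4 h3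
    (subset_closure (Metric.mem_ball_self hr0))
  have h6 := hGF z (by linarith [hnorm z (Metric.mem_closedBall_self hr0.le)])
  rw [h0, sub_zero] at h6
  have h7 : 0 < ‖G z‖ := norm_pos_iff.mpr (hGU z hz)
  rw [norm_inv, inv_le_comm₀ h7 (by positivity), inv_div] at h5
  linarith

/-! ### the approximation -/

/-- `(1 + c D²) f` -/
noncomputable def P2 (c : ℝ) (f : ℂ → ℂ) : ℂ → ℂ := fun s => f s + (c : ℂ) * iteratedDeriv 2 f s

theorem Cl.p2 {b : ℝ} {f : ℂ → ℂ} (h : Cl b f) {c : ℝ} (hc : 0 ≤ c) : Cl b (P2 c f) := by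
  rcases hc.eq_or_lt with rfl | hc
  · have : P2 0 f = f := by ext s; simp [P2]
    rwa [this]
  · have h1 := (h.step (r := Real.sqrt c) (Real.sqrt_pos.mpr hc).ne').step (r := -Real.sqrt c)
      (neg_ne_zero.mpr (Real.sqrt_pos.mpr hc).ne')
    convert h1 using 1
    ext s
    have h2 : deriv (fun s => f s + ((Real.sqrt c : ℂ) * Complex.I) * deriv f s) s =
        deriv f s + ((Real.sqrt c : ℂ) * Complex.I) * iteratedDeriv 2 f s := by
      rw [deriv_fun_add (h.diff s) ((h.diff.deriv.const_mul _) s), deriv_const_mul _ (h.diff.deriv s),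
        iteratedDeriv_succ, iteratedDeriv_one]
    have h3 : ((Real.sqrt c : ℂ)) ^ 2 = (c : ℂ) := by
      rw [← Complex.ofReal_pow, Real.sq_sqrt hc.le]
    rw [h2]
    unfold P2
    push_cast
    linear_combination (-iteratedDeriv 2 f s) * h3 + (Real.sqrt c : ℂ) ^ 2 * iteratedDeriv 2 f s * Complex.I_sq

theorem Cl.iter {b : ℝ} {c : ℝ} (hc : 0 ≤ c) (n : ℕ) {f : ℂ → ℂ} (h : Cl b f) : Cl b ((P2 c)^[n] f) := by
  induction n generalizing f with
  | zero => exact h
  | succ n ih => rw [Function.iterate_succ_apply]; exact ih (h.p2 hc)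

lemma pascal (n : ℕ) (c : ℂ) (a : ℕ → ℂ) :
    ∑ i ∈ Finset.range (n + 1), ((n.choose i : ℕ) : ℂ) * c ^ i * (a i + c * a (i + 1)) =
      ∑ i ∈ Finset.range (n + 2), (((n + 1).choose i : ℕ) : ℂ) * c ^ i * a i := by
  have h1 : ∑ i ∈ Finset.range (n + 2), (((n + 1).choose i : ℕ) : ℂ) * c ^ i * a i =
      ∑ i ∈ Finset.range (n + 1), (((n + 1).choose (i + 1) : ℕ) : ℂ) * c ^ (i + 1) * a (i + 1) + a 0 := by
    rw [Finset.sum_range_succ']
    simp
  have h2 : ∑ i ∈ Finset.range (n + 1), ((n.choose i : ℕ) : ℂ) * c ^ i * a i =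
      ∑ i ∈ Finset.range (n + 1), ((n.choose (i + 1) : ℕ) : ℂ) * c ^ (i + 1) * a (i + 1) + a 0 := by
    have h3 : ∑ i ∈ Finset.range (n + 2), ((n.choose i : ℕ) : ℂ) * c ^ i * a i =
        ∑ i ∈ Finset.range (n + 1), ((n.choose i : ℕ) : ℂ) * c ^ i * a i := by
      rw [Finset.sum_range_succ, Nat.choose_succ_self]
      simp
    rw [← h3, Finset.sum_range_succ']
    simp
  rw [h1]
  have h4 : ∑ i ∈ Finset.range (n + 1), ((n.choose i : ℕ) : ℂ) * c ^ i * (a i + c * a (i + 1)) =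
      ∑ i ∈ Finset.range (n + 1), ((n.choose i : ℕ) : ℂ) * c ^ i * a i +
      ∑ i ∈ Finset.range (n + 1), ((n.choose i : ℕ) : ℂ) * c ^ (i + 1) * a (i + 1) := by
    rw [← Finset.sum_add_distrib]
    refine Finset.sum_congr rfl fun i _ => ?_
    ring
  rw [h4, h2]
  have h5 : ∑ i ∈ Finset.range (n + 1), (((n + 1).choose (i + 1) : ℕ) : ℂ) * c ^ (i + 1) * a (i + 1) =
      ∑ i ∈ Finset.range (n + 1), ((n.choose (i + 1) : ℕ) : ℂ) * c ^ (i + 1) * a (i + 1) +
      ∑ i ∈ Finset.range (n + 1), ((n.choose i : ℕ) : ℂ) * c ^ (i + 1) * a (i + 1) := by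
    rw [← Finset.sum_add_distrib]
    refine Finset.sum_congr rfl fun i _ => ?_
    rw [Nat.choose_succ_succ]
    push_cast
    ring
  rw [h5]
  ring

lemma iter_p2 {f : ℂ → ℂ} (hf : Differentiable ℂ f) (c : ℝ) (i : ℕ) (s : ℂ) :
    iteratedDeriv (2 * i) (P2 c f) s = iteratedDeriv (2 * i) f s + (c : ℂ) * iteratedDeriv (2 * (i + 1)) f s := by
  unfold P2
  have h1 : ContDiff ℂ (2 * i : ℕ) f := hf.contDiff
  have h2 : ContDiff ℂ (2 * i : ℕ) (iteratedDeriv 2 f) := (diff_iter hf 2).contDiff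
  rw [iteratedDeriv_fun_add h1.contDiffAt (contDiff_const.mul h2).contDiffAt, iteratedDeriv_const_mul_field]
  congr 2
  rw [iteratedDeriv_eq_iterate, iteratedDeriv_eq_iterate, iteratedDeriv_eq_iterate, ← Function.iterate_add_apply]
  rfl

lemma p2_iter {f : ℂ → ℂ} (hf : Differentiable ℂ f) (c : ℝ) (n : ℕ) (s : ℂ) :
    (P2 c)^[n] f s = ∑ i ∈ Finset.range (n + 1), ((n.choose i : ℕ) : ℂ) * (c : ℂ) ^ i * iteratedDeriv (2 * i) f s := by
  induction n generalizing f with
  | zero => simp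
  | succ n ih =>
    rw [Function.iterate_succ_apply, ih]
    · rw [← pascal n (c : ℂ) (fun i => iteratedDeriv (2 * i) f s)]
      refine Finset.sum_congr rfl fun i _ => ?_
      rw [iter_p2 hf]
    · exact hf.add ((diff_iter hf 2).const_mul _)

/-- the scalar weights -/
lemma desc_lim (i : ℕ) : Tendsto (fun n : ℕ => (n.descFactorial i : ℝ) / (n : ℝ) ^ i) atTop (𝓝 1) := by
  induction i with
  | zero => simp
  | succ i ih =>
    have h1 : Tendsto (fun n : ℕ => ((n - i : ℕ) : ℝ) / n) atTop (𝓝 1) := by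
      have h2 : Tendsto (fun n : ℕ => 1 - (i : ℝ) / n) atTop (𝓝 (1 - 0)) :=
        tendsto_const_nhds.sub (tendsto_const_div_atTop_nhds_zero_nat (i : ℝ))
      rw [sub_zero] at h2
      refine h2.congr' ?_
      filter_upwards [eventually_ge_atTop i, eventually_gt_atTop 0] with n hn hn0
      have hn1 : (n : ℝ) ≠ 0 := by exact_mod_cast hn0.ne'
      rw [Nat.cast_sub hn]
      field_simp
    have h3 := h1.mul ih
    rw [mul_one] at h3
    refine h3.congr fun n => ?_
    rw [Nat.descFactorial_succ, pow_succ]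
    push_cast
    rw [div_mul_div_comm, mul_comm (n : ℝ)]

lemma desc_le (n i : ℕ) : (n.descFactorial i : ℝ) / (n : ℝ) ^ i ≤ 1 := by
  rcases Nat.eq_zero_or_pos n with rfl | hn
  · rcases Nat.eq_zero_or_pos i with rfl | hi
    · simp
    · rw [Nat.cast_zero, zero_pow hi.ne', div_zero]; norm_num
  · rw [div_le_one (by positivity)]
    exact_mod_cast Nat.descFactorial_le_pow n i

lemma tannery : Tendsto (fun n : ℕ => ∑' i : ℕ, (1 - (n.descFactorial i : ℝ) / (n : ℝ) ^ i) * (1 / 2) ^ i) atTop (𝓝 0) := by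
  have h1 := tendsto_tsum_of_dominated_convergence (𝓕 := atTop)
    (f := fun (n : ℕ) (i : ℕ) => (1 - (n.descFactorial i : ℝ) / (n : ℝ) ^ i) * ((1 : ℝ) / 2) ^ i)
    (g := fun _ => 0) (bound := fun i => ((1 : ℝ) / 2) ^ i) summable_half (fun i => ?_) ?_
  · rwa [tsum_zero] at h1
  · have h2 : Tendsto (fun n : ℕ => (1 - (n.descFactorial i : ℝ) / (n : ℝ) ^ i) * ((1 : ℝ) / 2) ^ i) atTop
        (𝓝 ((1 - 1) * ((1 : ℝ) / 2) ^ i)) := (tendsto_const_nhds.sub (desc_lim i)).mul_const _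
    rwa [sub_self, zero_mul] at h2
  · refine Eventually.of_forall fun n i => ?_
    have h3 := desc_le n i
    have h4 : 0 ≤ (n.descFactorial i : ℝ) / (n : ℝ) ^ i := by positivity
    rw [Real.norm_of_nonneg (mul_nonneg (by linarith) (by positivity))]
    refine mul_le_of_le_one_left (by positivity) (by linarith)

/-- `(1 + (t/n) D²)^n f → e^{t D²} f` uniformly on bounded sets -/
theorem approx {f : ℂ → ℂ} (hf : Differentiable ℂ f) (h0 : Type0 f) (t : ℝ) (R ε : ℝ) (hε : 0 < ε) :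
    ∃ n : ℕ, ∀ s : ℂ, ‖s‖ ≤ R → ‖(P2 (t / n))^[n] f s - flow t f s‖ ≤ ε := by
  obtain ⟨K, hK, hb⟩ := flow_term_bound hf h0 t one_pos
  set E : ℝ := K * Real.exp (1 * R ^ 2) with hE
  have hE0 : 0 < E := by positivity
  have h1 := (tannery.const_mul E).eventually (ge_mem_nhds (a := ε) (by rw [mul_zero]; exact hε))
  obtain ⟨n, hn⟩ := (h1.and (eventually_gt_atTop 0)).exists
  obtain ⟨hn, hn0⟩ := hn
  refine ⟨n, fun s hs => ?_⟩
  have hn1 : (0 : ℝ) < n := by exact_mod_cast hn0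
  have hR : 0 ≤ R := (norm_nonneg s).trans hs
  -- the terms
  have hP : (P2 (t / n))^[n] f s = ∑' i : ℕ, ((((n.descFactorial i : ℝ) / (n : ℝ) ^ i) : ℝ) : ℂ) *
      (((t ^ i / (i.factorial : ℝ) : ℝ) : ℂ) * iteratedDeriv (2 * i) f s) := by
    rw [p2_iter hf, tsum_eq_sum (s := Finset.range (n + 1))]
    · refine Finset.sum_congr rfl fun i _ => ?_
      have h2 : (n.descFactorial i : ℂ) = (i.factorial : ℂ) * (n.choose i : ℂ) := by
        rw [Nat.descFactorial_eq_factorial_mul_choose]; push_cast; ring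
      have hi : (i.factorial : ℂ) ≠ 0 := by exact_mod_cast (Nat.factorial_pos i).ne'
      have hn2 : (n : ℂ) ≠ 0 := by exact_mod_cast hn0.ne'
      push_cast
      rw [h2, div_pow]
      field_simp
    · intro i hi
      rw [Finset.mem_range, not_lt] at hi
      have : n.descFactorial i = 0 := Nat.descFactorial_eq_zero_iff_lt.mpr (by omega)
      rw [this]
      simp
  have hs1 := flow_summable hf h0 t s
  have hsum1 : Summable fun i : ℕ => ((((n.descFactorial i : ℝ) / (n : ℝ) ^ i) : ℝ) : ℂ) *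
      (((t ^ i / (i.factorial : ℝ) : ℝ) : ℂ) * iteratedDeriv (2 * i) f s) := by
    refine Summable.of_norm_bounded hs1 fun i => ?_
    rw [norm_mul, Complex.norm_real, Real.norm_of_nonneg (by positivity)]
    exact mul_le_of_le_one_left (norm_nonneg _) (desc_le n i)
  rw [hP]
  unfold flow
  rw [← hsum1.tsum_sub hs1.of_norm]
  have hterm : ∀ i : ℕ, ‖((((n.descFactorial i : ℝ) / (n : ℝ) ^ i) : ℝ) : ℂ) *
      (((t ^ i / (i.factorial : ℝ) : ℝ) : ℂ) * iteratedDeriv (2 * i) f s) -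
      ((t ^ i / (i.factorial : ℝ) : ℝ) : ℂ) * iteratedDeriv (2 * i) f s‖ ≤
      E * ((1 - (n.descFactorial i : ℝ) / (n : ℝ) ^ i) * (1 / 2) ^ i) := fun i => by
    have e : ((((n.descFactorial i : ℝ) / (n : ℝ) ^ i) : ℝ) : ℂ) *
      (((t ^ i / (i.factorial : ℝ) : ℝ) : ℂ) * iteratedDeriv (2 * i) f s) -
      ((t ^ i / (i.factorial : ℝ) : ℝ) : ℂ) * iteratedDeriv (2 * i) f s =
      -((((1 - (n.descFactorial i : ℝ) / (n : ℝ) ^ i) : ℝ) : ℂ) *
      (((t ^ i / (i.factorial : ℝ) : ℝ) : ℂ) * iteratedDeriv (2 * i) f s)) := by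
      push_cast; ring
    have h3 := desc_le n i
    have h4 : 0 ≤ 1 - (n.descFactorial i : ℝ) / (n : ℝ) ^ i := by linarith
    rw [e, norm_neg, norm_mul, Complex.norm_real, Real.norm_of_nonneg h4, norm_flow_term]
    have h5 : K * Real.exp (1 * ‖s‖ ^ 2) ≤ E := by rw [hE]; gcongr
    calc (1 - (n.descFactorial i : ℝ) / (n : ℝ) ^ i) * (|t| ^ i / (i.factorial : ℝ) * ‖iteratedDeriv (2 * i) f s‖)
        ≤ (1 - (n.descFactorial i : ℝ) / (n : ℝ) ^ i) * (K * Real.exp (1 * ‖s‖ ^ 2) * (1 / 2) ^ i) :=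
          mul_le_mul_of_nonneg_left (hb i s) h4
      _ ≤ (1 - (n.descFactorial i : ℝ) / (n : ℝ) ^ i) * (E * (1 / 2) ^ i) := by gcongr
      _ = _ := by ring
  have hw : Summable fun i : ℕ => (1 - (n.descFactorial i : ℝ) / (n : ℝ) ^ i) * ((1 : ℝ) / 2) ^ i := by
    refine Summable.of_nonneg_of_le (fun i => mul_nonneg (by linarith [desc_le n i]) (by positivity)) (fun i => ?_) summable_half
    refine mul_le_of_le_one_left (by positivity) ?_
    have : 0 ≤ (n.descFactorial i : ℝ) / (n : ℝ) ^ i := by positivity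
    linarith
  have hw2 := hw.mul_left E
  have hns : Summable fun i : ℕ => ‖((((n.descFactorial i : ℝ) / (n : ℝ) ^ i) : ℝ) : ℂ) *
      (((t ^ i / (i.factorial : ℝ) : ℝ) : ℂ) * iteratedDeriv (2 * i) f s) -
      ((t ^ i / (i.factorial : ℝ) : ℝ) : ℂ) * iteratedDeriv (2 * i) f s‖ :=
    Summable.of_nonneg_of_le (fun i => norm_nonneg _) hterm hw2
  refine (norm_tsum_le_tsum_norm hns).trans ?_
  refine (hns.tsum_le_tsum hterm hw2).trans ?_
  rw [tsum_mul_left]
  exact hn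

lemma flow_of_zero (t : ℝ) : flow t (0 : ℂ → ℂ) = 0 := by
  ext s
  unfold flow
  have : ∀ k, iteratedDeriv k (0 : ℂ → ℂ) s = 0 := fun k => by
    have h1 : iteratedDeriv k (fun _ : ℂ => (0 : ℂ)) s = 0 := by
      rw [iteratedDeriv_const]; split_ifs <;> rfl
    exact h1
  simp [this]

lemma flow_inj {f : ℂ → ℂ} (hf : Differentiable ℂ f) (h0 : Type0 f) (t : ℝ) (h : flow t f = 0) : f = 0 := by
  have h1 := flow_add hf h0 (-t) t
  rw [h, flow_of_zero, neg_add_cancel, flow_zero] at h1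
  exact h1.symm

lemma flow_sub_smul {f g : ℂ → ℂ} (hf : Differentiable ℂ f) (hf0 : Type0 f) (hg : Differentiable ℂ g) (hg0 : Type0 g)
    (a : ℂ) (t : ℝ) : flow t (fun s => f s - a * g s) = fun s => flow t f s - a * flow t g s := by
  ext s
  unfold flow
  rw [← tsum_mul_left, ← (flow_summable hf hf0 t s).of_norm.tsum_sub ((flow_summable hg hg0 t s).of_norm.mul_left a)]
  refine tsum_congr fun k => ?_
  have h1 : ContDiff ℂ (2 * k : ℕ) f := hf.contDiff
  have h2 : ContDiff ℂ (2 * k : ℕ) g := hg.contDiff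
  rw [iteratedDeriv_fun_sub h1.contDiffAt (contDiff_const.mul h2).contDiffAt, iteratedDeriv_const_mul_field]
  ring

lemma type0_lop {g : ℂ → ℂ} (hg : Differentiable ℂ g) (h0 : Type0 g) (α : ℂ) : Type0 (lop α g) := by
  have h1 := type0_add (h0.deriv hg) h0 (-α)
  have h2 : (fun s => deriv g s + -α * g s) = lop α g := by ext s; unfold lop; ring
  rwa [h2] at h1

lemma flow_lop {g : ℂ → ℂ} (hg : Differentiable ℂ g) (h0 : Type0 g) (α : ℂ) (t : ℝ) :
    lop α (flow t g) = flow t (lop α g) := by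
  have h1 := flow_sub_smul hg.deriv (h0.deriv hg) hg h0 α t
  have h2 : (fun s => deriv g s - α * g s) = lop α g := rfl
  rw [h2] at h1
  rw [h1]
  ext s
  unfold lop
  rw [(flow_hasDerivAt hg h0 t s).deriv]

lemma flow_fold {f : ℂ → ℂ} (hf : Differentiable ℂ f) (h0 : Type0 f) (t : ℝ) (l : List ℂ) :
    Type0 (l.foldr lop f) ∧ l.foldr lop (flow t f) = flow t (l.foldr lop f) := by
  induction l with
  | nil => exact ⟨h0, rfl⟩
  | cons a l ih =>
    refine ⟨type0_lop (fold_diff hf l) ih.1 a, ?_⟩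
    rw [List.foldr_cons, List.foldr_cons, ih.2]
    exact flow_lop (fold_diff hf l) ih.1 a t

lemma fe_flow {f : ℂ → ℂ} (hf : Differentiable ℂ f) {ε : ℂ}
    (hfe : ∀ s, f s = ε * conj (f (1 - conj s))) (t : ℝ) (s : ℂ) :
    flow t f s = ε * conj (flow t f (1 - conj s)) := by
  have h1 : ∀ (k : ℕ) (s : ℂ), iteratedDeriv (2 * k) f s = ε * conj (iteratedDeriv (2 * k) f (1 - conj s)) := by
    intro k
    induction k with
    | zero => intro s; simpa using hfe s
    | succ k ih =>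
      have h2 := fe_deriv (diff_iter hf (2 * k)) ih
      have h3 := fe_deriv (diff_iter hf (2 * k)).deriv h2
      intro s
      have h4 := h3 s
      rw [neg_neg] at h4
      have h5 : iteratedDeriv (2 * (k + 1)) f = deriv (deriv (iteratedDeriv (2 * k) f)) := by
        rw [show 2 * (k + 1) = 2 * k + 1 + 1 by ring, iteratedDeriv_succ, iteratedDeriv_succ]
      rw [h5]
      exact h4
  unfold flow
  rw [Complex.conj_tsum, ← tsum_mul_left]
  refine tsum_congr fun k => ?_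
  rw [map_mul, Complex.conj_ofReal, h1 k s]
  ring

/-- **The closure theorem**: `e^{t D²}`, `t ≥ 0`, does not move zeros out of the strip -/
theorem Cl.flow {b : ℝ} {f : ℂ → ℂ} (h : Cl b f) {t : ℝ} (ht : 0 ≤ t) : Cl b (flow t f) := by
  obtain ⟨ε, hfe⟩ := h.fe
  refine ⟨flow_differentiable h.diff h.type0 t, flow_type0 h.diff h.type0 t, ⟨ε, fe_flow h.diff hfe t⟩, ?_, ?_⟩
  · have hne : ∃ z, NB.flow t f z ≠ 0 := by
      by_contra hcon
      push Not at hcon
      exact h.nonexp [] (flow_inj h.diff h.type0 t (funext hcon))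
    have h1 := hurwitz (flow_differentiable h.diff h.type0 t) hne (U := {z | 1 / 2 + b < z.re})
      (isOpen_lt continuous_const Complex.continuous_re) (fun R ε hε => by
        obtain ⟨n, hn⟩ := approx h.diff h.type0 t R ε hε
        have h2 : Cl b ((P2 (t / n))^[n] f) := h.iter (by positivity) n
        exact ⟨_, h2.diff, fun s hs h0 => absurd (h2.zer s h0) (not_le.mpr hs), hn⟩)
    intro s hs
    by_contra hcon
    exact h1 s (not_le.mp hcon) hs
  · intro l hl
    obtain ⟨h1, h2⟩ := flow_fold h.diff h.type0 t l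
    rw [h2] at hl
    exact h.nonexp l (flow_inj (fold_diff h.diff l) h1 t hl)

/-- `e^{t D²} f → f` as `t → 0+` -/
lemma flow_near {f : ℂ → ℂ} (hf : Differentiable ℂ f) (h0 : Type0 f) (R ε : ℝ) (hε : 0 < ε) :
    ∃ δ : ℝ, 0 < δ ∧ ∀ t : ℝ, 0 < t → t ≤ δ → ∀ s : ℂ, ‖s‖ ≤ R → ‖flow t f s - f s‖ ≤ ε := by
  obtain ⟨K, hK, hb⟩ := flow_term_bound hf h0 1 one_pos
  set E : ℝ := K * Real.exp (1 * R ^ 2) with hE
  have hE0 : 0 < E := by positivity
  refine ⟨min 1 (ε / (2 * E)), by positivity, fun t ht htδ s hs => ?_⟩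
  have ht1 : t ≤ 1 := htδ.trans (min_le_left _ _)
  have ht2 : t * (2 * E) ≤ ε := by
    have := htδ.trans (min_le_right _ _)
    rwa [le_div_iff₀ (by positivity)] at this
  have hR : 0 ≤ R := (norm_nonneg s).trans hs
  have hs1 := flow_summable hf h0 t s
  have e1 : flow t f s - f s = ∑' k : ℕ, ((t ^ (k + 1) / ((k + 1).factorial : ℝ) : ℝ) : ℂ) * iteratedDeriv (2 * (k + 1)) f s := by
    unfold flow
    rw [hs1.of_norm.tsum_eq_zero_add]
    simp
  rw [e1]
  have h1 : ∀ k : ℕ, ‖((t ^ (k + 1) / ((k + 1).factorial : ℝ) : ℝ) : ℂ) * iteratedDeriv (2 * (k + 1)) f s‖ ≤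
      t * (E * (1 / 2) ^ k) := fun k => by
    rw [norm_flow_term, abs_of_pos ht]
    have h2 := hb (k + 1) s
    rw [abs_one, one_pow] at h2
    have h3 : t ^ (k + 1) ≤ t := by
      rw [pow_succ]
      exact mul_le_of_le_one_left ht.le (pow_le_one₀ ht.le ht1)
    have h5 : K * Real.exp (1 * ‖s‖ ^ 2) ≤ E := by rw [hE]; gcongr
    calc t ^ (k + 1) / ((k + 1).factorial : ℝ) * ‖iteratedDeriv (2 * (k + 1)) f s‖
        ≤ t / ((k + 1).factorial : ℝ) * ‖iteratedDeriv (2 * (k + 1)) f s‖ := by gcongr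
      _ = t * (1 / ((k + 1).factorial : ℝ) * ‖iteratedDeriv (2 * (k + 1)) f s‖) := by ring
      _ ≤ t * (K * Real.exp (1 * ‖s‖ ^ 2) * (1 / 2) ^ (k + 1)) := by gcongr
      _ ≤ t * (E * (1 / 2) ^ k) := by
          have h7 : ((1 : ℝ) / 2) ^ (k + 1) ≤ (1 / 2) ^ k := by
            rw [pow_succ]
            have : (0 : ℝ) < (1 / 2) ^ k := by positivity
            linarith
          exact mul_le_mul_of_nonneg_left (mul_le_mul h5 h7 (by positivity) hE0.le) ht.le
  have h2 : Summable fun k : ℕ => t * (E * ((1 : ℝ) / 2) ^ k) := (summable_half.mul_left E).mul_left t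
  have h3 := Summable.of_nonneg_of_le (fun k => norm_nonneg _) h1 h2
  refine (norm_tsum_le_tsum_norm h3).trans ((h3.tsum_le_tsum h1 h2).trans ?_)
  rw [tsum_mul_left, tsum_mul_left, tsum_geometric_two]
  linarith

/-- if all zeros of `e^{t D²} f` are in the half plane for all small `t > 0`, so are those of `f` -/
theorem zeros_limit {f : ℂ → ℂ} (hf : Differentiable ℂ f) (h0 : Type0 f) (hne : ∃ z, f z ≠ 0) {a : ℝ}
    (h : ∀ t : ℝ, 0 < t → ∀ s, flow t f s = 0 → s.re ≤ a) : ∀ s, f s = 0 → s.re ≤ a := by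
  have h1 := hurwitz hf hne (U := {z | a < z.re}) (isOpen_lt continuous_const Complex.continuous_re)
    (fun R ε hε => by
      obtain ⟨δ, hδ, h2⟩ := flow_near hf h0 R ε hε
      exact ⟨flow δ f, flow_differentiable hf h0 δ, fun s hs h3 => absurd (h δ hδ s h3) (not_le.mpr hs), h2 δ hδ le_rfl⟩)
  intro s hs
  by_contra hcon
  exact h1 s (not_le.mp hcon) hs

end Pool.Agent.H487.NB
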