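import Pool.Agent.H487.NB.Conv

/-!
# Correlations of functions with slowly varying logarithmic derivative
-/

set_option autoImplicit false

open MeasureTheory Set
open scoped ComplexConjugate

namespace Pool.Agent.H487.NB

lemma tail_exp {c x y : ℝ} (hc : 0 < c) : ∫ z in x..y, Real.exp (-(c * z)) ≤ Real.exp (-(c * x)) / c := by
  have h1 : ∀ z ∈ uIcc x y, HasDerivAt (fun z => -(Real.exp (-(c * z)) / c)) (Real.exp (-(c * z))) z := by
    intro z _
    have h2 : HasDerivAt (fun z : ℝ => -(c * z)) (-(c * 1)) z := ((hasDerivAt_id z).const_mul c).neg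
    have h3 := (h2.exp.div_const c).neg
    have e : -(Real.exp (-(c * z)) * -(c * 1) / c) = Real.exp (-(c * z)) := by
      rw [mul_one, mul_neg, neg_div, neg_neg, mul_div_assoc, div_self hc.ne', mul_one]
    rw [e] at h3
    exact h3
  rw [intervalIntegral.integral_eq_sub_of_hasDerivAt h1
    ((Real.continuous_exp.comp (by fun_prop)).intervalIntegrable _ _)]
  have := Real.exp_pos (-(c * y))
  have h4 : 0 < Real.exp (-(c * y)) / c := by positivity
  linarith

/-- the scalar comparison -/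
lemma gauss_cmp {t x1 ρ : ℝ} (ht : 0 < t) (hx : 16 * t ≤ x1 ^ 2) (hx1 : 0 < x1) (hρ : x1 ≤ ρ) :
    3 / 2 * ∫ x in x1..ρ, Real.exp (-(x ^ 2 / (4 * t))) ≤
      3 / 8 * ∫ x in (0 : ℝ)..x1, Real.exp (-(3 * x ^ 2 / (4 * t))) := by
  set r : ℝ := Real.sqrt t with hr
  have hr0 : 0 < r := Real.sqrt_pos.mpr ht
  have hr2 : r ^ 2 = t := Real.sq_sqrt ht.le
  have h4r : 4 * r ≤ x1 := by
    by_contra hcon
    push Not at hcon
    nlinarith
  have h1 : ∫ x in x1..ρ, Real.exp (-(x ^ 2 / (4 * t))) ≤ Real.exp (-(x1 / (4 * t) * x1)) / (x1 / (4 * t)) := by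
    refine le_trans ?_ (tail_exp (y := ρ) (by positivity))
    refine intervalIntegral.integral_mono_on hρ
      ((Real.continuous_exp.comp (by fun_prop)).intervalIntegrable _ _)
      ((Real.continuous_exp.comp (by fun_prop)).intervalIntegrable _ _) fun x hx' => ?_
    apply Real.exp_le_exp.mpr
    have : x1 / (4 * t) * x ≤ x ^ 2 / (4 * t) := by
      rw [div_mul_eq_mul_div, div_le_div_iff_of_pos_right (by positivity)]
      nlinarith [hx'.1]
    linarith
  have h2 : r * Real.exp (-(3 / 4)) ≤ ∫ x in (0 : ℝ)..x1, Real.exp (-(3 * x ^ 2 / (4 * t))) := by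
    have h3 : ∫ x in (0 : ℝ)..r, Real.exp (-(3 * x ^ 2 / (4 * t))) ≤
        ∫ x in (0 : ℝ)..x1, Real.exp (-(3 * x ^ 2 / (4 * t))) := by
      refine intervalIntegral.integral_mono_interval le_rfl hr0.le (by linarith)
        (Filter.Eventually.of_forall fun x => (Real.exp_pos _).le)
        ((Real.continuous_exp.comp (by fun_prop)).intervalIntegrable _ _)
    refine le_trans ?_ h3
    have h5 : ∫ _x in (0 : ℝ)..r, Real.exp (-(3 / 4)) ≤ ∫ x in (0 : ℝ)..r, Real.exp (-(3 * x ^ 2 / (4 * t))) := by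
      refine intervalIntegral.integral_mono_on hr0.le (by simp)
        ((Real.continuous_exp.comp (by fun_prop)).intervalIntegrable _ _) fun x hx' => ?_
      apply Real.exp_le_exp.mpr
      have : 3 * x ^ 2 / (4 * t) ≤ 3 / 4 := by
        rw [div_le_div_iff₀ (by positivity) (by norm_num)]
        have : x ^ 2 ≤ r ^ 2 := pow_le_pow_left₀ hx'.1 hx'.2 2
        nlinarith
      linarith
    simpa using h5
  have e1 : x1 / (4 * t) * x1 = (x1 / r) ^ 2 / 4 := by
    rw [← hr2]; field_simp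
  have e2 : Real.exp (-(x1 / (4 * t) * x1)) / (x1 / (4 * t)) = r * (4 / (x1 / r) * Real.exp (-((x1 / r) ^ 2 / 4))) := by
    rw [e1, ← hr2]; field_simp
  have hz : 4 ≤ x1 / r := by rw [le_div_iff₀ hr0]; exact h4r
  have h6 : 4 / (x1 / r) * Real.exp (-((x1 / r) ^ 2 / 4)) ≤ 1 * Real.exp (-4) := by
    refine mul_le_mul ?_ (Real.exp_le_exp.mpr (by nlinarith)) (Real.exp_pos _).le (by norm_num)
    rw [div_le_one (by linarith)]; exact hz
  have h7 : Real.exp (-4) * 4 ≤ Real.exp (-(3 / 4)) := by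
    have h8 : Real.exp (-(3 / 4)) = Real.exp (-4) * Real.exp (13 / 4) := by rw [← Real.exp_add]; norm_num
    rw [h8]
    have h9 := Real.add_one_le_exp (13 / 4 : ℝ)
    have := Real.exp_pos (-4)
    nlinarith
  rw [e2] at h1
  have h10 : r * (4 / (x1 / r) * Real.exp (-((x1 / r) ^ 2 / 4))) ≤ r * Real.exp (-4) := by
    have := mul_le_mul_of_nonneg_left h6 hr0.le
    linarith
  have h11 : 0 < r * Real.exp (-4) := by positivity
  nlinarith

/-- **integral of a function with values near a ray.** -/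
theorem sector_int {t P P' ρ q : ℝ} (ht : 0 < t) (hP : 0 < P) (h1 : 256 * P ^ 2 * t ≤ 1)
    (h2 : 4 * P' * t ≤ 1) (hq : 0 ≤ q) (hρ : 0 ≤ ρ) {Z : ℝ → ℂ} (hZ : ContinuousOn Z (Icc (-ρ) ρ))
    (hre : ∀ x ∈ Icc (-ρ) ρ, |(Z x).re| ≤ P' * x ^ 2) (him : ∀ x ∈ Icc (-ρ) ρ, |(Z x).im| ≤ 2 * P * |x|) :
    1 / 2 * ∫ x in (-ρ)..ρ, ‖(q : ℂ) * Complex.exp (Z x)‖ * Real.exp (-(x ^ 2 / (2 * t))) ≤
      ∫ x in (-ρ)..ρ, ((q : ℂ) * Complex.exp (Z x)).re * Real.exp (-(x ^ 2 / (2 * t))) := by
  set x1 : ℝ := 1 / (4 * P) with hx1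
  have hx10 : 0 < x1 := by positivity
  have hx1t : 16 * t ≤ x1 ^ 2 := by
    rw [hx1, div_pow, le_div_iff₀ (by positivity)]
    nlinarith
  have hle : -ρ ≤ ρ := by linarith
  have hnorm : ∀ x, ‖(q : ℂ) * Complex.exp (Z x)‖ = q * Real.exp (Z x).re := fun x => by
    rw [norm_mul, Complex.norm_real, Real.norm_eq_abs, abs_of_nonneg hq, Complex.norm_exp]
  have hreal : ∀ x, ((q : ℂ) * Complex.exp (Z x)).re = q * Real.exp (Z x).re * Real.cos (Z x).im := fun x => by
    rw [Complex.re_ofReal_mul, Complex.exp_re]; ring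
  have hcE : Continuous fun x : ℝ => Real.exp (-(x ^ 2 / (2 * t))) := Real.continuous_exp.comp (by fun_prop)
  have hcont : ContinuousOn (fun x => (q : ℂ) * Complex.exp (Z x)) (Icc (-ρ) ρ) :=
    continuousOn_const.mul (Complex.continuous_exp.comp_continuousOn hZ)
  have i1 : IntervalIntegrable (fun x => ‖(q : ℂ) * Complex.exp (Z x)‖ * Real.exp (-(x ^ 2 / (2 * t)))) volume (-ρ) ρ := by
    refine ContinuousOn.intervalIntegrable ?_
    rw [uIcc_of_le hle]
    exact hcont.norm.mul hcE.continuousOn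
  have i2 : IntervalIntegrable (fun x => ((q : ℂ) * Complex.exp (Z x)).re * Real.exp (-(x ^ 2 / (2 * t)))) volume (-ρ) ρ := by
    refine ContinuousOn.intervalIntegrable ?_
    rw [uIcc_of_le hle]
    exact (Complex.continuous_re.comp_continuousOn hcont).mul hcE.continuousOn
  rw [← intervalIntegral.integral_const_mul, ← sub_nonneg, ← intervalIntegral.integral_sub i2 (i1.const_mul _)]
  set F : ℝ → ℝ := fun x => ((q : ℂ) * Complex.exp (Z x)).re * Real.exp (-(x ^ 2 / (2 * t))) -
    1 / 2 * (‖(q : ℂ) * Complex.exp (Z x)‖ * Real.exp (-(x ^ 2 / (2 * t)))) with hF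
  have hiF : IntervalIntegrable F volume (-ρ) ρ := i2.sub (i1.const_mul _)
  -- lower bound near zero
  have low : ∀ x ∈ Icc (-ρ) ρ, |x| ≤ x1 → 3 / 8 * q * Real.exp (-(3 * x ^ 2 / (4 * t))) ≤ F x := by
    intro x hx hxx
    have h3 := him x hx
    have h4 : |(Z x).im| ≤ 1 / 2 := by
      refine h3.trans ?_
      have : 2 * P * |x| ≤ 2 * P * x1 := by gcongr
      have e : 2 * P * x1 = 1 / 2 := by rw [hx1]; field_simp; norm_num
      linarith
    have h5 := Real.one_sub_sq_div_two_le_cos (x := (Z x).im)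
    have h6 : (Z x).im ^ 2 ≤ 1 / 4 := by
      rw [← sq_abs]
      have := abs_nonneg (Z x).im
      nlinarith
    have h7 : -(P' * x ^ 2) ≤ (Z x).re := (abs_le.mp (hre x hx)).1
    have h8 : Real.exp (-(3 * x ^ 2 / (4 * t))) ≤ Real.exp (Z x).re * Real.exp (-(x ^ 2 / (2 * t))) := by
      rw [← Real.exp_add]
      apply Real.exp_le_exp.mpr
      have h9 : P' * x ^ 2 ≤ x ^ 2 / (4 * t) := by
        rw [le_div_iff₀ (by positivity)]
        nlinarith [sq_nonneg x]
      have e : 3 * x ^ 2 / (4 * t) = x ^ 2 / (4 * t) + x ^ 2 / (2 * t) := by field_simp; ring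
      linarith
    simp only [hF, hnorm, hreal]
    have h10 : 0 < Real.exp (Z x).re * Real.exp (-(x ^ 2 / (2 * t))) := by positivity
    have h11 : 7 / 8 ≤ Real.cos (Z x).im := by linarith
    have e2 : q * Real.exp (Z x).re * Real.cos (Z x).im * Real.exp (-(x ^ 2 / (2 * t))) -
      1 / 2 * (q * Real.exp (Z x).re * Real.exp (-(x ^ 2 / (2 * t)))) =
      (Real.cos (Z x).im - 1 / 2) * q * (Real.exp (Z x).re * Real.exp (-(x ^ 2 / (2 * t)))) := by ring
    rw [e2]
    refine mul_le_mul ?_ h8 (Real.exp_pos _).le ?_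
    · exact mul_le_mul_of_nonneg_right (by linarith) hq
    · exact mul_nonneg (by linarith) hq
  have high : ∀ x ∈ Icc (-ρ) ρ, -(3 / 2 * q * Real.exp (-(x ^ 2 / (4 * t)))) ≤ F x := by
    intro x hx
    have h7 : (Z x).re ≤ P' * x ^ 2 := (abs_le.mp (hre x hx)).2
    have h8 : Real.exp (Z x).re * Real.exp (-(x ^ 2 / (2 * t))) ≤ Real.exp (-(x ^ 2 / (4 * t))) := by
      rw [← Real.exp_add]
      apply Real.exp_le_exp.mpr
      have h9 : P' * x ^ 2 ≤ x ^ 2 / (4 * t) := by
        rw [le_div_iff₀ (by positivity)]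
        nlinarith [sq_nonneg x]
      have e : x ^ 2 / (2 * t) = x ^ 2 / (4 * t) + x ^ 2 / (4 * t) := by field_simp; ring
      linarith
    simp only [hF, hnorm, hreal]
    have h10 : 0 < Real.exp (Z x).re * Real.exp (-(x ^ 2 / (2 * t))) := by positivity
    have h11 := Real.neg_one_le_cos (Z x).im
    have e2 : q * Real.exp (Z x).re * Real.cos (Z x).im * Real.exp (-(x ^ 2 / (2 * t))) -
      1 / 2 * (q * Real.exp (Z x).re * Real.exp (-(x ^ 2 / (2 * t)))) =
      (Real.cos (Z x).im - 1 / 2) * (q * (Real.exp (Z x).re * Real.exp (-(x ^ 2 / (2 * t))))) := by ring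
    rw [e2]
    have h12 : q * (Real.exp (Z x).re * Real.exp (-(x ^ 2 / (2 * t)))) ≤ q * Real.exp (-(x ^ 2 / (4 * t))) :=
      mul_le_mul_of_nonneg_left h8 hq
    have h13 : 0 ≤ q * (Real.exp (Z x).re * Real.exp (-(x ^ 2 / (2 * t)))) := by positivity
    nlinarith
  rcases le_total ρ x1 with hcase | hcase
  · refine intervalIntegral.integral_nonneg hle fun x hx => ?_
    refine le_trans ?_ (low x hx ?_)
    · positivity
    · rw [abs_le]; constructor <;> linarith [hx.1, hx.2]
  · -- split in three parts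
    have j1 : IntervalIntegrable F volume (-ρ) (-x1) := hiF.mono_set (by
      rw [uIcc_of_le (by linarith), uIcc_of_le hle]; exact Icc_subset_Icc le_rfl (by linarith))
    have j2 : IntervalIntegrable F volume (-x1) x1 := hiF.mono_set (by
      rw [uIcc_of_le (by linarith), uIcc_of_le hle]; exact Icc_subset_Icc (by linarith) (by linarith))
    have j3 : IntervalIntegrable F volume x1 ρ := hiF.mono_set (by
      rw [uIcc_of_le (by linarith), uIcc_of_le hle]; exact Icc_subset_Icc (by linarith) le_rfl)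
    rw [← intervalIntegral.integral_add_adjacent_intervals (j1.trans j2) j3,
      ← intervalIntegral.integral_add_adjacent_intervals j1 j2]
    have hcG : Continuous fun x : ℝ => Real.exp (-(x ^ 2 / (4 * t))) := Real.continuous_exp.comp (by fun_prop)
    have hcH : Continuous fun x : ℝ => Real.exp (-(3 * x ^ 2 / (4 * t))) := Real.continuous_exp.comp (by fun_prop)
    have k3 : -(3 / 2 * q * ∫ x in x1..ρ, Real.exp (-(x ^ 2 / (4 * t)))) ≤ ∫ x in x1..ρ, F x := by
      rw [← intervalIntegral.integral_const_mul, ← intervalIntegral.integral_neg]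
      refine intervalIntegral.integral_mono_on hcase ((hcG.const_mul _).neg.intervalIntegrable _ _) j3
        fun x hx => high x ⟨by linarith [hx.1], hx.2⟩
    have k1 : -(3 / 2 * q * ∫ x in x1..ρ, Real.exp (-(x ^ 2 / (4 * t)))) ≤ ∫ x in (-ρ)..(-x1), F x := by
      have e3 : ∫ x in x1..ρ, Real.exp (-(x ^ 2 / (4 * t))) = ∫ x in (-ρ)..(-x1), Real.exp (-(x ^ 2 / (4 * t))) := by
        have := intervalIntegral.integral_comp_neg (a := x1) (b := ρ) (fun x : ℝ => Real.exp (-(x ^ 2 / (4 * t))))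
        rw [← this]
        simp
      rw [e3, ← intervalIntegral.integral_const_mul, ← intervalIntegral.integral_neg]
      refine intervalIntegral.integral_mono_on (by linarith) ((hcG.const_mul _).neg.intervalIntegrable _ _) j1
        fun x hx => high x ⟨hx.1, by linarith [hx.2]⟩
    have k2 : 3 / 8 * q * (2 * ∫ x in (0 : ℝ)..x1, Real.exp (-(3 * x ^ 2 / (4 * t)))) ≤ ∫ x in (-x1)..x1, F x := by
      have e3 : ∫ x in (-x1)..x1, Real.exp (-(3 * x ^ 2 / (4 * t))) = 2 * ∫ x in (0 : ℝ)..x1, Real.exp (-(3 * x ^ 2 / (4 * t))) := by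
        have := intervalIntegral.integral_comp_neg (a := 0) (b := x1) (fun x : ℝ => Real.exp (-(3 * x ^ 2 / (4 * t))))
        rw [neg_zero] at this
        rw [← intervalIntegral.integral_add_adjacent_intervals (hcH.intervalIntegrable (-x1) 0) (hcH.intervalIntegrable 0 x1), ← this]
        simp only [neg_sq]
        ring
      rw [← e3, ← intervalIntegral.integral_const_mul]
      refine intervalIntegral.integral_mono_on (by linarith) ((hcH.const_mul _).intervalIntegrable _ _) j2
        fun x hx => low x ⟨by linarith [hx.1], by linarith [hx.2]⟩ (abs_le.mpr ⟨hx.1, hx.2⟩)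
    have k4 := mul_le_mul_of_nonneg_left (gauss_cmp ht hx1t hx10 hcase) hq
    nlinarith

end Pool.Agent.H487.NB
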